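import Pool.Agent.R277.JT.Def

/-!
# James type norms on ordered sets (helper file for MP_245e03_an)
-/

set_option autoImplicit false
set_option linter.unusedSectionVars false

open Set Filter Topology

namespace Pool.Agent.R277.JT

section core

variable {I : Type*} [PartialOrder I]

/-- the unit vectors -/
noncomputable def ev (i : I) : Pre I := (show Pre I from (Finsupp.single i (1:ℝ) : I →₀ ℝ))

open Classical in
lemma val_ev (i j : I) : (ev i).val j = if i = j then 1 else 0 := by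
  change (Finsupp.single i (1:ℝ) : I →₀ ℝ) j = _
  rw [Finsupp.single_apply]

open Classical in
lemma ss_ev (S : Finset I) (i : I) : ss S (ev i) = if i ∈ S then 1 else 0 := by
  simp [ss, val_ev]

lemma norm_ev (i : I) : ‖ev i‖ ≤ 1 := by
  classical
  apply norm_le_of zero_le_one
  intro P hP
  simp only [ss_ev, one_pow]
  have h1 : ∑ S ∈ P, (if i ∈ S then (1:ℝ) else 0) ^ 2 = ((P.filter (fun S => i ∈ S)).card : ℝ) := by
    rw [Finset.card_filter]
    push_cast
    exact Finset.sum_congr rfl fun S _ => by split_ifs <;> simp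
  rw [h1]
  have h2 : (P.filter (fun S => i ∈ S)).card ≤ 1 := by
    rw [Finset.card_le_one]
    intro S hS T hT
    rw [Finset.mem_filter] at hS hT
    by_contra hne
    exact (Finset.disjoint_left.1 (hP.2 hS.1 hT.1 hne)) hS.2 hT.2
  exact_mod_cast h2

/-- indexed families of disjoint segments -/
lemma indexed {ι : Type*} (x : Pre I) (s : Finset ι) (S : ι → Finset I)
    (hS : ∀ i ∈ s, (S i).Nonempty → IsSeg (S i))
    (hd : ∀ i ∈ s, ∀ j ∈ s, i ≠ j → Disjoint (S i) (S j)) :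
    ∑ i ∈ s, (ss (S i) x) ^ 2 ≤ ‖x‖ ^ 2 := by
  classical
  let s' := s.filter (fun i => (S i).Nonempty)
  have h1 : ∑ i ∈ s, (ss (S i) x) ^ 2 = ∑ i ∈ s', (ss (S i) x) ^ 2 := by
    symm
    apply Finset.sum_subset (Finset.filter_subset _ _)
    intro i hi hi'
    have : ¬ (S i).Nonempty := fun h => hi' (Finset.mem_filter.2 ⟨hi, h⟩)
    rw [Finset.not_nonempty_iff_eq_empty] at this
    rw [this]; simp [ss]
  have hinj : Set.InjOn S s' := by
    intro i hi j hj hij
    by_contra hne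
    have hi' := Finset.mem_filter.1 (Finset.mem_coe.1 hi)
    have hj' := Finset.mem_filter.1 (Finset.mem_coe.1 hj)
    have h2 := hd i hi'.1 j hj'.1 hne
    rw [hij] at h2
    obtain ⟨a, ha⟩ := hj'.2
    exact (Finset.disjoint_left.1 h2) ha ha
  have h2 : ∑ i ∈ s', (ss (S i) x) ^ 2 = ∑ T ∈ s'.image S, (ss T x) ^ 2 := by
    rw [Finset.sum_image hinj]
  rw [h1, h2]
  apply fam_le
  constructor
  · intro T hT
    obtain ⟨i, hi, rfl⟩ := Finset.mem_image.1 hT
    rw [Finset.mem_filter] at hi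
    exact hS i hi.1 hi.2
  · intro T hT T' hT' hne
    obtain ⟨i, hi, rfl⟩ := Finset.mem_image.1 (Finset.mem_coe.1 hT)
    obtain ⟨j, hj, rfl⟩ := Finset.mem_image.1 (Finset.mem_coe.1 hT')
    rw [Finset.mem_filter] at hi hj
    exact hd i hi.1 j hj.1 (fun h => hne (by rw [h]))

end core

/-- predecessors of a point are pairwise comparable -/
class Forest (I : Type*) [PartialOrder I] : Prop where
  comp : ∀ a b c : I, a ≤ c → b ≤ c → a ≤ b ∨ b ≤ a

section forest

variable {I : Type*} [PartialOrder I] [Forest I]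

open Classical in
/-- intersections of segments with order-connected sets -/
lemma seg_inter {S : Finset I} (hS : IsSeg S) {A : Set I} (hA : A.OrdConnected)
    (hne : (S.filter (fun i => i ∈ A)).Nonempty) : IsSeg (S.filter (fun i => i ∈ A)) := by
  obtain ⟨a, c, hac, hm⟩ := hS
  obtain ⟨m, hm1, hm2⟩ := (S.filter (fun i => i ∈ A)).exists_minimal hne
  obtain ⟨M, hM1, hM2⟩ := (S.filter (fun i => i ∈ A)).exists_maximal hne
  rw [Finset.mem_filter] at hm1 hM1
  have hcomp : ∀ b ∈ S, ∀ b' ∈ S, b ≤ b' ∨ b' ≤ b := fun b hb b' hb' =>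
    Forest.comp b b' c ((hm b).1 hb).2 ((hm b').1 hb').2
  have hmin : ∀ b ∈ S.filter (fun i => i ∈ A), m ≤ b := by
    intro b hb
    rcases hcomp m hm1.1 b (Finset.mem_filter.1 hb).1 with h | h
    · exact h
    · exact hm2 hb h
  have hmax : ∀ b ∈ S.filter (fun i => i ∈ A), b ≤ M := by
    intro b hb
    rcases hcomp M hM1.1 b (Finset.mem_filter.1 hb).1 with h | h
    · exact hM2 hb h
    · exact h
  refine ⟨m, M, hmin M (Finset.mem_filter.2 hM1), fun b => ⟨fun hb => ⟨hmin b hb, hmax b hb⟩, ?_⟩⟩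
  rintro ⟨h1, h2⟩
  rw [Finset.mem_filter]
  refine ⟨(hm b).2 ⟨((hm m).1 hm1.1).1.trans h1, h2.trans ((hm M).1 hM1.1).2⟩, ?_⟩
  exact hA.out hm1.2 hM1.2 ⟨h1, h2⟩

open Classical in
/-- restriction to a set, as a linear map -/
noncomputable def resL (A : Set I) : Pre I →ₗ[ℝ] Pre I where
  toFun x := (show Pre I from Finsupp.filter (fun i => i ∈ A) (show I →₀ ℝ from x))
  map_add' _ _ := Finsupp.filter_add
  map_smul' _ _ := Finsupp.filter_smul

open Classical in
lemma val_resL (A : Set I) (x : Pre I) (i : I) : (resL A x).val i = if i ∈ A then x.val i else 0 := by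
  change (Finsupp.filter (fun i => i ∈ A) (show I →₀ ℝ from x)) i = _
  rw [Finsupp.filter_apply]
  rfl

open Classical in
lemma ss_resL (A : Set I) (S : Finset I) (x : Pre I) :
    ss S (resL A x) = ss (S.filter (fun i => i ∈ A)) x := by
  unfold ss
  rw [Finset.sum_filter]
  exact Finset.sum_congr rfl fun i _ => val_resL A x i

/-- abstract comparison: sums over segments of several vectors are sums of `x` over disjoint
segments -/
lemma sum_sq_abs {ι I' : Type*} [PartialOrder I'] (s : Finset ι) (y : ι → Pre I') (x : Pre I)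
    (T : ι → Finset I' → Finset I)
    (hT : ∀ i ∈ s, ∀ S, IsSeg S → (T i S).Nonempty → IsSeg (T i S))
    (hss : ∀ i ∈ s, ∀ S, IsSeg S → ss S (y i) = ss (T i S) x)
    (hd1 : ∀ i ∈ s, ∀ S S', IsSeg S → IsSeg S' → Disjoint S S' → Disjoint (T i S) (T i S'))
    (hd2 : ∀ i ∈ s, ∀ j ∈ s, i ≠ j → ∀ S S', IsSeg S → IsSeg S' → Disjoint (T i S) (T j S')) :
    ∑ i ∈ s, ‖y i‖ ^ 2 ≤ ‖x‖ ^ 2 := by
  classical
  -- sums of arbitrary families
  have key : ∀ P : ι → Finset (Finset I'), (∀ i ∈ s, IsFam (P i)) →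
      ∑ i ∈ s, ∑ S ∈ P i, (ss S (y i)) ^ 2 ≤ ‖x‖ ^ 2 := by
    intro P hP
    rw [Finset.sum_sigma']
    have h1 : ∑ p ∈ s.sigma P, (ss p.2 (y p.1)) ^ 2 =
        ∑ p ∈ s.sigma P, (ss (T p.1 p.2) x) ^ 2 :=
      Finset.sum_congr rfl fun p hp => by
        rw [Finset.mem_sigma] at hp
        rw [hss p.1 hp.1 p.2 ((hP p.1 hp.1).1 p.2 hp.2)]
    rw [h1]
    apply indexed
    · rintro ⟨i, S⟩ hp hne
      rw [Finset.mem_sigma] at hp
      exact hT i hp.1 S ((hP i hp.1).1 S hp.2) hne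
    · rintro ⟨i, S⟩ hp ⟨j, S'⟩ hq hne
      rw [Finset.mem_sigma] at hp hq
      by_cases hij : i = j
      · subst hij
        have hST : S ≠ S' := fun h => hne (by rw [h])
        exact hd1 i hp.1 S S' ((hP i hp.1).1 S hp.2) ((hP i hp.1).1 S' hq.2)
          ((hP i hp.1).2 hp.2 hq.2 hST)
      · exact hd2 i hp.1 j hq.1 hij S S' ((hP i hp.1).1 S hp.2) ((hP j hq.1).1 S' hq.2)
  apply le_of_forall_pos_le_add
  intro ε hε
  have hch : ∀ i, ∃ P : Finset (Finset I'), IsFam P ∧
      ‖y i‖ ^ 2 - ε / (s.card + 1) ≤ ∑ S ∈ P, (ss S (y i)) ^ 2 := by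
    intro i
    by_contra hcon
    push Not at hcon
    have h0 : 0 ≤ ‖y i‖ ^ 2 - ε / (s.card + 1) := by
      have := hcon ∅ ⟨by simp, by simp⟩
      rw [Finset.sum_empty] at this
      exact this.le
    have h2 : ‖y i‖ ≤ √(‖y i‖ ^ 2 - ε / (s.card + 1)) := by
      apply norm_le_of (Real.sqrt_nonneg _)
      intro P hP
      rw [Real.sq_sqrt h0]
      exact (hcon P hP).le
    have h3 : ‖y i‖ ^ 2 ≤ ‖y i‖ ^ 2 - ε / (s.card + 1) := by
      calc ‖y i‖ ^ 2 ≤ (√(‖y i‖ ^ 2 - ε / (s.card + 1))) ^ 2 :=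
            pow_le_pow_left₀ (norm_nonneg _) h2 2
        _ = _ := Real.sq_sqrt h0
    have h4 : 0 < ε / ((s.card : ℝ) + 1) := by positivity
    linarith
  choose P hP1 hP2 using hch
  have h1 := key P (fun i _ => hP1 i)
  have h2 : ∑ i ∈ s, (‖y i‖ ^ 2 - ε / (s.card + 1)) ≤ ‖x‖ ^ 2 :=
    (Finset.sum_le_sum fun i _ => hP2 i).trans h1
  rw [Finset.sum_sub_distrib, Finset.sum_const, nsmul_eq_mul] at h2
  have h3 : (s.card : ℝ) * (ε / (s.card + 1)) ≤ ε := by
    rw [mul_div_assoc', div_le_iff₀ (by positivity)]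
    nlinarith
  linarith

/-- restrictions to disjoint order-connected sets -/
lemma sum_sq_res {ι : Type*} (s : Finset ι) (A : ι → Set I)
    (hA : ∀ i ∈ s, (A i).OrdConnected) (hd : ∀ i ∈ s, ∀ j ∈ s, i ≠ j → Disjoint (A i) (A j))
    (x : Pre I) : ∑ i ∈ s, ‖resL (A i) x‖ ^ 2 ≤ ‖x‖ ^ 2 := by
  classical
  apply sum_sq_abs s (fun i => resL (A i) x) x (fun i S => S.filter (fun a => a ∈ A i))
  · intro i hi S hS hne
    exact seg_inter hS (hA i hi) hne
  · intro i _ S _
    exact ss_resL _ _ _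
  · intro i _ S S' _ _ h
    exact Finset.disjoint_filter_filter h
  · intro i hi j hj hij S S' _ _
    rw [Finset.disjoint_left]
    intro a ha hb
    rw [Finset.mem_filter] at ha hb
    exact (Set.disjoint_left.1 (hd i hi j hj hij)) ha.2 hb.2

lemma norm_resL_le {A : Set I} (hA : A.OrdConnected) (x : Pre I) : ‖resL A x‖ ≤ ‖x‖ := by
  have h := sum_sq_res ({()} : Finset Unit) (fun _ => A) (fun _ _ => hA) (fun i _ j _ h => absurd rfl h) x
  rw [Finset.sum_singleton] at h
  exact le_of_sq_le_sq h (norm_nonneg x)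

end forest

end Pool.Agent.R277.JT
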