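import Pool.Agent.R277.JT.Dual

/-!
# Branch functionals on James type spaces (helper file for MP_245e03_an)
-/

set_option autoImplicit false
set_option linter.unusedSectionVars false

open Set Filter Topology

namespace Pool.Agent.R277.JT

/-- A branch: an increasing sequence with one element on every level. -/
class IsBr {I : Type*} [PartialOrder I] [Lev I] (σ : ℕ → I) : Prop where
  mono : Monotone σ
  lev_eq : ∀ n, lev (σ n) = n

section br

variable {I : Type*} [PartialOrder I] [Forest I] [Lev I]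

lemma IsBr.inj (σ : ℕ → I) [IsBr σ] : Function.Injective σ := by
  intro m n h
  have := congrArg lev h
  rwa [IsBr.lev_eq, IsBr.lev_eq] at this

lemma IsBr.eq_of_le {σ : ℕ → I} [IsBr σ] {i : I} {n : ℕ} (h : i ≤ σ n) : i = σ (lev i) := by
  have h1 : lev i ≤ n := by
    have := lev_mono h
    rwa [IsBr.lev_eq] at this
  rcases Forest.comp i (σ (lev i)) (σ n) h (IsBr.mono h1) with h2 | h2
  · exact eq_of_lev h2 (by rw [IsBr.lev_eq])
  · exact (eq_of_lev h2 (by rw [IsBr.lev_eq])).symm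

lemma IsBr.le_iff {σ : ℕ → I} [IsBr σ] {m n : ℕ} : σ m ≤ σ n ↔ m ≤ n := by
  constructor
  · intro h
    have := lev_mono h
    rwa [IsBr.lev_eq, IsBr.lev_eq] at this
  · intro h; exact IsBr.mono h

open Classical in
/-- a piece of a branch -/
noncomputable def pc (σ : ℕ → I) (k l : ℕ) : Finset I := (Finset.Ico k l).image σ

lemma mem_pc {σ : ℕ → I} [IsBr σ] {k l : ℕ} {i : I} :
    i ∈ pc σ k l ↔ k ≤ lev i ∧ lev i < l ∧ σ (lev i) = i := by
  classical
  unfold pc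
  rw [Finset.mem_image]
  constructor
  · rintro ⟨n, hn, rfl⟩
    rw [Finset.mem_Ico] at hn
    rw [IsBr.lev_eq]
    exact ⟨hn.1, hn.2, rfl⟩
  · rintro ⟨h1, h2, h3⟩
    exact ⟨lev i, Finset.mem_Ico.2 ⟨h1, h2⟩, h3⟩

lemma ss_pc {σ : ℕ → I} [IsBr σ] (k l : ℕ) (x : Pre I) :
    ss (pc σ k l) x = ∑ n ∈ Finset.Ico k l, x.val (σ n) := by
  classical
  unfold ss pc
  rw [Finset.sum_image (fun a _ b _ h => IsBr.inj σ h)]

lemma isSeg_pc {σ : ℕ → I} [IsBr σ] {k l : ℕ} (h : k < l) : IsSeg (pc σ k l) := by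
  refine ⟨σ k, σ (l - 1), IsBr.mono (by omega), fun b => ?_⟩
  rw [mem_pc]
  constructor
  · rintro ⟨h1, h2, h3⟩
    rw [← h3]
    exact ⟨IsBr.mono h1, IsBr.mono (by omega)⟩
  · rintro ⟨h1, h2⟩
    have h3 := lev_mono h1
    have h4 := lev_mono h2
    rw [IsBr.lev_eq] at h3 h4
    exact ⟨h3, by omega, (IsBr.eq_of_le h2).symm⟩

lemma isSeg_pc' {σ : ℕ → I} [IsBr σ] {k l : ℕ} (h : (pc σ k l).Nonempty) : IsSeg (pc σ k l) := by
  obtain ⟨i, hi⟩ := h
  rw [mem_pc] at hi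
  exact isSeg_pc (by omega)

lemma disj_pc {σ τ : ℕ → I} [IsBr σ] [IsBr τ] {k l k' l' : ℕ}
    (h : ∀ n, k ≤ n → k' ≤ n → n < l → n < l' → σ n ≠ τ n) : Disjoint (pc σ k l) (pc τ k' l') := by
  rw [Finset.disjoint_left]
  intro i h1 h2
  rw [mem_pc] at h1 h2
  exact h (lev i) h1.1 h2.1 h1.2.1 h2.2.1 (h1.2.2.trans h2.2.2.symm)

/-- total sum -/
noncomputable def tot : Pre I →ₗ[ℝ] ℝ :=
  (show (I →₀ ℝ) →ₗ[ℝ] ℝ from Finsupp.linearCombination ℝ (fun _ : I => (1:ℝ)))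

lemma tot_eq {x : Pre I} {S : Finset I} (h : ∀ i, i ∉ S → x.val i = 0) : tot x = ss S x := by
  classical
  change Finsupp.linearCombination ℝ (fun _ : I => (1:ℝ)) (show I →₀ ℝ from x) = _
  rw [Finsupp.linearCombination_apply]
  rw [Finsupp.sum_of_support_subset (s := S)]
  · exact Finset.sum_congr rfl fun i _ => by rw [smul_eq_mul, mul_one]; rfl
  · intro i hi
    by_contra hc
    exact (Finsupp.mem_support_iff.1 hi) (h i hc)
  · intro i _; simp

/-- the tail of a branch -/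
def tail (σ : ℕ → I) (k : ℕ) : Set I := {i | k ≤ lev i ∧ σ (lev i) = i}

instance (σ : ℕ → I) [IsBr σ] (k : ℕ) : (tail σ k).OrdConnected := by
  refine ⟨fun a ha b hb i hi => ⟨ha.1.trans (lev_mono hi.1), ?_⟩⟩
  have h1 : i ≤ σ (lev b) := by rw [hb.2]; exact hi.2
  exact (IsBr.eq_of_le h1).symm

/-- linear version of the tail functional -/
noncomputable def sgL (σ : ℕ → I) (k : ℕ) : Pre I →ₗ[ℝ] ℝ := tot ∘ₗ resL (tail σ k)

lemma sgL_eq {σ : ℕ → I} [IsBr σ] {k N : ℕ} {x : Pre I} (h : ∀ n, N ≤ n → x.val (σ n) = 0) :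
    sgL σ k x = ss (pc σ k N) x := by
  classical
  unfold sgL
  rw [LinearMap.comp_apply, tot_eq (S := pc σ k N)]
  · rw [ss_resL]
    congr 1
    apply Finset.filter_true_of_mem
    intro i hi
    rw [mem_pc] at hi
    exact ⟨hi.1, hi.2.2⟩
  · intro i hi
    rw [val_resL]
    by_cases h1 : i ∈ tail σ k
    · rw [if_pos h1]
      rw [mem_pc] at hi
      have h2 : N ≤ lev i := by
        by_contra hc
        exact hi ⟨h1.1, not_le.1 hc, h1.2⟩
      have := h _ h2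
      rwa [h1.2] at this
    · rw [if_neg h1]

lemma exists_N (σ : ℕ → I) [IsBr σ] (x : Pre I) : ∃ N, ∀ n, N ≤ n → x.val (σ n) = 0 := by
  obtain ⟨N, hN⟩ := exists_lev x
  exact ⟨N, fun n hn => hN _ (by rwa [IsBr.lev_eq])⟩

lemma abs_ss_pc_le {σ : ℕ → I} [IsBr σ] (k N : ℕ) (x : Pre I) : |ss (pc σ k N) x| ≤ ‖x‖ := by
  by_cases h : (pc σ k N).Nonempty
  · exact seg_le x (isSeg_pc' h)
  · rw [Finset.not_nonempty_iff_eq_empty] at h
    rw [h]
    simp [ss]

lemma abs_sgL_le {σ : ℕ → I} [IsBr σ] (k : ℕ) (x : Pre I) : |sgL σ k x| ≤ ‖x‖ := by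
  obtain ⟨N, hN⟩ := exists_N σ x
  rw [sgL_eq hN]
  exact abs_ss_pc_le k N x

/-- the tail functional of a branch -/
noncomputable def sg (σ : ℕ → I) [IsBr σ] (k : ℕ) : D I :=
  (sgL σ k).mkContinuous 1 (fun x => by simpa using abs_sgL_le k x)

lemma sg_eq {σ : ℕ → I} [IsBr σ] {k N : ℕ} {x : Pre I} (h : ∀ n, N ≤ n → x.val (σ n) = 0) :
    sg σ k x = ss (pc σ k N) x := sgL_eq h

lemma abs_sg_le {σ : ℕ → I} [IsBr σ] (k : ℕ) (x : Pre I) : |sg σ k x| ≤ ‖x‖ := abs_sgL_le k x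

/-- sums over a finite set, as a linear map -/
noncomputable def ssL (S : Finset I) : Pre I →ₗ[ℝ] ℝ where
  toFun x := ss S x
  map_add' x y := ss_add S x y
  map_smul' c x := by rw [ss_smul]; simp

/-- the functional of a piece of a branch -/
noncomputable def sp (σ : ℕ → I) [IsBr σ] (k l : ℕ) : D I :=
  (ssL (pc σ k l)).mkContinuous 1 (fun x => by rw [one_mul]; exact abs_ss_pc_le k l x)

lemma sp_apply {σ : ℕ → I} [IsBr σ] (k l : ℕ) (x : Pre I) : sp σ k l x = ss (pc σ k l) x := rfl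

lemma sg_sub {σ : ℕ → I} [IsBr σ] {k l : ℕ} (h : k ≤ l) : sg σ k - sg σ l = sp σ k l := by
  ext x
  obtain ⟨N, hN⟩ := exists_N σ x
  have hN' : ∀ n, max N l ≤ n → x.val (σ n) = 0 := fun n hn => hN n ((le_max_left _ _).trans hn)
  rw [_root_.sub_apply, sp_apply, sg_eq hN', sg_eq hN', ss_pc, ss_pc, ss_pc,
    ← Finset.sum_Ico_consecutive _ h (le_max_right N l)]
  ring

lemma val_ev_self (i : I) : (ev i).val i = 1 := by
  classical
  rw [val_ev, if_pos rfl]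

lemma val_ev_ne {i j : I} (h : i ≠ j) : (ev i).val j = 0 := by
  classical
  rw [val_ev, if_neg h]

open Classical in
lemma sg_ev {σ : ℕ → I} [IsBr σ] (k : ℕ) (i : I) :
    sg σ k (ev i) = if i ∈ tail σ k then 1 else 0 := by
  have h : ∀ n, lev i + 1 ≤ n → (ev i).val (σ n) = 0 := by
    intro n hn
    apply val_ev_ne
    rintro rfl
    rw [IsBr.lev_eq] at hn
    omega
  rw [sg_eq h, ss_ev]
  congr 1
  rw [mem_pc]
  apply propext
  exact ⟨fun h => ⟨h.1, h.2.2⟩, fun h => ⟨h.1, by omega, h.2⟩⟩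

lemma sg_ev_br {σ τ : ℕ → I} [IsBr σ] [IsBr τ] {k n : ℕ} (hk : k ≤ n) (h : σ n = τ n) :
    sg σ k (ev (τ n)) = 1 := by
  classical
  rw [sg_ev, if_pos]
  refine ⟨by rwa [IsBr.lev_eq], by rw [IsBr.lev_eq, h]⟩

lemma sg_ev_br_ne {σ τ : ℕ → I} [IsBr σ] [IsBr τ] {k n : ℕ} (h : σ n ≠ τ n) :
    sg σ k (ev (τ n)) = 0 := by
  classical
  rw [sg_ev, if_neg]
  rintro ⟨_, h2⟩
  rw [IsBr.lev_eq] at h2
  exact h h2

lemma sg_ev_lt {σ τ : ℕ → I} [IsBr σ] [IsBr τ] {k n : ℕ} (h : n < k) :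
    sg σ k (ev (τ n)) = 0 := by
  classical
  rw [sg_ev, if_neg]
  rintro ⟨h2, _⟩
  rw [IsBr.lev_eq] at h2
  omega

lemma cut_sg {σ : ℕ → I} [IsBr σ] {k l : ℕ} (h : k ≤ l) : cut (sg σ k) (lv I l) = sg σ l := by
  classical
  ext x
  obtain ⟨N, hN⟩ := exists_N σ x
  have hN' : ∀ n, max N l ≤ n → (res (lv I l) x).val (σ n) = 0 := by
    intro n hn
    rw [val_res]
    split_ifs
    · exact hN n ((le_max_left _ _).trans hn)
    · rfl
  rw [cut_apply, sg_eq hN', sg_eq (fun n hn => hN n ((le_max_left N l).trans hn)), res_apply, ss_resL]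
  congr 1
  ext i
  rw [Finset.mem_filter, mem_pc, mem_pc]
  exact ⟨fun h' => ⟨h'.2, h'.1.2⟩, fun h' => ⟨⟨h.trans h'.1, h'.2⟩, h'.1⟩⟩

/-- the tails of different branches -/
lemma tails_sq {ι : Type*} (s : Finset ι) (σ : ι → ℕ → I) [∀ i, IsBr (σ i)] (k : ι → ℕ)
    (hd : ∀ i ∈ s, ∀ j ∈ s, i ≠ j → ∀ n, k i ≤ n → k j ≤ n → σ i n ≠ σ j n) (x : Pre I) :
    ∑ i ∈ s, (sg (σ i) (k i) x) ^ 2 ≤ ‖x‖ ^ 2 := by
  obtain ⟨N, hN⟩ := exists_lev x
  have h1 : ∀ i, ∀ n, N ≤ n → x.val (σ i n) = 0 := fun i n hn => hN _ (by rwa [IsBr.lev_eq])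
  have h2 : ∑ i ∈ s, (sg (σ i) (k i) x) ^ 2 = ∑ i ∈ s, (ss (pc (σ i) (k i) N) x) ^ 2 :=
    Finset.sum_congr rfl fun i _ => by rw [sg_eq (h1 i)]
  rw [h2]
  apply indexed
  · intro i _ h; exact isSeg_pc' h
  · intro i hi j hj hij
    exact disj_pc fun n h3 h4 _ _ => hd i hi j hj hij n h3 h4

lemma norm_sum_tails_le {ι : Type*} (s : Finset ι) (σ : ι → ℕ → I) [∀ i, IsBr (σ i)] (k : ι → ℕ)
    (hd : ∀ i ∈ s, ∀ j ∈ s, i ≠ j → ∀ n, k i ≤ n → k j ≤ n → σ i n ≠ σ j n) (b : ι → ℝ) :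
    ‖∑ i ∈ s, b i • sg (σ i) (k i)‖ ≤ √(∑ i ∈ s, b i ^ 2) := by
  apply norm_le_of_sq s _ b (fun i x => sg (σ i) (k i) x)
  · intro x
    rw [_root_.sum_apply]
    refine (Finset.abs_sum_le_sum_abs _ _).trans (Finset.sum_le_sum fun i _ => ?_)
    rw [_root_.smul_apply, smul_eq_mul, abs_mul]
  · exact tails_sq s σ k hd

/-- if every segment meets at most `K` of the vectors essentially -/
lemma K_blocks {ι : Type*} (K : ℕ) (s : Finset ι) (x : ι → Pre I)
    (h : ∀ S : Finset I, IsSeg S → (s.filter (fun j => ss S (x j) ≠ 0)).card ≤ K) :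
    ‖∑ j ∈ s, x j‖ ^ 2 ≤ K * ∑ j ∈ s, ‖x j‖ ^ 2 := by
  have h0 : 0 ≤ K * ∑ j ∈ s, ‖x j‖ ^ 2 := by positivity
  have h1 : ‖∑ j ∈ s, x j‖ ≤ √(K * ∑ j ∈ s, ‖x j‖ ^ 2) := by
    apply norm_le_of (Real.sqrt_nonneg _)
    intro P hP
    rw [Real.sq_sqrt h0]
    have h2 : ∀ S ∈ P, (ss S (∑ j ∈ s, x j)) ^ 2 ≤ K * ∑ j ∈ s, (ss S (x j)) ^ 2 := by
      intro S hS
      rw [ss_sum]
      have h3 : ∑ j ∈ s, ss S (x j) = ∑ j ∈ s.filter (fun j => ss S (x j) ≠ 0), ss S (x j) :=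
        (Finset.sum_filter_ne_zero s).symm
      rw [h3]
      have h4 := sq_sum_le_card_mul_sum_sq (s := s.filter (fun j => ss S (x j) ≠ 0))
        (f := fun j => ss S (x j))
      have h5 : ((s.filter (fun j => ss S (x j) ≠ 0)).card : ℝ) ≤ K := by
        exact_mod_cast h S (hP.1 S hS)
      have h6 : ∑ j ∈ s.filter (fun j => ss S (x j) ≠ 0), (ss S (x j)) ^ 2 ≤
          ∑ j ∈ s, (ss S (x j)) ^ 2 :=
        Finset.sum_le_sum_of_subset_of_nonneg (Finset.filter_subset _ _) fun _ _ _ => sq_nonneg _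
      have h7 : 0 ≤ ∑ j ∈ s.filter (fun j => ss S (x j) ≠ 0), (ss S (x j)) ^ 2 :=
        Finset.sum_nonneg fun _ _ => sq_nonneg _
      calc _ ≤ _ := h4
        _ ≤ K * ∑ j ∈ s.filter (fun j => ss S (x j) ≠ 0), (ss S (x j)) ^ 2 :=
          mul_le_mul_of_nonneg_right h5 h7
        _ ≤ _ := mul_le_mul_of_nonneg_left h6 (Nat.cast_nonneg K)
    calc ∑ S ∈ P, (ss S (∑ j ∈ s, x j)) ^ 2 ≤ ∑ S ∈ P, K * ∑ j ∈ s, (ss S (x j)) ^ 2 :=
          Finset.sum_le_sum h2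
      _ = K * ∑ j ∈ s, ∑ S ∈ P, (ss S (x j)) ^ 2 := by rw [← Finset.mul_sum, Finset.sum_comm]
      _ ≤ K * ∑ j ∈ s, ‖x j‖ ^ 2 := by
        apply mul_le_mul_of_nonneg_left _ (Nat.cast_nonneg K)
        exact Finset.sum_le_sum fun j _ => fam_le (x j) hP
  calc ‖∑ j ∈ s, x j‖ ^ 2 ≤ (√(K * ∑ j ∈ s, ‖x j‖ ^ 2)) ^ 2 :=
        pow_le_pow_left₀ (norm_nonneg _) h1 2
    _ = _ := Real.sq_sqrt h0

/-- middle blocks with zero branch sum are not seen by segments -/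
lemma mid_zero {σ : ℕ → I} [IsBr σ] {x : Pre I} {m m' : ℕ}
    (hx : ∀ i, x.val i ≠ 0 → σ m ≤ i ∧ ¬ σ m' ≤ i) (hmm : m ≤ m') (h0 : sg σ 0 x = 0)
    {S : Finset I} (hS : IsSeg S) {u w : I} (hu : u ∈ S) (hw : w ∈ S)
    (hu' : ¬ σ m ≤ u) (hu'' : ∃ q, q ≤ m ∧ σ q ≤ u) (hw' : σ m' ≤ w) : ss S x = 0 := by
  classical
  obtain ⟨a, c, hac, hm⟩ := hS
  have hcomp : ∀ b ∈ S, ∀ b' ∈ S, b ≤ b' ∨ b' ≤ b := fun b hb b' hb' =>
    Forest.comp b b' c ((hm b).1 hb).2 ((hm b').1 hb').2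
  have huw : u ≤ w := by
    rcases hcomp u hu w hw with h | h
    · exact h
    · exact absurd (((IsBr.mono hmm).trans hw').trans h) hu'
  obtain ⟨N, hN⟩ := exists_N σ x
  rw [sg_eq hN] at h0
  rw [← h0]
  unfold ss
  rw [← Finset.sum_filter_ne_zero S, ← Finset.sum_filter_ne_zero (pc σ 0 N)]
  congr 1
  ext i
  rw [Finset.mem_filter, Finset.mem_filter]
  refine and_congr_left fun hi => ?_
  obtain ⟨hi1, hi2⟩ := hx i hi
  constructor
  · intro hiS
    have h1 : i ≤ w := by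
      rcases hcomp i hiS w hw with h | h
      · exact h
      · exact absurd (hw'.trans h) hi2
    have h2 : i ≤ σ m' := by
      rcases Forest.comp i (σ m') w h1 hw' with h | h
      · exact h
      · exact absurd h hi2
    have h3 := IsBr.eq_of_le h2
    rw [mem_pc]
    refine ⟨Nat.zero_le _, ?_, h3.symm⟩
    by_contra hc
    apply hi
    rw [h3]
    exact hN _ (not_lt.1 hc)
  · intro hiP
    rw [mem_pc] at hiP
    have h1 : i ≤ σ m' := by
      rw [← hiP.2.2]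
      apply IsBr.mono
      by_contra hc
      apply hi2
      rw [← hiP.2.2]
      exact IsBr.mono (by omega)
    have h2 : i ≤ w := h1.trans hw'
    have h3 : u ≤ i := by
      rcases Forest.comp u i w huw h2 with h | h
      · exact h
      · exact absurd (hi1.trans h) hu'
    exact (hm i).2 ⟨((hm u).1 hu).1.trans h3, h2.trans ((hm w).1 hw).2⟩

/-- the key lemma -/
lemma keyZ {σ : ℕ → I} [IsBr σ] (f : D I) {δ : ℝ} (hδ : 0 < δ)
    (h : ∀ n : ℕ, ∃ (x : Pre I) (n' : ℕ), n < n' ∧ ‖x‖ ≤ 2 ∧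
      (∀ i, x.val i ≠ 0 → σ n ≤ i ∧ ¬ σ n' ≤ i) ∧ sg σ 0 x = 0 ∧ δ ≤ f x) : False := by
  classical
  choose X nx h1 h2 h3 h4 h5 using h
  let p : ℕ → ℕ := fun j => Nat.rec 0 (fun _ q => nx q) j
  have hp : ∀ j, p (j + 1) = nx (p j) := fun j => rfl
  have hps : StrictMono p := strictMono_nat_of_lt_succ fun j => by rw [hp]; exact h1 _
  have hpm : Monotone p := hps.monotone
  have hbound : ∀ m : ℕ, ‖∑ j ∈ Finset.range m, X (p j)‖ ^ 2 ≤ 8 * m := by
    intro m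
    have hb := K_blocks 2 (Finset.range m) (fun j => X (p j)) (by
      intro S hS
      set G := (Finset.range m).filter (fun j => ss S (X (p j)) ≠ 0) with hG
      have hmid : ∀ a ∈ G, ∀ b ∈ G, ∀ c ∈ G, a < b → b < c → False := by
        intro a ha b hb c hc hab hbc
        rw [hG, Finset.mem_filter] at ha hb hc
        obtain ⟨u, hu1, hu2⟩ := Finset.exists_ne_zero_of_sum_ne_zero ha.2
        obtain ⟨w, hw1, hw2⟩ := Finset.exists_ne_zero_of_sum_ne_zero hc.2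
        apply hb.2
        have hu3 := h3 (p a) u hu2
        have hw3 := h3 (p c) w hw2
        refine mid_zero (h3 (p b)) (h1 (p b)).le (h4 (p b)) hS hu1 hw1 ?_ ⟨p a, hpm hab.le, hu3.1⟩ ?_
        · intro hc'
          apply hu3.2
          refine le_trans (IsBr.mono ?_) hc'
          rw [← hp]
          exact hpm hab
        · refine le_trans (IsBr.mono ?_) hw3.1
          rw [← hp]
          exact hpm hbc
      by_contra hcard
      push Not at hcard
      obtain ⟨a, b, c, ha, hb, hc, hab, hac, hbc⟩ := Finset.two_lt_card_iff.1 hcard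
      rcases lt_or_gt_of_ne hab with h | h <;> rcases lt_or_gt_of_ne hac with h' | h' <;>
        rcases lt_or_gt_of_ne hbc with h'' | h''
      · exact hmid a ha b hb c hc h h''
      · exact hmid a ha c hc b hb h' h''
      · omega
      · exact hmid c hc a ha b hb h' h
      · exact hmid b hb a ha c hc h h'
      · omega
      · exact hmid b hb c hc a ha h'' h'
      · exact hmid c hc b hb a ha h'' h)
    refine hb.trans ?_
    have h6 : ∑ j ∈ Finset.range m, ‖X (p j)‖ ^ 2 ≤ ∑ j ∈ Finset.range m, (4:ℝ) := by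
      apply Finset.sum_le_sum
      intro j _
      have := h2 (p j)
      have h0 := norm_nonneg (X (p j))
      nlinarith
    rw [Finset.sum_const, Finset.card_range, nsmul_eq_mul] at h6
    push_cast
    linarith
  have hlow : ∀ m : ℕ, m * δ ≤ f (∑ j ∈ Finset.range m, X (p j)) := by
    intro m
    rw [map_sum]
    have : ∑ j ∈ Finset.range m, δ ≤ ∑ j ∈ Finset.range m, f (X (p j)) :=
      Finset.sum_le_sum fun j _ => h5 (p j)
    rwa [Finset.sum_const, Finset.card_range, nsmul_eq_mul] at this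
  obtain ⟨m, hm⟩ := exists_nat_gt (8 * ‖f‖ ^ 2 / δ ^ 2)
  rw [div_lt_iff₀ (by positivity)] at hm
  have hm0 : (0:ℝ) < m := by
    have : 0 ≤ 8 * ‖f‖ ^ 2 := by positivity
    by_contra hc
    push Not at hc
    nlinarith [sq_nonneg δ]
  have h7 : (m * δ) ^ 2 ≤ ‖f‖ ^ 2 * (8 * m) := by
    have h8 : m * δ ≤ ‖f‖ * ‖∑ j ∈ Finset.range m, X (p j)‖ :=
      (hlow m).trans ((le_abs_self _).trans (f.le_opNorm _))
    calc (m * δ) ^ 2 ≤ (‖f‖ * ‖∑ j ∈ Finset.range m, X (p j)‖) ^ 2 :=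
          pow_le_pow_left₀ (by positivity) h8 2
      _ = ‖f‖ ^ 2 * ‖∑ j ∈ Finset.range m, X (p j)‖ ^ 2 := by ring
      _ ≤ _ := mul_le_mul_of_nonneg_left (hbound m) (sq_nonneg _)
  have h8 : (m:ℝ) * (m * δ ^ 2) ≤ m * (8 * ‖f‖ ^ 2) := by nlinarith
  have h9 := le_of_mul_le_mul_left h8 hm0
  linarith

lemma lim_exists (σ : ℕ → I) [IsBr σ] (f : D I) :
    ∃ L, Tendsto (fun n => f (ev (σ n))) atTop (𝓝 L) := by
  apply cauchySeq_tendsto_of_complete
  by_contra hc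
  rw [Metric.cauchySeq_iff'] at hc
  push Not at hc
  obtain ⟨ε, hε, hc⟩ := hc
  apply keyZ (σ := σ) f hε
  intro n
  obtain ⟨m, hm1, hm2⟩ := hc n
  have hmn : n < m := by
    rcases hm1.eq_or_lt with h | h
    · subst h; rw [dist_self] at hm2; linarith
    · exact h
  have hsg : ∀ q, sg σ 0 (ev (σ q)) = 1 := fun q => sg_ev_br (Nat.zero_le _) rfl
  have hsupp : ∀ c : ℝ, ∀ i, (c • (ev (σ m) - ev (σ n))).val i ≠ 0 → σ n ≤ i ∧ ¬ σ (m + 1) ≤ i := by
    intro c i hi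
    have h1 : i = σ m ∨ i = σ n := by
      by_contra hcon
      push Not at hcon
      apply hi
      have h2 : (ev (σ m) - ev (σ n)).val i = (ev (σ m)).val i - (ev (σ n)).val i := by
        have := ss_sub {i} (ev (σ m)) (ev (σ n))
        simpa [ss] using this
      rw [val_smul, h2, val_ev_ne hcon.1.symm, val_ev_ne hcon.2.symm]
      simp
    rcases h1 with rfl | rfl
    · rw [IsBr.le_iff, IsBr.le_iff]; omega
    · rw [IsBr.le_iff, IsBr.le_iff]; omega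
  have hnorm : ‖ev (σ m) - ev (σ n)‖ ≤ 2 := by
    have h1 := norm_sub_le (ev (σ m)) (ev (σ n))
    have h2 := norm_ev (σ m)
    have h3 := norm_ev (σ n)
    linarith
  rw [Real.dist_eq] at hm2
  rcases le_abs.1 hm2 with h | h
  · refine ⟨(1:ℝ) • (ev (σ m) - ev (σ n)), m + 1, by omega, by rwa [one_smul], hsupp 1, ?_, ?_⟩
    · rw [map_smul, map_sub, hsg, hsg]; simp
    · rw [map_smul, map_sub]; simpa using h
  · refine ⟨(-1:ℝ) • (ev (σ m) - ev (σ n)), m + 1, by omega, ?_, hsupp (-1), ?_, ?_⟩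
    · rw [norm_smul]; simpa using hnorm
    · rw [map_smul, map_sub, hsg, hsg]; simp
    · rw [map_smul, map_sub]; simp only [smul_eq_mul]; linarith

/-- the limit of a functional along a branch -/
noncomputable def Lm (σ : ℕ → I) (f : D I) : ℝ := limUnder atTop (fun n => f (ev (σ n)))

lemma tendsto_Lm (σ : ℕ → I) [IsBr σ] (f : D I) :
    Tendsto (fun n => f (ev (σ n))) atTop (𝓝 (Lm σ f)) := tendsto_nhds_limUnder (lim_exists σ f)

lemma Lm_add (σ : ℕ → I) [IsBr σ] (f g : D I) : Lm σ (f + g) = Lm σ f + Lm σ g :=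
  tendsto_nhds_unique (tendsto_Lm σ (f + g)) ((tendsto_Lm σ f).add (tendsto_Lm σ g))

lemma Lm_sub (σ : ℕ → I) [IsBr σ] (f g : D I) : Lm σ (f - g) = Lm σ f - Lm σ g :=
  tendsto_nhds_unique (tendsto_Lm σ (f - g)) ((tendsto_Lm σ f).sub (tendsto_Lm σ g))

lemma Lm_smul (σ : ℕ → I) [IsBr σ] (c : ℝ) (f : D I) : Lm σ (c • f) = c * Lm σ f :=
  tendsto_nhds_unique (tendsto_Lm σ (c • f)) ((tendsto_Lm σ f).const_mul c)

lemma Lm_zero (σ : ℕ → I) [IsBr σ] : Lm σ (0 : D I) = 0 :=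
  tendsto_nhds_unique (tendsto_Lm σ (0 : D I)) tendsto_const_nhds

lemma Lm_sum (σ : ℕ → I) [IsBr σ] {ι : Type*} (s : Finset ι) (f : ι → D I) :
    Lm σ (∑ i ∈ s, f i) = ∑ i ∈ s, Lm σ (f i) := by
  classical
  induction s using Finset.induction_on with
  | empty => simp [Lm_zero]
  | insert a s ha ih => rw [Finset.sum_insert ha, Finset.sum_insert ha, Lm_add, ih]

lemma abs_apply_ev_le (f : D I) (i : I) : |f (ev i)| ≤ ‖f‖ := by
  have h1 := f.le_opNorm (ev i)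
  have h2 := norm_ev i
  rw [Real.norm_eq_abs] at h1
  exact h1.trans (mul_le_of_le_one_right (norm_nonneg _) h2)

lemma abs_Lm_le (σ : ℕ → I) [IsBr σ] (f : D I) : |Lm σ f| ≤ ‖f‖ :=
  le_of_tendsto (tendsto_Lm σ f).abs (Eventually.of_forall fun _ => abs_apply_ev_le f _)

lemma Lm_sg_self (σ : ℕ → I) [IsBr σ] (k : ℕ) : Lm σ (sg σ k) = 1 := by
  apply tendsto_nhds_unique (tendsto_Lm σ (sg σ k))
  apply tendsto_const_nhds.congr'
  filter_upwards [eventually_ge_atTop k] with n hn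
  rw [sg_ev_br hn rfl]

lemma Lm_sg_ne {σ τ : ℕ → I} [IsBr σ] [IsBr τ] (h : ∀ᶠ n in atTop, σ n ≠ τ n) (k : ℕ) :
    Lm τ (sg σ k) = 0 := by
  apply tendsto_nhds_unique (tendsto_Lm τ (sg σ k))
  apply tendsto_const_nhds.congr'
  filter_upwards [h] with n hn
  rw [sg_ev_br_ne hn]

/-- almost norming vectors -/
lemma exists_near (g : D I) {r : ℝ} (hr : r < ‖g‖) : ∃ x : Pre I, ‖x‖ ≤ 1 ∧ r < g x := by
  obtain ⟨x, hx1, hx2⟩ := g.exists_lt_apply_of_lt_opNorm hr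
  rw [Real.norm_eq_abs] at hx2
  rcases lt_abs.1 hx2 with h | h
  · exact ⟨x, hx1.le, h⟩
  · exact ⟨-x, by rw [norm_neg]; exact hx1.le, by rwa [map_neg]⟩

/-- If the limit along a branch is zero, then so is the limit of the norms of the restrictions
to the subtrees along the branch. -/
lemma step1 {σ : ℕ → I} [IsBr σ] {f : D I} (hL : Lm σ f = 0) :
    Tendsto (fun n => ‖cut f (Ici (σ n))‖) atTop (𝓝 0) := by
  have hanti : Antitone (fun n => ‖cut f (Ici (σ n))‖) := fun m n hmn =>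
    norm_cut_mono f (Ici_subset_Ici.2 (IsBr.mono hmn))
  by_contra hcon
  have hδ : ∃ δ > 0, ∀ n, δ ≤ ‖cut f (Ici (σ n))‖ := by
    by_contra hc
    push Not at hc
    apply hcon
    rw [Metric.tendsto_atTop]
    intro ε hε
    obtain ⟨N, hN⟩ := hc ε hε
    refine ⟨N, fun n hn => ?_⟩
    rw [Real.dist_eq, sub_zero, abs_of_nonneg (norm_nonneg _)]
    exact (hanti hn).trans_lt hN
  obtain ⟨δ, hδ, hall⟩ := hδ
  apply keyZ (σ := σ) f (show 0 < δ / 4 by linarith)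
  intro n
  obtain ⟨x, hx1, hx2⟩ := exists_near (cut f (Ici (σ n))) (r := δ / 2) (by linarith [hall n])
  rw [cut_apply] at hx2
  set y := res (Ici (σ n)) x with hy
  have hy1 : ‖y‖ ≤ 1 := (norm_res_le _ _).trans hx1
  obtain ⟨N, hN⟩ := exists_lev y
  have hev : ∀ᶠ q in atTop, |f (ev (σ q))| < δ / 4 := by
    have := (tendsto_Lm σ f).abs
    rw [hL, abs_zero] at this
    exact this.eventually_lt_const (by linarith)
  obtain ⟨q, hq1, hq2, hq3⟩ := (hev.and ((eventually_ge_atTop N).and (eventually_ge_atTop n))).exists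
  refine ⟨y - sg σ 0 y • ev (σ q), q + 1, by omega, ?_, ?_, ?_, ?_⟩
  · have h1 := norm_sub_le y (sg σ 0 y • ev (σ q))
    have h2 : ‖sg σ 0 y • ev (σ q)‖ ≤ 1 := by
      rw [norm_smul, Real.norm_eq_abs]
      have := abs_sg_le (σ := σ) 0 y
      have h3 := norm_ev (σ q)
      have h4 := norm_nonneg (ev (σ q))
      have h5 := abs_nonneg (sg σ 0 y)
      nlinarith
    linarith
  · intro i hi
    by_cases h1 : i = σ q
    · subst h1
      rw [IsBr.le_iff, IsBr.le_iff]; omega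
    · have h2 : (y - sg σ 0 y • ev (σ q)).val i = y.val i - sg σ 0 y * (ev (σ q)).val i := by
        have := ss_sub {i} y (sg σ 0 y • ev (σ q))
        simpa [ss, val_smul] using this
      rw [h2, val_ev_ne (Ne.symm h1), mul_zero, sub_zero] at hi
      constructor
      · by_contra hc
        apply hi
        classical
        rw [hy, val_res, if_neg (show i ∉ Ici (σ n) from hc)]
      · intro hc
        apply hi
        apply hN
        have := lev_mono hc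
        rw [IsBr.lev_eq] at this
        omega
  · rw [map_sub, map_smul, sg_ev_br (Nat.zero_le _) rfl]; simp
  · rw [map_sub, map_smul, smul_eq_mul]
    have h1 : |sg σ 0 y * f (ev (σ q))| ≤ δ / 4 := by
      rw [abs_mul]
      have h2 := (abs_sg_le (σ := σ) 0 y).trans hy1
      have h3 := abs_nonneg (sg σ 0 y)
      have h4 := abs_nonneg (f (ev (σ q)))
      nlinarith
    have h2 := (abs_le.1 h1).2
    linarith

end br

end Pool.Agent.R277.JT
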