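import Pool.Agent.R277.JT.Main

/-!
# Passing to completions (helper file for MP_245e03_an)
-/

set_option autoImplicit false

namespace Pool.Agent.R277.JT

open UniformSpace

/-- Restriction of functionals on the completion to the space itself. -/
noncomputable def rho (E : Type*) [NormedAddCommGroup E] [NormedSpace ℝ E] :
    StrongDual ℝ (Completion E) →ₗᵢ[ℝ] StrongDual ℝ E where
  toFun f := f.comp Completion.toComplL
  map_add' _ _ := rfl
  map_smul' _ _ := rfl
  norm_map' f := by
    change ‖f.comp Completion.toComplL‖ = ‖f‖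
    apply le_antisymm
    · apply ContinuousLinearMap.opNorm_le_bound _ (norm_nonneg _)
      intro x
      have h := f.le_opNorm (x : Completion E)
      rwa [Completion.norm_coe] at h
    · apply ContinuousLinearMap.opNorm_le_bound _ (norm_nonneg _)
      intro x
      refine Completion.induction_on x ?_ ?_
      · exact isClosed_le f.continuous.norm (continuous_const.mul continuous_norm)
      · intro a
        have h := (f.comp (Completion.toComplL : E →L[ℝ] Completion E)).le_opNorm a
        rwa [ContinuousLinearMap.comp_apply, Completion.coe_toComplL, ← Completion.norm_coe a] at h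

lemma rho_apply {E : Type*} [NormedAddCommGroup E] [NormedSpace ℝ E]
    (f : StrongDual ℝ (Completion E)) (x : E) : rho E f x = f (x : Completion E) := rfl

lemma rho_surjective (E : Type*) [NormedAddCommGroup E] [NormedSpace ℝ E] :
    Function.Surjective (rho E) := by
  intro g
  refine ⟨g.extend (Completion.toComplL : E →L[ℝ] Completion E), ?_⟩
  ext x
  rw [rho_apply]
  exact ContinuousLinearMap.extend_eq g Completion.denseRange_coe
    (Completion.isUniformInducing_coe E) x

/-- The dual of `JT` is the dual of the space of finitely supported functions. -/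
noncomputable def eT : StrongDual ℝ (Completion (Pre Tree)) ≃ₗᵢ[ℝ] D Tree :=
  LinearIsometryEquiv.ofSurjective (rho (Pre Tree)) (rho_surjective _)

/-- The dual of `J` is the dual of the space of finitely supported sequences. -/
noncomputable def eJ : StrongDual ℝ (Completion (Pre ℕ)) ≃ₗᵢ[ℝ] D ℕ :=
  LinearIsometryEquiv.ofSurjective (rho (Pre ℕ)) (rho_surjective _)

/-- Closed range of operators bounded below. -/
lemma range_of_bound {E F : Type*} [NormedAddCommGroup E] [NormedSpace ℝ E] [CompleteSpace E]
    [NormedAddCommGroup F] [NormedSpace ℝ F] [CompleteSpace F] (U : F →L[ℝ] E) {c : ℝ} (hc : 0 < c)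
    (hU : ∀ f, c * ‖f‖ ≤ ‖U f‖) :
    ∃ Z : Submodule ℝ E, IsClosed (Z : Set E) ∧ Nonempty (Z ≃L[ℝ] F) := by
  have hinj : Function.Injective U := by
    rw [injective_iff_map_eq_zero]
    intro f hf
    have h := hU f
    rw [hf, norm_zero] at h
    have h2 := norm_nonneg f
    have h3 : ‖f‖ = 0 := by nlinarith
    exact norm_eq_zero.1 h3
  have hcl : IsClosed (Set.range U) := by
    have hanti : AntilipschitzWith (Real.toNNReal c⁻¹) U := by
      apply U.antilipschitz_of_bound
      intro f
      rw [Real.coe_toNNReal _ (inv_nonneg.2 hc.le), inv_mul_eq_div, le_div_iff₀ hc, mul_comm]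
      exact hU f
    exact hanti.isClosed_range U.uniformContinuous
  exact ⟨LinearMap.range U.toLinearMap, hcl, ⟨(ContinuousLinearMap.equivRange hinj hcl).symm⟩⟩

/-- The theorem for spaces `Y` isometrically embedded into `JT*`. -/
theorem main' {Y : Type*} [NormedAddCommGroup Y] [NormedSpace ℝ Y] [CompleteSpace Y]
    (i : Y →ₗᵢ[ℝ] StrongDual ℝ (Completion (Pre Tree)))
    (hY : ¬ Function.Surjective (NormedSpace.inclusionInDoubleDual ℝ Y)) :
    ∃ Z : Submodule ℝ Y, IsClosed (Z : Set Y) ∧
      Nonempty (Z ≃L[ℝ] StrongDual ℝ (Completion (Pre ℕ))) := by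
  obtain ⟨T, hT1, c, hc, hT2⟩ := main (eT.toLinearIsometry.comp i) hY
  choose g hg using hT1
  have hinj : Function.Injective (eT.toLinearIsometry.comp i) := LinearIsometry.injective _
  let U : StrongDual ℝ (Completion (Pre ℕ)) →ₗ[ℝ] Y :=
    { toFun := fun f => g (eJ f)
      map_add' := by
        intro a b
        apply hinj
        rw [hg, map_add, map_add, map_add, hg, hg]
      map_smul' := by
        intro a b
        apply hinj
        rw [hg, map_smul, map_smul, RingHom.id_apply, map_smul, hg] }
  have hUn : ∀ f, ‖U f‖ = ‖T (eJ f)‖ := by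
    intro f
    rw [← (eT.toLinearIsometry.comp i).norm_map (U f)]
    exact congrArg norm (hg (eJ f))
  apply range_of_bound (U.mkContinuous ‖T‖ (fun f => by
    rw [hUn, ← eJ.norm_map f]
    exact T.le_opNorm _)) hc
  intro f
  have h1 : ‖(U.mkContinuous ‖T‖ (fun f => by
    rw [hUn, ← eJ.norm_map f]
    exact T.le_opNorm _)) f‖ = ‖T (eJ f)‖ := hUn f
  rw [h1, ← eJ.norm_map f]
  exact hT2 _

end Pool.Agent.R277.JT
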