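import Mathlib

/-!
# James type norms on ordered sets: definitions (helper file for MP_245e03_an)
-/

set_option autoImplicit false
set_option linter.unusedSectionVars false

open Set Filter Topology

namespace Pool.Agent.R277.JT

/-- A (finite) segment `{b | a ≤ b ≤ c}`, `a ≤ c`, of an ordered set. -/
def IsSeg {I : Type*} [PartialOrder I] (S : Finset I) : Prop :=
  ∃ a c, a ≤ c ∧ ∀ b, b ∈ S ↔ a ≤ b ∧ b ≤ c

/-- A finite family of pairwise disjoint segments. -/
def IsFam {I : Type*} [PartialOrder I] (P : Finset (Finset I)) : Prop :=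
  (∀ S ∈ P, IsSeg S) ∧ (P : Set (Finset I)).PairwiseDisjoint id

/-- The finitely supported real functions on an ordered set, to be normed by the James norm. -/
def Pre (I : Type*) [PartialOrder I] : Type _ := I →₀ ℝ

section core

variable {I : Type*} [PartialOrder I]

noncomputable instance : AddCommGroup (Pre I) := Finsupp.instAddCommGroup

noncomputable instance : Module ℝ (Pre I) := Finsupp.module I ℝ

/-- The value of a finitely supported function. -/
def Pre.val (x : Pre I) (i : I) : ℝ := (show I →₀ ℝ from x) i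

/-- The James norm: the supremum over the finite families `P` of pairwise disjoint segments of
`(∑ S ∈ P, (∑ i ∈ S, x i)²)^(1/2)`. -/
noncomputable instance : Norm (Pre I) :=
  ⟨fun x => ⨆ P : {P : Finset (Finset I) // IsFam P}, √(∑ S ∈ P.1, (∑ i ∈ S, x.val i) ^ 2)⟩

lemma val_add (x y : Pre I) (i : I) : (x + y).val i = x.val i + y.val i := rfl

lemma val_smul (c : ℝ) (x : Pre I) (i : I) : (c • x).val i = c * x.val i := rfl

lemma val_zero (i : I) : (0 : Pre I).val i = 0 := rfl

lemma ext_val {x y : Pre I} (h : ∀ i, x.val i = y.val i) : x = y := Finsupp.ext h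

/-- the sum of a function over a finite set -/
noncomputable def ss (S : Finset I) (x : Pre I) : ℝ := ∑ i ∈ S, x.val i

lemma ss_add (S : Finset I) (x y : Pre I) : ss S (x + y) = ss S x + ss S y := by
  simp [ss, val_add, Finset.sum_add_distrib]

lemma ss_smul (S : Finset I) (c : ℝ) (x : Pre I) : ss S (c • x) = c * ss S x := by
  simp [ss, val_smul, Finset.mul_sum]

lemma ss_zero (S : Finset I) : ss S (0 : Pre I) = 0 := by simp [ss, val_zero]

lemma ss_sum {ι : Type*} (S : Finset I) (s : Finset ι) (x : ι → Pre I) :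
    ss S (∑ i ∈ s, x i) = ∑ i ∈ s, ss S (x i) := by
  classical
  induction s using Finset.induction_on with
  | empty => simp [ss_zero]
  | insert a s ha ih => rw [Finset.sum_insert ha, Finset.sum_insert ha, ss_add, ih]

lemma ss_neg (S : Finset I) (x : Pre I) : ss S (-x) = - ss S x := by
  have := ss_smul S (-1) x
  simpa using this

lemma ss_sub (S : Finset I) (x y : Pre I) : ss S (x - y) = ss S x - ss S y := by
  rw [sub_eq_add_neg, ss_add, ss_neg, sub_eq_add_neg]

/-- crude bound -/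
noncomputable def mass (x : Pre I) : ℝ := ∑ i ∈ (show I →₀ ℝ from x).support, |x.val i|

lemma mass_nonneg (x : Pre I) : 0 ≤ mass x := Finset.sum_nonneg fun _ _ => abs_nonneg _

lemma fam_mass_abs (x : Pre I) {P : Finset (Finset I)} (hP : IsFam P) :
    ∑ S ∈ P, |ss S x| ≤ mass x := by
  classical
  have h2 : ∀ S : Finset I, |ss S x| ≤ ∑ i ∈ S, |x.val i| := fun S => Finset.abs_sum_le_sum_abs _ _
  calc ∑ S ∈ P, |ss S x| ≤ ∑ S ∈ P, ∑ i ∈ S, |x.val i| := Finset.sum_le_sum fun S _ => h2 S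
    _ = ∑ i ∈ P.biUnion id, |x.val i| := by
      rw [Finset.sum_biUnion hP.2]; rfl
    _ ≤ ∑ i ∈ P.biUnion id ∪ (show I →₀ ℝ from x).support, |x.val i| :=
      Finset.sum_le_sum_of_subset_of_nonneg Finset.subset_union_left fun _ _ _ => abs_nonneg _
    _ = mass x := by
      unfold mass
      symm
      apply Finset.sum_subset Finset.subset_union_right
      intro i _ hi
      rw [abs_eq_zero]
      exact Finsupp.notMem_support_iff.1 hi

lemma fam_mass (x : Pre I) {P : Finset (Finset I)} (hP : IsFam P) :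
    ∑ S ∈ P, (ss S x) ^ 2 ≤ mass x ^ 2 := by
  classical
  have h1 : ∑ S ∈ P, |ss S x| ≤ mass x := fam_mass_abs x hP
  have h3 : ∑ S ∈ P, (ss S x) ^ 2 ≤ (∑ S ∈ P, |ss S x|) ^ 2 := by
    have := Finset.sum_sq_le_sq_sum_of_nonneg (s := P) (f := fun S => |ss S x|) (fun S _ => abs_nonneg _)
    simpa [sq_abs] using this
  have h4 : 0 ≤ ∑ S ∈ P, |ss S x| := Finset.sum_nonneg fun _ _ => abs_nonneg _
  nlinarith [mass_nonneg x]

lemma bdd (x : Pre I) : BddAbove (range fun P : {P : Finset (Finset I) // IsFam P} =>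
    √(∑ S ∈ P.1, (∑ i ∈ S, x.val i) ^ 2)) := by
  refine ⟨mass x, ?_⟩
  rintro _ ⟨P, rfl⟩
  exact Real.sqrt_le_iff.2 ⟨mass_nonneg x, fam_mass x P.2⟩

lemma norm_nonneg' (x : Pre I) : 0 ≤ ‖x‖ := Real.iSup_nonneg fun _ => Real.sqrt_nonneg _

lemma fam_le (x : Pre I) {P : Finset (Finset I)} (hP : IsFam P) :
    ∑ S ∈ P, (ss S x) ^ 2 ≤ ‖x‖ ^ 2 := by
  have h1 : √(∑ S ∈ P, (ss S x) ^ 2) ≤ ‖x‖ := le_ciSup (bdd x) ⟨P, hP⟩
  exact (Real.sqrt_le_left (norm_nonneg' x)).1 h1

lemma norm_le_of {x : Pre I} {C : ℝ} (hC : 0 ≤ C)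
    (h : ∀ P : Finset (Finset I), IsFam P → ∑ S ∈ P, (ss S x) ^ 2 ≤ C ^ 2) : ‖x‖ ≤ C := by
  apply Real.iSup_le _ hC
  intro P
  exact Real.sqrt_le_iff.2 ⟨hC, h P.1 P.2⟩

lemma isSeg_singleton (i : I) : IsSeg ({i} : Finset I) :=
  ⟨i, i, le_rfl, fun b => by rw [Finset.mem_singleton]; exact ⟨fun h => h ▸ ⟨le_rfl, le_rfl⟩,
    fun h => le_antisymm h.2 h.1⟩⟩

lemma isFam_singleton {S : Finset I} (hS : IsSeg S) : IsFam ({S} : Finset (Finset I)) :=
  ⟨fun T hT => by rw [Finset.mem_singleton] at hT; rwa [hT], by simp⟩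

lemma seg_le (x : Pre I) {S : Finset I} (hS : IsSeg S) : |ss S x| ≤ ‖x‖ := by
  have h := fam_le x (isFam_singleton hS)
  rw [Finset.sum_singleton] at h
  exact abs_le_of_sq_le_sq h (norm_nonneg' x)

lemma val_le (x : Pre I) (i : I) : |x.val i| ≤ ‖x‖ := by
  have := seg_le x (isSeg_singleton i)
  simpa [ss] using this

lemma core : NormedSpace.Core ℝ (Pre I) where
  norm_nonneg := norm_nonneg'
  norm_smul := by
    intro c x
    have key : ∀ (c : ℝ) (x : Pre I), ‖c • x‖ ≤ ‖c‖ * ‖x‖ := by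
      intro c x
      apply norm_le_of (mul_nonneg (norm_nonneg c) (norm_nonneg' x))
      intro P hP
      have h := fam_le x hP
      calc ∑ S ∈ P, (ss S (c • x)) ^ 2 = c ^ 2 * ∑ S ∈ P, (ss S x) ^ 2 := by
            rw [Finset.mul_sum]
            exact Finset.sum_congr rfl fun S _ => by rw [ss_smul]; ring
        _ ≤ c ^ 2 * ‖x‖ ^ 2 := by gcongr
        _ = (‖c‖ * ‖x‖) ^ 2 := by rw [mul_pow, Real.norm_eq_abs, sq_abs]
    apply le_antisymm (key c x)
    by_cases hc : c = 0
    · rw [hc, norm_zero, zero_mul]; exact norm_nonneg' _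
    · have h := key c⁻¹ (c • x)
      rw [smul_smul, inv_mul_cancel₀ hc, one_smul, norm_inv] at h
      have hc' : 0 < ‖c‖ := norm_pos_iff.2 hc
      rwa [inv_mul_eq_div, le_div_iff₀ hc', mul_comm] at h
  norm_triangle := by
    intro x y
    apply norm_le_of (add_nonneg (norm_nonneg' x) (norm_nonneg' y))
    intro P hP
    have hx := fam_le x hP
    have hy := fam_le y hP
    have hx' : √(∑ S ∈ P, (ss S x) ^ 2) ≤ ‖x‖ := (Real.sqrt_le_left (norm_nonneg' x)).2 hx
    have hy' : √(∑ S ∈ P, (ss S y) ^ 2) ≤ ‖y‖ := (Real.sqrt_le_left (norm_nonneg' y)).2 hy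
    have hcs := Finset.sum_mul_sq_le_sq_mul_sq P (fun S => ss S x) (fun S => ss S y)
    have hcs' : ∑ S ∈ P, ss S x * ss S y ≤ ‖x‖ * ‖y‖ := by
      have h1 : (∑ S ∈ P, ss S x * ss S y) ^ 2 ≤ (‖x‖ * ‖y‖) ^ 2 := by
        refine hcs.trans ?_
        rw [mul_pow]
        exact mul_le_mul hx hy (Finset.sum_nonneg fun _ _ => sq_nonneg _) (sq_nonneg _)
      exact (abs_le_of_sq_le_sq h1 (mul_nonneg (norm_nonneg' x) (norm_nonneg' y))).trans' (le_abs_self _)
    calc ∑ S ∈ P, (ss S (x + y)) ^ 2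
        = ∑ S ∈ P, (ss S x) ^ 2 + 2 * ∑ S ∈ P, ss S x * ss S y + ∑ S ∈ P, (ss S y) ^ 2 := by
          rw [Finset.mul_sum, ← Finset.sum_add_distrib, ← Finset.sum_add_distrib]
          exact Finset.sum_congr rfl fun S _ => by rw [ss_add]; ring
      _ ≤ (‖x‖ + ‖y‖) ^ 2 := by nlinarith
  norm_eq_zero_iff := by
    intro x
    constructor
    · intro h
      apply ext_val
      intro i
      have := val_le x i
      rw [h] at this
      rw [val_zero]
      exact abs_nonpos_iff.1 this
    · rintro rfl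
      apply le_antisymm _ (norm_nonneg' _)
      apply norm_le_of le_rfl
      intro P _
      simp [ss_zero]

noncomputable instance : NormedAddCommGroup (Pre I) := NormedAddCommGroup.ofCore core

noncomputable instance : NormedSpace ℝ (Pre I) := NormedSpace.ofCore core

end core

/-- The dyadic tree: finite 0-1 sequences, ordered by extension. -/
def Tree : Type := List Bool

instance : PartialOrder Tree where
  le a b := (show List Bool from a) <+: (show List Bool from b)
  le_refl a := List.prefix_rfl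
  le_trans _ _ _ h1 h2 := List.IsPrefix.trans h1 h2
  le_antisymm _ _ h1 h2 :=
    List.IsPrefix.eq_of_length h1 (le_antisymm (List.IsPrefix.length_le h1) (List.IsPrefix.length_le h2))

end Pool.Agent.R277.JT
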