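import Pool.Agent.R277.JT.Basic

/-!
# Duals of James type spaces (helper file for MP_245e03_an)
-/

set_option autoImplicit false
set_option linter.unusedSectionVars false

open Set Filter Topology

namespace Pool.Agent.R277.JT

/-- A level function. -/
class Lev (I : Type*) [PartialOrder I] where
  lev : I → ℕ
  strict : ∀ a b : I, a < b → lev a < lev b
  fin : ∀ k : ℕ, {i : I | lev i < k}.Finite

export Lev (lev)

section dual

variable {I : Type*} [PartialOrder I] [Forest I]

/-- the dual space -/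
abbrev D (I : Type*) [PartialOrder I] := StrongDual ℝ (Pre I)

/-- restriction as a continuous linear map -/
noncomputable def res (A : Set I) [hA : A.OrdConnected] : Pre I →L[ℝ] Pre I :=
  (resL A).mkContinuous 1 (fun x => by simpa using norm_resL_le hA x)

lemma res_apply (A : Set I) [A.OrdConnected] (x : Pre I) : res A x = resL A x := rfl

open Classical in
lemma val_res (A : Set I) [A.OrdConnected] (x : Pre I) (i : I) :
    (res A x).val i = if i ∈ A then x.val i else 0 := val_resL A x i

lemma norm_res_le (A : Set I) [hA : A.OrdConnected] (x : Pre I) : ‖res A x‖ ≤ ‖x‖ := norm_resL_le hA x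

lemma res_res {A B : Set I} [A.OrdConnected] [B.OrdConnected] (h : B ⊆ A) (x : Pre I) :
    res A (res B x) = res B x := by
  apply ext_val
  intro i
  rw [val_res, val_res]
  by_cases hb : i ∈ B
  · rw [if_pos (h hb)]
  · rw [if_neg hb]; simp

lemma res_res' {A B : Set I} [A.OrdConnected] [B.OrdConnected] (h : B ⊆ A) (x : Pre I) :
    res B (res A x) = res B x := by
  apply ext_val
  intro i
  rw [val_res, val_res, val_res]
  by_cases hb : i ∈ B
  · rw [if_pos (h hb)]
  · rw [if_neg hb, if_neg hb]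

lemma res_of_supp {A : Set I} [A.OrdConnected] {x : Pre I} (h : ∀ i, i ∉ A → x.val i = 0) :
    res A x = x := by
  apply ext_val
  intro i
  rw [val_res]
  by_cases hb : i ∈ A
  · rw [if_pos hb]
  · rw [if_neg hb, h i hb]

/-- the functional `f` cut down to `A` -/
noncomputable def cut (f : D I) (A : Set I) [A.OrdConnected] : D I := f.comp (res A)

lemma cut_apply (f : D I) (A : Set I) [A.OrdConnected] (x : Pre I) : cut f A x = f (res A x) := rfl

lemma norm_cut_le (f : D I) (A : Set I) [A.OrdConnected] : ‖cut f A‖ ≤ ‖f‖ := by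
  apply ContinuousLinearMap.opNorm_le_bound _ (norm_nonneg _)
  intro x
  rw [cut_apply]
  exact (f.le_opNorm _).trans (mul_le_mul_of_nonneg_left (norm_res_le A x) (norm_nonneg _))

lemma cut_cut (f : D I) {A B : Set I} [A.OrdConnected] [B.OrdConnected] (h : B ⊆ A) :
    cut (cut f A) B = cut f B := by
  ext x
  rw [cut_apply, cut_apply, cut_apply, res_res h]

lemma cut_cut' (f : D I) {A B : Set I} [A.OrdConnected] [B.OrdConnected] (h : B ⊆ A) :
    cut (cut f B) A = cut f B := by
  ext x
  rw [cut_apply, cut_apply, cut_apply, res_res' h]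

lemma norm_cut_mono (f : D I) {A B : Set I} [A.OrdConnected] [B.OrdConnected] (h : B ⊆ A) :
    ‖cut f B‖ ≤ ‖cut f A‖ := by
  rw [← cut_cut f h]
  exact norm_cut_le _ _

lemma cut_add (f g : D I) (A : Set I) [A.OrdConnected] : cut (f + g) A = cut f A + cut g A := rfl

lemma cut_sub (f g : D I) (A : Set I) [A.OrdConnected] : cut (f - g) A = cut f A - cut g A := rfl

lemma cut_smul (c : ℝ) (f : D I) (A : Set I) [A.OrdConnected] : cut (c • f) A = c • cut f A := rfl

lemma cut_sum {ι : Type*} (s : Finset ι) (f : ι → D I) (A : Set I) [A.OrdConnected] :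
    cut (∑ i ∈ s, f i) A = ∑ i ∈ s, cut (f i) A := by
  ext x
  simp [cut_apply, _root_.sum_apply]

/-- Cauchy-Schwarz for functionals -/
lemma norm_le_of_sq {ι : Type*} (s : Finset ι) (g : D I) (b : ι → ℝ) (u : ι → Pre I → ℝ)
    (hg : ∀ x, |g x| ≤ ∑ i ∈ s, |b i| * |u i x|)
    (hu : ∀ x, ∑ i ∈ s, (u i x) ^ 2 ≤ ‖x‖ ^ 2) : ‖g‖ ≤ √(∑ i ∈ s, b i ^ 2) := by
  apply ContinuousLinearMap.opNorm_le_bound _ (Real.sqrt_nonneg _)
  intro x
  have h1 := Finset.sum_mul_sq_le_sq_mul_sq s (fun i => |b i|) (fun i => |u i x|)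
  simp only [sq_abs] at h1
  rw [Real.norm_eq_abs]
  apply (hg x).trans
  have h2 : (∑ i ∈ s, |b i| * |u i x|) ^ 2 ≤ (√(∑ i ∈ s, b i ^ 2) * ‖x‖) ^ 2 := by
    rw [mul_pow, Real.sq_sqrt (Finset.sum_nonneg fun _ _ => sq_nonneg _)]
    exact h1.trans (mul_le_mul_of_nonneg_left (hu x) (Finset.sum_nonneg fun _ _ => sq_nonneg _))
  exact (le_abs_self _).trans (abs_le_of_sq_le_sq h2 (by positivity))

/-- sums of functionals living on disjoint sets -/
lemma norm_sum_cut_le {ι : Type*} (s : Finset ι) (A : ι → Set I) [hA : ∀ i, (A i).OrdConnected]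
    (hd : ∀ i ∈ s, ∀ j ∈ s, i ≠ j → Disjoint (A i) (A j)) (f : ι → D I) {M : ℝ}
    (hM : ∀ i ∈ s, ‖f i‖ ≤ M) (b : ι → ℝ) :
    ‖∑ i ∈ s, b i • cut (f i) (A i)‖ ≤ √(∑ i ∈ s, (b i * M) ^ 2) := by
  apply norm_le_of_sq s _ (fun i => b i * M) (fun i x => ‖res (A i) x‖)
  · intro x
    rw [_root_.sum_apply]
    refine (Finset.abs_sum_le_sum_abs _ _).trans (Finset.sum_le_sum fun i hi => ?_)
    rw [_root_.smul_apply, smul_eq_mul, cut_apply, abs_mul, abs_mul, mul_assoc]
    apply mul_le_mul_of_nonneg_left _ (abs_nonneg _)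
    rw [abs_of_nonneg (norm_nonneg _)]
    have h1 := (f i).le_opNorm (res (A i) x)
    rw [Real.norm_eq_abs] at h1
    exact h1.trans (mul_le_mul_of_nonneg_right ((hM i hi).trans (le_abs_self _)) (norm_nonneg _))
  · intro x
    exact sum_sq_res s A (fun i _ => hA i) hd x

end dual

section levels

variable {I : Type*} [PartialOrder I] [Forest I] [Lev I]

lemma lev_mono {a b : I} (h : a ≤ b) : lev a ≤ lev b := by
  rcases h.eq_or_lt with h | h
  · rw [h]
  · exact (Lev.strict a b h).le

lemma eq_of_lev {a b : I} (h : a ≤ b) (h' : lev b ≤ lev a) : a = b := by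
  rcases h.eq_or_lt with h | h
  · exact h
  · exact absurd (Lev.strict a b h) (not_lt.2 h')

/-- the points of level at least `k` -/
def lv (I : Type*) [PartialOrder I] [Lev I] (k : ℕ) : Set I := {i | k ≤ lev i}

/-- the points of level less than `k` -/
def lo (I : Type*) [PartialOrder I] [Lev I] (k : ℕ) : Set I := {i | lev i < k}

/-- the points of level in `[k, l)` -/
def bl (I : Type*) [PartialOrder I] [Lev I] (k l : ℕ) : Set I := {i | k ≤ lev i ∧ lev i < l}

instance (k : ℕ) : (lv I k).OrdConnected := ⟨fun _ ha _ _ _ hx => le_trans ha (lev_mono hx.1)⟩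

instance (k : ℕ) : (lo I k).OrdConnected := ⟨fun _ _ _ hb _ hx => lt_of_le_of_lt (lev_mono hx.2) hb⟩

instance (k l : ℕ) : (bl I k l).OrdConnected :=
  ⟨fun _ ha _ hb _ hx => ⟨le_trans ha.1 (lev_mono hx.1), lt_of_le_of_lt (lev_mono hx.2) hb.2⟩⟩

lemma exists_lev (x : Pre I) : ∃ N, ∀ i, N ≤ lev i → x.val i = 0 := by
  classical
  refine ⟨(show I →₀ ℝ from x).support.sup lev + 1, fun i hi => ?_⟩
  by_contra hne
  have h1 : i ∈ (show I →₀ ℝ from x).support := Finsupp.mem_support_iff.2 hne
  have h2 : lev i ≤ (show I →₀ ℝ from x).support.sup lev := Finset.le_sup h1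
  omega

lemma res_lo_add (k : ℕ) (x : Pre I) : res (lo I k) x + res (lv I k) x = x := by
  apply ext_val
  intro i
  rw [val_add, val_res, val_res]
  by_cases h : k ≤ lev i
  · rw [if_neg (show i ∉ lo I k from fun h' : lev i < k => by omega), if_pos (show i ∈ lv I k from h), zero_add]
  · rw [if_pos (show i ∈ lo I k from not_le.1 h), if_neg (show i ∉ lv I k from h), add_zero]

lemma res_bl_add {k l : ℕ} (hkl : k ≤ l) (x : Pre I) :
    res (bl I k l) x + res (lv I l) x = res (lv I k) x := by
  apply ext_val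
  intro i
  rw [val_add, val_res, val_res, val_res]
  by_cases h : l ≤ lev i
  · rw [if_neg (show i ∉ bl I k l from fun h' : k ≤ lev i ∧ lev i < l => by omega), if_pos (show i ∈ lv I l from h),
      if_pos (show i ∈ lv I k from hkl.trans h), zero_add]
  · by_cases h2 : k ≤ lev i
    · rw [if_pos (show i ∈ bl I k l from ⟨h2, not_le.1 h⟩), if_neg (show i ∉ lv I l from h),
        if_pos (show i ∈ lv I k from h2), add_zero]
    · rw [if_neg (show i ∉ bl I k l from fun h' : k ≤ lev i ∧ lev i < l => h2 h'.1), if_neg (show i ∉ lv I l from h),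
        if_neg (show i ∉ lv I k from h2), add_zero]

lemma cut_lo_add (f : D I) (k : ℕ) : cut f (lo I k) + cut f (lv I k) = f := by
  ext x
  rw [_root_.add_apply, cut_apply, cut_apply, ← map_add, res_lo_add]

lemma cut_bl_add (f : D I) {k l : ℕ} (hkl : k ≤ l) :
    cut f (bl I k l) + cut f (lv I l) = cut f (lv I k) := by
  ext x
  rw [_root_.add_apply, cut_apply, cut_apply, ← map_add, res_bl_add hkl, ← cut_apply]

/-- pointwise small functionals are small on low levels -/
lemma cut_lo_small {ι : Type*} {l : Filter ι} (z : ι → D I)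
    (hz : ∀ i : I, Tendsto (fun n => z n (ev i)) l (𝓝 0)) (k : ℕ) :
    Tendsto (fun n => ‖cut (z n) (lo I k)‖) l (𝓝 0) := by
  classical
  have hfin := Lev.fin (I := I) k
  have hb : ∀ n, ‖cut (z n) (lo I k)‖ ≤ ∑ i ∈ hfin.toFinset, |z n (ev i)| := by
    intro n
    apply ContinuousLinearMap.opNorm_le_bound _ (Finset.sum_nonneg fun _ _ => abs_nonneg _)
    intro x
    have h1 : res (lo I k) x = ∑ i ∈ hfin.toFinset, x.val i • ev i := by
      apply ext_val
      intro j
      rw [val_res]
      have h2 : (∑ i ∈ hfin.toFinset, x.val i • ev i).val j =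
          ∑ i ∈ hfin.toFinset, x.val i * (ev i : Pre I).val j := by
        have h3 := ss_sum {j} hfin.toFinset (fun i => x.val i • (ev i : Pre I))
        simpa [ss, val_smul] using h3
      rw [h2]
      simp only [val_ev, mul_ite, mul_one, mul_zero]
      rw [Finset.sum_ite_eq']
      simp only [Set.Finite.mem_toFinset]
      congr 1
    rw [cut_apply, h1, map_sum, Real.norm_eq_abs, Finset.sum_mul]
    refine (Finset.abs_sum_le_sum_abs _ _).trans (Finset.sum_le_sum fun i _ => ?_)
    rw [map_smul, smul_eq_mul, abs_mul, mul_comm]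
    exact mul_le_mul_of_nonneg_left (val_le x i) (abs_nonneg _)
  apply squeeze_zero (fun n => norm_nonneg _) hb
  have h0 : (0:ℝ) = ∑ i ∈ hfin.toFinset, |(0:ℝ)| := by simp
  rw [h0]
  exact tendsto_finsetSum _ fun i _ => (hz i).abs

end levels

end Pool.Agent.R277.JT
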