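import Pool.Agent.R277.JT.Struct

/-!
# Extraction of well structured subsequences (helper file for MP_245e03_an)
-/

set_option autoImplicit false
set_option linter.unusedSectionVars false

open Set Filter Topology

namespace Pool.Agent.R277.JT

/-- The data of a well structured sequence of functionals. -/
structure Ext (z : ℕ → D Tree) (v : (ℕ → Bool) → ℝ) (c0 : ℕ → Bool) (ε : ℕ → ℝ)
    (κ : ℕ → ℕ) (F : ℕ → Finset (ℕ → Bool)) : Prop where
  κm : StrictMono κ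
  Fm : Monotone F
  c0m : c0 ∈ F 0
  sep : ∀ j, Sep (F j) (κ j)
  low : ∀ j, ‖cut (z j) (lo Tree (κ j + 1))‖ ≤ ε j
  lim : ∀ j, ∑ c ∈ F j, |Lm (br c) (z j) - v c| ≤ ε j
  high : ∀ j, ‖cut (z j) (lv Tree (κ (j + 1))) -
    ∑ c ∈ F (j + 1), Lm (br c) (z j) • sg (br c) (κ (j + 1))‖ ≤ ε j

theorem extract {z : ℕ → D Tree} {v : (ℕ → Bool) → ℝ}
    (hz : ∀ i, Tendsto (fun n => z n (ev i)) atTop (𝓝 0))
    (hv : ∀ c, Tendsto (fun n => Lm (br c) (z n)) atTop (𝓝 (v c)))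
    (c0 : ℕ → Bool) {ε : ℕ → ℝ} (hε : ∀ j, 0 < ε j) :
    ∃ (φ κ : ℕ → ℕ) (F : ℕ → Finset (ℕ → Bool)), StrictMono φ ∧
      Ext (fun j => z (φ j)) v c0 ε κ F := by
  classical
  have hstep : ∀ (j : ℕ) (s : ℕ × Finset (ℕ → Bool) × ℕ), ∃ s' : ℕ × Finset (ℕ → Bool) × ℕ,
      s.1 < s'.1 ∧ s.2.1 ⊆ s'.2.1 ∧ s.2.2 < s'.2.2 ∧ Sep s'.2.1 s'.1 ∧
      ‖cut (z s'.2.2) (lo Tree (s.1 + 1))‖ ≤ ε j ∧
      ∑ c ∈ s.2.1, |Lm (br c) (z s'.2.2) - v c| ≤ ε j ∧
      ‖cut (z s'.2.2) (lv Tree s'.1) - ∑ c ∈ s'.2.1, Lm (br c) (z s'.2.2) • sg (br c) s'.1‖ ≤ ε j := by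
    rintro j ⟨k, F, n⟩
    have h1 := (cut_lo_small z hz (k + 1)).eventually_le_const (hε j)
    have h2 : Tendsto (fun n => ∑ c ∈ F, |Lm (br c) (z n) - v c|) atTop (𝓝 0) := by
      have h0 : (0:ℝ) = ∑ c ∈ F, |v c - v c| := by simp
      rw [h0]
      exact tendsto_finsetSum _ fun c _ => ((hv c).sub_const _).abs
    obtain ⟨n', hn1, hn2, hn3⟩ :=
      (h1.and ((h2.eventually_le_const (hε j)).and (eventually_gt_atTop n))).exists
    obtain ⟨F0, hF0⟩ := structA (z n') (hε j)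
    obtain ⟨k0, hk0⟩ := hF0 (F ∪ F0) Finset.subset_union_right
    obtain ⟨k1, hk1⟩ := exists_sep (F ∪ F0)
    refine ⟨⟨max (k + 1) (max k0 k1), F ∪ F0, n'⟩, ?_, Finset.subset_union_left, hn3,
      hk1.mono ((le_max_right _ _).trans (le_max_right _ _)), hn1, hn2,
      hk0 _ ((le_max_left _ _).trans (le_max_right _ _))⟩
    exact lt_of_lt_of_le (Nat.lt_succ_self k) (le_max_left _ _)
  choose nx h1 h2 h3 h4 h5 h6 h7 using hstep
  let S : ℕ → ℕ × Finset (ℕ → Bool) × ℕ := fun j => Nat.rec (0, {c0}, 0) (fun j s => nx j s) j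
  have hS : ∀ j, S (j + 1) = nx j (S j) := fun j => rfl
  have hS0 : S 0 = (0, {c0}, 0) := rfl
  refine ⟨fun j => (S (j + 1)).2.2, fun j => (S j).1, fun j => (S j).2.1, ?_, ?_, ?_, ?_, ?_, ?_, ?_, ?_⟩
  · exact strictMono_nat_of_lt_succ fun j => by
      rw [hS (j + 1)]; exact h3 _ _
  · exact strictMono_nat_of_lt_succ fun j => by
      rw [hS j]; exact h1 _ _
  · exact monotone_nat_of_le_succ fun j => by
      rw [hS j]; exact h2 _ _
  · rw [hS0]; simp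
  · intro j
    cases j with
    | zero =>
      rw [hS0]
      intro c hc d hd hcd
      rw [Finset.mem_singleton] at hc hd
      exact absurd (hc.trans hd.symm) hcd
    | succ j => rw [hS j]; exact h4 _ _
  · intro j; simp only [hS j]; exact h5 _ _
  · intro j; simp only [hS j]; exact h6 _ _
  · intro j; simp only [hS j]; exact h7 _ _

section ext

variable {z : ℕ → D Tree} {v : (ℕ → Bool) → ℝ} {c0 : ℕ → Bool} {ε : ℕ → ℝ}
  {κ : ℕ → ℕ} {F : ℕ → Finset (ℕ → Bool)}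

open Classical in
/-- new branches -/
lemma norm_new_le (h : Ext z v c0 ε κ F) (s : Finset ℕ) (w : ℕ → (ℕ → Bool) → ℝ) (l : ℕ → ℕ)
    (hl : ∀ j, κ (j + 1) ≤ l j) :
    ‖∑ j ∈ s, ∑ c ∈ F (j + 1) \ F j, w j c • sg (br c) (l j)‖ ≤
      √(∑ j ∈ s, ∑ c ∈ F (j + 1) \ F j, (w j c) ^ 2) := by
  rw [Finset.sum_sigma', Finset.sum_sigma']
  apply norm_sum_tails_le (s.sigma fun j => F (j + 1) \ F j) (fun p => br p.2) (fun p => l p.1) _
    (fun p => w p.1 p.2)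
  have key : ∀ i j : ℕ, i < j → ∀ c ∈ F (j + 1) \ F j, ∀ d ∈ F (i + 1) \ F i, ∀ n, l j ≤ n →
      br c n ≠ br d n := by
    intro i j hij c hc d hd n hn
    rw [Finset.mem_sdiff] at hc hd
    have hd' : d ∈ F j := h.Fm hij hd.1
    have hcd : c ≠ d := fun h => hc.2 (h ▸ hd')
    exact ((h.sep (j + 1)).mono ((hl j).trans hn)) c hc.1 d (h.Fm (Nat.le_succ j) hd') hcd
  rintro ⟨i, c⟩ hc ⟨j, d⟩ hd hne n hn1 hn2
  rw [Finset.mem_sigma] at hc hd
  rcases lt_trichotomy i j with hij | hij | hij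
  · exact (key i j hij d hd.2 c hc.2 n hn2).symm
  · subst hij
    have hcd : c ≠ d := fun h => hne (by rw [h])
    exact ((h.sep (i + 1)).mono ((hl i).trans hn1)) c (Finset.mem_sdiff.1 hc.2).1 d
      (Finset.mem_sdiff.1 hd.2).1 hcd
  · exact key j i hij c hc.2 d hd.2 n hn1

/-- the limit part -/
noncomputable def Vp (v : (ℕ → Bool) → ℝ) (κ : ℕ → ℕ) (F : ℕ → Finset (ℕ → Bool)) (j : ℕ) : D Tree :=
  ∑ c ∈ F j, v c • sg (br c) (κ (j + 1))

open Classical in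
lemma ext_err (h : Ext z v c0 ε κ F) (j : ℕ) :
    ‖z j - Vp v κ F j - cut (z j) (bl Tree (κ j + 1) (κ (j + 1))) -
      ∑ c ∈ F (j + 1) \ F j, Lm (br c) (z j) • sg (br c) (κ (j + 1))‖ ≤ 3 * ε j := by
  have e1 : z j - Vp v κ F j - cut (z j) (bl Tree (κ j + 1) (κ (j + 1))) -
      ∑ c ∈ F (j + 1) \ F j, Lm (br c) (z j) • sg (br c) (κ (j + 1)) =
      cut (z j) (lo Tree (κ j + 1)) + (cut (z j) (lv Tree (κ (j + 1))) -
        ∑ c ∈ F (j + 1), Lm (br c) (z j) • sg (br c) (κ (j + 1))) +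
        ∑ c ∈ F j, (Lm (br c) (z j) - v c) • sg (br c) (κ (j + 1)) := by
    have h1 := cut_lo_add (z j) (κ j + 1)
    have h2 := cut_bl_add (z j) (k := κ j + 1) (l := κ (j + 1)) (h.κm (Nat.lt_succ_self j))
    have h3 : ∑ c ∈ F (j + 1), Lm (br c) (z j) • sg (br c) (κ (j + 1)) =
        ∑ c ∈ F (j + 1) \ F j, Lm (br c) (z j) • sg (br c) (κ (j + 1)) +
        ∑ c ∈ F j, Lm (br c) (z j) • sg (br c) (κ (j + 1)) :=
      (Finset.sum_sdiff (h.Fm (Nat.le_succ j))).symm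
    have h4 : ∑ c ∈ F j, (Lm (br c) (z j) - v c) • sg (br c) (κ (j + 1)) =
        ∑ c ∈ F j, Lm (br c) (z j) • sg (br c) (κ (j + 1)) - Vp v κ F j := by
      unfold Vp
      rw [← Finset.sum_sub_distrib]
      exact Finset.sum_congr rfl fun c _ => by
        ext x
        simp only [_root_.sub_apply, _root_.smul_apply, smul_eq_mul]
        ring
    rw [h4, h3]
    nth_rewrite 1 [← h1]
    rw [← h2]
    abel
  rw [e1]
  have n1 := h.low j
  have n2 := h.high j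
  have n3 : ‖∑ c ∈ F j, (Lm (br c) (z j) - v c) • sg (br c) (κ (j + 1))‖ ≤ ε j := by
    refine (norm_sum_le _ _).trans (le_trans (Finset.sum_le_sum fun c _ => ?_) (h.lim j))
    rw [norm_smul, Real.norm_eq_abs]
    apply mul_le_of_le_one_right (abs_nonneg _)
    apply ContinuousLinearMap.opNorm_le_bound _ zero_le_one
    intro x
    rw [one_mul]
    exact abs_sg_le _ x
  have n4 := norm_add_le (cut (z j) (lo Tree (κ j + 1)) + (cut (z j) (lv Tree (κ (j + 1))) -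
        ∑ c ∈ F (j + 1), Lm (br c) (z j) • sg (br c) (κ (j + 1))))
        (∑ c ∈ F j, (Lm (br c) (z j) - v c) • sg (br c) (κ (j + 1)))
  have n5 := norm_add_le (cut (z j) (lo Tree (κ j + 1))) (cut (z j) (lv Tree (κ (j + 1))) -
        ∑ c ∈ F (j + 1), Lm (br c) (z j) • sg (br c) (κ (j + 1)))
  linarith

/-- the part without limit is dominated by `ℓ₂` -/
lemma ext_sum_le (h : Ext z v c0 ε κ F) {M : ℝ} (hM : ∀ j, ‖z j‖ ≤ M) (s : Finset ℕ) (b : ℕ → ℝ) :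
    ‖∑ j ∈ s, b j • (z j - Vp v κ F j)‖ ≤
      ∑ j ∈ s, |b j| * (3 * ε j) + 2 * √(∑ j ∈ s, (b j * M) ^ 2) := by
  classical
  have hM0 : 0 ≤ M := (norm_nonneg _).trans (hM 0)
  let E : ℕ → D Tree := fun j => z j - Vp v κ F j - cut (z j) (bl Tree (κ j + 1) (κ (j + 1))) -
      ∑ c ∈ F (j + 1) \ F j, Lm (br c) (z j) • sg (br c) (κ (j + 1))
  have e1 : ∑ j ∈ s, b j • (z j - Vp v κ F j) = ∑ j ∈ s, b j • E j +
      ∑ j ∈ s, b j • cut (z j) (bl Tree (κ j + 1) (κ (j + 1))) +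
      ∑ j ∈ s, ∑ c ∈ F (j + 1) \ F j, (b j * Lm (br c) (z j)) • sg (br c) (κ (j + 1)) := by
    rw [← Finset.sum_add_distrib, ← Finset.sum_add_distrib]
    apply Finset.sum_congr rfl
    intro j _
    have : ∑ c ∈ F (j + 1) \ F j, (b j * Lm (br c) (z j)) • sg (br c) (κ (j + 1)) =
        b j • ∑ c ∈ F (j + 1) \ F j, Lm (br c) (z j) • sg (br c) (κ (j + 1)) := by
      rw [Finset.smul_sum]
      exact Finset.sum_congr rfl fun c _ => by rw [smul_smul]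
    rw [this, ← smul_add, ← smul_add]
    congr 1
    simp only [E]
    abel
  rw [e1]
  have n1 : ‖∑ j ∈ s, b j • E j‖ ≤ ∑ j ∈ s, |b j| * (3 * ε j) := by
    refine (norm_sum_le _ _).trans (Finset.sum_le_sum fun j _ => ?_)
    rw [norm_smul, Real.norm_eq_abs]
    exact mul_le_mul_of_nonneg_left (ext_err h j) (abs_nonneg _)
  have n2 : ‖∑ j ∈ s, b j • cut (z j) (bl Tree (κ j + 1) (κ (j + 1)))‖ ≤
      √(∑ j ∈ s, (b j * M) ^ 2) := by
    apply norm_sum_cut_le s (fun j => bl Tree (κ j + 1) (κ (j + 1))) _ z (fun j _ => hM j) b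
    have key : ∀ i j : ℕ, i < j → Disjoint (bl Tree (κ i + 1) (κ (i + 1))) (bl Tree (κ j + 1) (κ (j + 1))) := by
      intro i j hij
      rw [Set.disjoint_left]
      rintro a ⟨_, ha1⟩ ⟨ha2, _⟩
      have := h.κm.monotone (show i + 1 ≤ j from hij)
      omega
    intro i _ j _ hij
    rcases lt_or_gt_of_ne hij with h' | h'
    · exact key i j h'
    · exact (key j i h').symm
  have n3 : ‖∑ j ∈ s, ∑ c ∈ F (j + 1) \ F j, (b j * Lm (br c) (z j)) • sg (br c) (κ (j + 1))‖ ≤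
      √(∑ j ∈ s, (b j * M) ^ 2) := by
    refine (norm_new_le h s (fun j c => b j * Lm (br c) (z j)) (fun j => κ (j + 1))
      (fun j => le_rfl)).trans ?_
    apply Real.sqrt_le_sqrt
    apply Finset.sum_le_sum
    intro j _
    simp_rw [mul_pow]
    rw [← Finset.mul_sum]
    apply mul_le_mul_of_nonneg_left _ (sq_nonneg _)
    exact (sum_Lm_sq (z j) _).trans (pow_le_pow_left₀ (norm_nonneg _) (hM j) 2)
  have n4 := norm_add_le (∑ j ∈ s, b j • E j +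
      ∑ j ∈ s, b j • cut (z j) (bl Tree (κ j + 1) (κ (j + 1))))
      (∑ j ∈ s, ∑ c ∈ F (j + 1) \ F j, (b j * Lm (br c) (z j)) • sg (br c) (κ (j + 1)))
  have n5 := norm_add_le (∑ j ∈ s, b j • E j)
      (∑ j ∈ s, b j • cut (z j) (bl Tree (κ j + 1) (κ (j + 1))))
  linarith

end ext

end Pool.Agent.R277.JT
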