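import Pool.Agent.R277.JT.Upper

/-!
# The lower estimate (helper file for MP_245e03_an)
-/

set_option autoImplicit false
set_option linter.unusedSectionVars false

open Set Filter Topology

namespace Pool.Agent.R277.JT

section gen

variable {I : Type*} [PartialOrder I]

lemma expand (x : Pre I) : x = ∑ i ∈ (show I →₀ ℝ from x).support, x.val i • ev i := by
  classical
  apply ext_val
  intro j
  rw [val_sum]
  simp_rw [val_smul, val_ev, mul_ite, mul_one, mul_zero]
  rw [Finset.sum_ite_eq']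
  split_ifs with h
  · rfl
  · exact Finsupp.notMem_support_iff.1 h

lemma D_ext {f g : D I} (h : ∀ i, f (ev i) = g (ev i)) : f = g := by
  ext x
  rw [expand x, map_sum, map_sum]
  exact Finset.sum_congr rfl fun i _ => by rw [map_smul, map_smul, h]

/-- push-forward of sequences -/
noncomputable def pushL (g : ℕ → I) : Pre ℕ →ₗ[ℝ] Pre I :=
  (show (ℕ →₀ ℝ) →ₗ[ℝ] (I →₀ ℝ) from Finsupp.lmapDomain ℝ ℝ g)

lemma pushL_val {g : ℕ → I} (hg : Function.Injective g) (x : Pre ℕ) (l : ℕ) :
    (pushL g x).val (g l) = x.val l := Finsupp.mapDomain_apply hg _ _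

lemma pushL_val_not {g : ℕ → I} (x : Pre ℕ) {i : I} (hi : i ∉ range g) :
    (pushL g x).val i = 0 := Finsupp.mapDomain_of_notMem_range _ _ hi

lemma pushL_ev (g : ℕ → I) (l : ℕ) : pushL g (ev l) = ev (g l) := by
  change Finsupp.mapDomain g (Finsupp.single l (1:ℝ)) = Finsupp.single (g l) (1:ℝ)
  exact Finsupp.mapDomain_single

lemma isSeg_nat {T : Finset ℕ} (hne : T.Nonempty) (h : ∀ a ∈ T, ∀ b ∈ T, ∀ c, a ≤ c → c ≤ b → c ∈ T) :
    IsSeg T := by
  refine ⟨T.min' hne, T.max' hne, T.min'_le_max' hne, fun b => ⟨fun hb => ⟨T.min'_le b hb, T.le_max' b hb⟩, ?_⟩⟩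
  rintro ⟨h1, h2⟩
  exact h _ (T.min'_mem hne) _ (T.max'_mem hne) b h1 h2

lemma norm_pushL_le {g : ℕ → I} (hg : StrictMono g) (x : Pre ℕ) : ‖pushL g x‖ ≤ ‖x‖ := by
  classical
  have h := sum_sq_abs ({()} : Finset Unit) (fun _ => pushL g x) x
    (fun _ S => S.preimage g hg.injective.injOn) ?_ ?_ ?_ ?_
  · rw [Finset.sum_singleton] at h
    exact le_of_sq_le_sq h (norm_nonneg x)
  · rintro - - S ⟨a, c, hac, hm⟩ hne
    apply isSeg_nat hne
    intro p hp q hq r h1 h2
    rw [Finset.mem_preimage, hm] at hp hq ⊢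
    exact ⟨hp.1.trans (hg.monotone h1), (hg.monotone h2).trans hq.2⟩
  · rintro - - S -
    unfold ss
    rw [← Finset.sum_preimage g S hg.injective.injOn]
    · exact Finset.sum_congr rfl fun l _ => pushL_val hg.injective x l
    · intro i _ hi
      exact pushL_val_not x hi
  · rintro - - S S' - - hdis
    rw [Finset.disjoint_left] at hdis ⊢
    intro l h1 h2
    rw [Finset.mem_preimage] at h1 h2
    exact hdis h1 h2
  · rintro i - j - hij
    exact absurd rfl hij

/-- push-forward as a continuous linear map -/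
noncomputable def push (g : ℕ → I) (hg : StrictMono g) : Pre ℕ →L[ℝ] Pre I :=
  (pushL g).mkContinuous 1 (fun x => by rw [one_mul]; exact norm_pushL_le hg x)

lemma push_ev (g : ℕ → I) (hg : StrictMono g) (l : ℕ) : push g hg (ev l) = ev (g l) := pushL_ev g l

lemma norm_push_le (g : ℕ → I) (hg : StrictMono g) (x : Pre ℕ) : ‖push g hg x‖ ≤ ‖x‖ :=
  norm_pushL_le hg x

lemma norm_comp_push_le (g : ℕ → I) (hg : StrictMono g) (f : D I) : ‖f.comp (push g hg)‖ ≤ ‖f‖ := by
  apply ContinuousLinearMap.opNorm_le_bound _ (norm_nonneg _)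
  intro x
  exact (f.le_opNorm _).trans (mul_le_mul_of_nonneg_left (norm_push_le g hg x) (norm_nonneg _))

end gen

lemma cut_ev_not {I : Type*} [PartialOrder I] [Forest I] [Lev I] (f : D I) {A : Set I} [A.OrdConnected] {i : I}
    (hi : i ∉ A) : cut f A (ev i) = 0 := by
  classical
  have h1 : res A (ev i) = 0 := by
    apply ext_val
    intro j
    rw [val_res, val_zero]
    split_ifs with h
    · exact val_ev_ne (fun hij => hi (hij ▸ h))
    · rfl
  rw [cut_apply, h1, map_zero]

lemma cut_ev {I : Type*} [PartialOrder I] [Forest I] [Lev I] (f : D I) {A : Set I} [A.OrdConnected] {i : I}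
    (hi : i ∈ A) : cut f A (ev i) = f (ev i) := by
  classical
  have h1 : res A (ev i) = ev i := by
    apply res_of_supp
    intro j hj
    exact val_ev_ne (fun hij => hj (hij ▸ hi))
  rw [cut_apply, h1]

lemma sg_idn (j l : ℕ) : sg idn j (ev l) = if j ≤ l then 1 else 0 := by
  classical
  rw [sg_ev]
  have : (l ∈ tail idn j) ↔ j ≤ l := ⟨fun h => h.1, fun h => ⟨h, rfl⟩⟩
  by_cases h : j ≤ l
  · rw [if_pos h, if_pos (this.2 h)]
  · rw [if_neg h, if_neg (fun h' => h (this.1 h'))]

section ext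

variable {z : ℕ → D Tree} {v : (ℕ → Bool) → ℝ} {c0 : ℕ → Bool} {ε : ℕ → ℝ}
  {κ : ℕ → ℕ} {F : ℕ → Finset (ℕ → Bool)}

lemma gmono (c0 : ℕ → Bool) (hκ : StrictMono κ) : StrictMono (fun l => br c0 (κ (l + 1))) := by
  apply strictMono_nat_of_lt_succ
  intro l
  apply lt_of_le_of_ne
  · exact IsBr.mono (hκ.monotone (by omega))
  · intro h
    have := IsBr.inj (br c0) h
    have h2 := hκ (show l + 1 < l + 1 + 1 by omega)
    omega

lemma norm_sg_le {I : Type*} [PartialOrder I] [Forest I] [Lev I] (σ : ℕ → I) [IsBr σ] (k : ℕ) :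
    ‖sg σ k‖ ≤ 1 := by
  apply ContinuousLinearMap.opNorm_le_bound _ zero_le_one
  intro x
  rw [one_mul]
  exact abs_sg_le _ x

lemma err_push (h : Ext z v c0 ε κ F) (j : ℕ) :
    ‖(z j).comp (push _ (gmono c0 h.κm)) - v c0 • sg idn j‖ ≤ 3 * ε j := by
  classical
  have hkm := h.κm.monotone
  set P := push _ (gmono c0 h.κm) with hP
  have hPn : ∀ f : D Tree, ‖f.comp P‖ ≤ ‖f‖ := fun f => norm_comp_push_le _ _ f
  have h1 : (cut (z j) (bl Tree (κ j + 1) (κ (j + 1)))).comp P = 0 := by
    apply D_ext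
    intro l
    rw [ContinuousLinearMap.comp_apply, hP, push_ev, cut_ev_not]
    · rfl
    · rintro ⟨h2, h3⟩
      rw [IsBr.lev_eq] at h2 h3
      have h4 : j < l + 1 := h.κm.lt_iff_lt.1 h2
      have h5 : l + 1 < j + 1 := h.κm.lt_iff_lt.1 h3
      omega
  have h2 : ∀ c ∈ F (j + 1), c ≠ c0 → (sg (br c) (κ (j + 1))).comp P = 0 := by
    intro c hc hcc
    apply D_ext
    intro l
    rw [ContinuousLinearMap.comp_apply, hP, push_ev]
    by_cases h3 : κ (l + 1) < κ (j + 1)
    · rw [sg_ev_lt h3]; rfl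
    · rw [sg_ev_br_ne]
      · rfl
      · exact ((h.sep (j + 1)).mono (not_lt.1 h3)) c hc c0 (h.Fm (Nat.zero_le _) h.c0m) hcc
  have h3 : (sg (br c0) (κ (j + 1))).comp P = sg idn j := by
    apply D_ext
    intro l
    rw [ContinuousLinearMap.comp_apply, hP, push_ev, sg_idn]
    by_cases h4 : j ≤ l
    · rw [if_pos h4, sg_ev_br (hkm (by omega)) rfl]
    · rw [if_neg h4, sg_ev_lt (h.κm (by omega))]
  have e1 : (z j).comp P - v c0 • sg idn j = (cut (z j) (lo Tree (κ j + 1))).comp P +
      (cut (z j) (lv Tree (κ (j + 1))) -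
        ∑ c ∈ F (j + 1), Lm (br c) (z j) • sg (br c) (κ (j + 1))).comp P +
      (Lm (br c0) (z j) - v c0) • sg idn j := by
    have h4 : (∑ c ∈ F (j + 1), Lm (br c) (z j) • sg (br c) (κ (j + 1))).comp P =
        Lm (br c0) (z j) • sg idn j := by
      rw [← h3]
      ext x
      rw [ContinuousLinearMap.comp_apply, _root_.sum_apply,
        Finset.sum_eq_single_of_mem c0 (h.Fm (Nat.zero_le _) h.c0m)]
      · rfl
      · intro c hc hcc
        have := DFunLike.congr_fun (h2 c hc hcc) x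
        rw [ContinuousLinearMap.comp_apply] at this
        rw [_root_.smul_apply, this]
        simp
    have h5 : (z j).comp P = (cut (z j) (lo Tree (κ j + 1))).comp P +
        (cut (z j) (lv Tree (κ (j + 1)))).comp P := by
      have h6 : z j = cut (z j) (lo Tree (κ j + 1)) +
          (cut (z j) (bl Tree (κ j + 1) (κ (j + 1))) + cut (z j) (lv Tree (κ (j + 1)))) := by
        rw [cut_bl_add (z j) (k := κ j + 1) (l := κ (j + 1)) (h.κm (Nat.lt_succ_self j)), cut_lo_add]
      nth_rewrite 1 [h6]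
      rw [ContinuousLinearMap.add_comp, ContinuousLinearMap.add_comp, h1, zero_add]
    rw [h5, ContinuousLinearMap.sub_comp, h4]
    ext x
    simp only [_root_.sub_apply, _root_.add_apply, _root_.smul_apply, smul_eq_mul]
    ring
  rw [e1]
  have n1 := (hPn _).trans (h.low j)
  have n2 := (hPn _).trans (h.high j)
  have n3 : ‖(Lm (br c0) (z j) - v c0) • sg idn j‖ ≤ ε j := by
    have h4 : |Lm (br c0) (z j) - v c0| ≤ ε j :=
      (Finset.single_le_sum (f := fun c => |Lm (br c) (z j) - v c|) (fun _ _ => abs_nonneg _)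
        (h.Fm (Nat.zero_le j) h.c0m)).trans (h.lim j)
    rw [norm_smul, Real.norm_eq_abs]
    exact (mul_le_of_le_one_right (abs_nonneg _) (norm_sg_le _ _)).trans h4
  have n4 := norm_add_le ((cut (z j) (lo Tree (κ j + 1))).comp P +
      (cut (z j) (lv Tree (κ (j + 1))) -
        ∑ c ∈ F (j + 1), Lm (br c) (z j) • sg (br c) (κ (j + 1))).comp P)
      ((Lm (br c0) (z j) - v c0) • sg idn j)
  have n5 := norm_add_le ((cut (z j) (lo Tree (κ j + 1))).comp P)
      ((cut (z j) (lv Tree (κ (j + 1))) -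
        ∑ c ∈ F (j + 1), Lm (br c) (z j) • sg (br c) (κ (j + 1))).comp P)
  linarith

/-- the lower estimate -/
theorem lower (h : Ext z v c0 ε κ F) {A : ℝ} (hε : ∀ j, 0 ≤ ε j)
    (hA : ∀ n, ∑ j ∈ Finset.range n, ε j ≤ A) (φ : D ℕ) {n : ℕ} (hn : ∀ j, n ≤ j → φ (ev j) = 0) :
    (|v c0| - 6 * A) * ‖φ‖ ≤ ‖∑ j ∈ Finset.range n, φ (ev j) • (z j - z (j + 1))‖ := by
  classical
  set P := push _ (gmono c0 h.κm) with hP
  set G := ∑ j ∈ Finset.range n, φ (ev j) • (z j - z (j + 1)) with hG
  have e1 : v c0 • φ = ∑ j ∈ Finset.range n, φ (ev j) • (v c0 • sg idn j - v c0 • sg idn (j + 1)) := by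
    apply D_ext
    intro l
    rw [_root_.smul_apply, _root_.sum_apply]
    have h1 : ∀ j ∈ Finset.range n, (φ (ev j) • (v c0 • sg idn j - v c0 • sg idn (j + 1))) (ev l) =
        if j = l then φ (ev j) * v c0 else 0 := by
      intro j _
      rw [_root_.smul_apply, _root_.sub_apply, _root_.smul_apply, _root_.smul_apply, sg_idn, sg_idn]
      simp only [smul_eq_mul]
      rcases lt_trichotomy j l with h2 | h2 | h2
      · rw [if_pos h2.le, if_pos (by omega), if_neg (by omega)]; ring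
      · subst h2
        rw [if_pos le_rfl, if_neg (by omega), if_pos rfl]; ring
      · rw [if_neg (by omega), if_neg (by omega), if_neg (by omega)]; ring
    rw [Finset.sum_congr rfl h1, Finset.sum_ite_eq']
    split_ifs with h2
    · rw [smul_eq_mul, mul_comm]
    · rw [hn l (not_lt.1 (fun h3 => h2 (Finset.mem_range.2 h3))), smul_zero]
  have e2 : G.comp P - v c0 • φ = ∑ j ∈ Finset.range n, φ (ev j) •
      (((z j).comp P - v c0 • sg idn j) - ((z (j + 1)).comp P - v c0 • sg idn (j + 1))) := by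
    have h1 : G.comp P = ∑ j ∈ Finset.range n, φ (ev j) • ((z j).comp P - (z (j + 1)).comp P) := by
      ext x
      rw [ContinuousLinearMap.comp_apply, hG, _root_.sum_apply, _root_.sum_apply]
      rfl
    rw [h1, e1, ← Finset.sum_sub_distrib]
    apply Finset.sum_congr rfl
    intro j _
    ext x
    simp only [_root_.sub_apply, _root_.smul_apply, smul_eq_mul]
    ring
  have n1 : ‖G.comp P - v c0 • φ‖ ≤ 6 * A * ‖φ‖ := by
    rw [e2]
    calc _ ≤ ∑ j ∈ Finset.range n, ‖φ (ev j) •
      (((z j).comp P - v c0 • sg idn j) - ((z (j + 1)).comp P - v c0 • sg idn (j + 1)))‖ :=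
          norm_sum_le _ _
      _ ≤ ∑ j ∈ Finset.range n, ‖φ‖ * (3 * ε j + 3 * ε (j + 1)) := by
          apply Finset.sum_le_sum
          intro j _
          rw [norm_smul, Real.norm_eq_abs]
          apply mul_le_mul (abs_apply_ev_le φ j) _ (norm_nonneg _) (norm_nonneg _)
          refine (norm_sub_le _ _).trans (add_le_add (err_push h j) (err_push h (j + 1)))
      _ = ‖φ‖ * (3 * ∑ j ∈ Finset.range n, ε j + 3 * ∑ j ∈ Finset.range n, ε (j + 1)) := by
          rw [← Finset.mul_sum, Finset.sum_add_distrib, ← Finset.mul_sum, ← Finset.mul_sum]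
      _ ≤ ‖φ‖ * (3 * A + 3 * A) := by
          apply mul_le_mul_of_nonneg_left _ (norm_nonneg _)
          have h1 := hA n
          have h2 : ∑ j ∈ Finset.range n, ε (j + 1) ≤ A := by
            have h3 := hA (n + 1)
            rw [Finset.sum_range_succ'] at h3
            linarith [hε 0]
          linarith
      _ = _ := by ring
  have n2 : ‖G.comp P‖ ≤ ‖G‖ := norm_comp_push_le _ _ G
  have n3 : ‖v c0 • φ‖ = |v c0| * ‖φ‖ := by rw [norm_smul, Real.norm_eq_abs]
  have n4 : ‖v c0 • φ‖ ≤ ‖G.comp P‖ + ‖G.comp P - v c0 • φ‖ := by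
    have := norm_sub_norm_le (v c0 • φ) (G.comp P)
    rw [norm_sub_rev] at this
    linarith
  rw [n3] at n4
  nlinarith

end ext

end Pool.Agent.R277.JT
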