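import Pool.Agent.R277.JT.Lower
import Pool.Agent.H825R3.Seq

/-!
# Non-reflexive spaces inside `JT*` contain `J*` (helper file for MP_245e03_an)
-/

set_option autoImplicit false
set_option linter.unusedSectionVars false

open Set Filter Topology

namespace Pool.Agent.R277.JT

instance : Countable Tree := inferInstanceAs (Countable (List Bool))

/-- weak star type extraction -/
lemma subseq {y : ℕ → D Tree} (hy : ∀ n, ‖y n‖ ≤ 1) :
    ∃ (ψ : ℕ → ℕ) (w : D Tree) (v : (ℕ → Bool) → ℝ), StrictMono ψ ∧ ‖w‖ ≤ 1 ∧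
      (∀ i, Tendsto (fun n => (y (ψ n) - w) (ev i)) atTop (𝓝 0)) ∧
      (∀ c, Tendsto (fun n => Lm (br c) (y (ψ n) - w)) atTop (𝓝 (v c))) := by
  classical
  let C : Set (ℕ → Bool) := ⋃ n, Function.support (fun c => (Lm (br c) (y n)) ^ 2)
  have hC : C.Countable := countable_iUnion fun n => (summable_Lm_sq (y n)).countable_support
  have : Countable C := hC.to_subtype
  let u : ℕ → (Tree ⊕ C → ℝ) := fun n p => Sum.elim (fun i => y n (ev i)) (fun c => Lm (br c.1) (y n)) p
  have hu : ∀ n, u n ∈ Set.pi Set.univ (fun _ : Tree ⊕ C => Icc (-1:ℝ) 1) := by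
    intro n p _
    cases p with
    | inl i => exact abs_le.1 ((abs_apply_ev_le (y n) i).trans (hy n))
    | inr c => exact abs_le.1 ((abs_Lm_le (br c.1) (y n)).trans (hy n))
  obtain ⟨a, ha, ψ, hψ, hlim⟩ := (isCompact_univ_pi fun _ : Tree ⊕ C => isCompact_Icc).tendsto_subseq hu
  rw [tendsto_pi_nhds] at hlim
  have hl1 : ∀ i, Tendsto (fun n => y (ψ n) (ev i)) atTop (𝓝 (a (Sum.inl i))) := fun i => hlim (Sum.inl i)
  have hl2 : ∀ c : C, Tendsto (fun n => Lm (br c.1) (y (ψ n))) atTop (𝓝 (a (Sum.inr c))) :=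
    fun c => hlim (Sum.inr c)
  let wl : Pre Tree →ₗ[ℝ] ℝ :=
    (show (Tree →₀ ℝ) →ₗ[ℝ] ℝ from Finsupp.linearCombination ℝ (fun i => a (Sum.inl i)))
  have hwl : ∀ i, wl (ev i) = a (Sum.inl i) := by
    intro i
    change Finsupp.linearCombination ℝ (fun i => a (Sum.inl i)) (Finsupp.single i (1:ℝ)) = _
    rw [Finsupp.linearCombination_single, one_smul]
  have hwlim : ∀ x : Pre Tree, Tendsto (fun n => y (ψ n) x) atTop (𝓝 (wl x)) := by
    intro x
    have h1 : ∀ g : Pre Tree →ₗ[ℝ] ℝ, g x = ∑ i ∈ (show Tree →₀ ℝ from x).support, x.val i * g (ev i) := by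
      intro g
      nth_rewrite 1 [expand x]
      rw [map_sum]
      exact Finset.sum_congr rfl fun i _ => by rw [map_smul, smul_eq_mul]
    rw [h1 wl]
    have h2 : ∀ n, y (ψ n) x = ∑ i ∈ (show Tree →₀ ℝ from x).support, x.val i * y (ψ n) (ev i) :=
      fun n => h1 (y (ψ n)).toLinearMap
    simp_rw [h2]
    apply tendsto_finsetSum
    intro i _
    rw [hwl]
    exact (hl1 i).const_mul _
  have hwb : ∀ x, ‖wl x‖ ≤ 1 * ‖x‖ := by
    intro x
    apply le_of_tendsto (hwlim x).norm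
    filter_upwards with n
    exact ((y (ψ n)).le_opNorm x).trans (mul_le_mul_of_nonneg_right (hy _) (norm_nonneg _))
  let w : D Tree := wl.mkContinuous 1 hwb
  have hwn : ‖w‖ ≤ 1 := LinearMap.mkContinuous_norm_le _ zero_le_one _
  refine ⟨ψ, w, fun c => (if h : c ∈ C then a (Sum.inr ⟨c, h⟩) else 0) - Lm (br c) w, hψ, hwn, ?_, ?_⟩
  · intro i
    have h1 : w (ev i) = a (Sum.inl i) := hwl i
    have h2 := (hl1 i).sub_const (w (ev i))
    rw [h1, sub_self] at h2
    simp_rw [_root_.sub_apply, h1]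
    exact h2
  · intro c
    simp_rw [Lm_sub]
    apply Tendsto.sub_const
    by_cases h : c ∈ C
    · rw [dif_pos h]
      exact hl2 ⟨c, h⟩
    · rw [dif_neg h]
      have h1 : ∀ n, Lm (br c) (y n) = 0 := by
        intro n
        by_contra hcon
        apply h
        exact mem_iUnion.2 ⟨n, pow_ne_zero 2 hcon⟩
      simp_rw [h1]
      exact tendsto_const_nhds

lemma sum_limit_sq {z : ℕ → D Tree} {v : (ℕ → Bool) → ℝ} {M : ℝ} (hM : ∀ n, ‖z n‖ ≤ M)
    (hv : ∀ c, Tendsto (fun n => Lm (br c) (z n)) atTop (𝓝 (v c))) (G : Finset (ℕ → Bool)) :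
    ∑ c ∈ G, v c ^ 2 ≤ M ^ 2 := by
  have h1 : Tendsto (fun n => ∑ c ∈ G, (Lm (br c) (z n)) ^ 2) atTop (𝓝 (∑ c ∈ G, v c ^ 2)) :=
    tendsto_finsetSum _ fun c _ => (hv c).pow 2
  apply le_of_tendsto h1
  filter_upwards with n
  exact (sum_Lm_sq (z n) G).trans (pow_le_pow_left₀ (norm_nonneg _) (hM n) 2)

section shift

lemma ev_ss_nat (S : Finset ℕ) (l : ℕ) : ss S (ev l) = if l ∈ S then 1 else 0 := by
  classical
  rw [ss_ev]
  by_cases h : l ∈ S
  · rw [if_pos h, if_pos h]
  · rw [if_neg h, if_neg h]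

/-- the left shift -/
noncomputable def shL : Pre ℕ →ₗ[ℝ] Pre ℕ :=
  (show (ℕ →₀ ℝ) →ₗ[ℝ] (ℕ →₀ ℝ) from Finsupp.lcomapDomain (fun n => n + 1) (add_left_injective 1))

lemma shL_val (x : Pre ℕ) (i : ℕ) : (shL x).val i = x.val (i + 1) := rfl

lemma norm_shL_le (x : Pre ℕ) : ‖shL x‖ ≤ ‖x‖ := by
  classical
  have h := sum_sq_abs ({()} : Finset Unit) (fun _ => shL x) x
    (fun _ S => S.image (fun n => n + 1)) ?_ ?_ ?_ ?_
  · rw [Finset.sum_singleton] at h
    exact le_of_sq_le_sq h (norm_nonneg x)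
  · rintro - - S ⟨a, c, hac, hm⟩ _
    refine ⟨a + 1, c + 1, by omega, fun b => ?_⟩
    rw [Finset.mem_image]
    constructor
    · rintro ⟨n, hn, rfl⟩
      rw [hm] at hn
      omega
    · intro hb
      exact ⟨b - 1, (hm _).2 (by omega), by omega⟩
  · rintro - - S -
    unfold ss
    rw [Finset.sum_image (fun a _ b _ h => by omega)]
    rfl
  · rintro - - S S' - - hdis
    rw [Finset.disjoint_left] at hdis ⊢
    intro l h1 h2
    rw [Finset.mem_image] at h1 h2
    obtain ⟨a, ha, rfl⟩ := h1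
    obtain ⟨b, hb, hab⟩ := h2
    have : b = a := by omega
    subst this
    exact hdis ha hb
  · rintro i - j - hij
    exact absurd rfl hij

/-- the left shift as a continuous map -/
noncomputable def sh : Pre ℕ →L[ℝ] Pre ℕ :=
  shL.mkContinuous 1 (fun x => by rw [one_mul]; exact norm_shL_le x)

lemma sh_ev_zero : sh (ev 0) = 0 := by
  apply ext_val
  intro i
  change (shL (ev 0)).val i = 0
  rw [shL_val, val_ev_ne (by omega)]

lemma sh_ev_succ (j : ℕ) : sh (ev (j + 1)) = ev j := by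
  apply ext_val
  intro i
  change (shL (ev (j + 1))).val i = _
  rw [shL_val]
  by_cases h : j = i
  · subst h
    rw [val_ev_self, val_ev_self]
  · rw [val_ev_ne h, val_ev_ne (by omega)]

/-- from `J*` to the closed span of the unit vectors -/
noncomputable def WL (f : D ℕ) : D ℕ :=
  Lm idn f • (sg idn 0 - sg idn 1) + (f - Lm idn f • sg idn 0).comp sh

lemma WL_ev_zero (f : D ℕ) : WL f (ev 0) = Lm idn f := by
  unfold WL
  rw [_root_.add_apply, ContinuousLinearMap.comp_apply, sh_ev_zero, map_zero, _root_.smul_apply,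
    _root_.sub_apply, sg_idn, sg_idn]
  simp

lemma WL_ev_succ (f : D ℕ) (j : ℕ) : WL f (ev (j + 1)) = f (ev j) - Lm idn f := by
  unfold WL
  rw [_root_.add_apply, ContinuousLinearMap.comp_apply, sh_ev_succ, _root_.smul_apply,
    _root_.sub_apply, _root_.sub_apply, _root_.smul_apply, sg_idn, sg_idn, sg_idn]
  simp

lemma Lm_WL (f : D ℕ) : Lm idn (WL f) = 0 := by
  have h1 := (tendsto_Lm idn (WL f)).comp (tendsto_add_atTop_nat 1)
  have h2 : Tendsto (fun n => f (ev (idn n)) - Lm idn f) atTop (𝓝 (Lm idn f - Lm idn f)) :=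
    (tendsto_Lm idn f).sub_const _
  rw [sub_self] at h2
  refine tendsto_nhds_unique h1 (h2.congr fun n => ?_)
  exact (WL_ev_succ f n).symm

lemma WL_add (f g : D ℕ) : WL (f + g) = WL f + WL g := by
  apply D_ext
  intro i
  cases i with
  | zero => rw [_root_.add_apply, WL_ev_zero, WL_ev_zero, WL_ev_zero, Lm_add]
  | succ j =>
    rw [_root_.add_apply, WL_ev_succ, WL_ev_succ, WL_ev_succ, Lm_add, _root_.add_apply]
    ring

lemma WL_smul (c : ℝ) (f : D ℕ) : WL (c • f) = c • WL f := by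
  apply D_ext
  intro i
  cases i with
  | zero => rw [_root_.smul_apply, WL_ev_zero, WL_ev_zero, Lm_smul, smul_eq_mul]
  | succ j =>
    rw [_root_.smul_apply, WL_ev_succ, WL_ev_succ, Lm_smul, _root_.smul_apply, smul_eq_mul,
      smul_eq_mul]
    ring

lemma norm_WL_le (f : D ℕ) : ‖WL f‖ ≤ 4 * ‖f‖ := by
  have h1 := abs_Lm_le idn f
  have h2 : ‖sg idn 0‖ ≤ 1 := norm_sg_le _ _
  have h3 : ‖sg idn 1‖ ≤ 1 := norm_sg_le _ _
  have h4 : ‖Lm idn f • (sg idn 0 - sg idn 1)‖ ≤ 2 * ‖f‖ := by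
    rw [norm_smul, Real.norm_eq_abs]
    have := norm_sub_le (sg idn 0) (sg idn 1)
    have h5 := abs_nonneg (Lm idn f)
    have h6 := norm_nonneg (sg idn 0 - sg idn 1)
    nlinarith
  have h5 : ‖(f - Lm idn f • sg idn 0).comp sh‖ ≤ 2 * ‖f‖ := by
    have h6 : ‖(f - Lm idn f • sg idn 0).comp sh‖ ≤ ‖f - Lm idn f • sg idn 0‖ := by
      apply ContinuousLinearMap.opNorm_le_bound _ (norm_nonneg _)
      intro x
      exact ((f - Lm idn f • sg idn 0).le_opNorm _).trans
        (mul_le_mul_of_nonneg_left (norm_shL_le x) (norm_nonneg _))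
    have h7 := norm_sub_le f (Lm idn f • sg idn 0)
    have h8 : ‖Lm idn f • sg idn 0‖ ≤ ‖f‖ := by
      rw [norm_smul, Real.norm_eq_abs]
      have h9 := abs_nonneg (Lm idn f)
      nlinarith [norm_nonneg (sg idn 0)]
    linarith
  unfold WL
  have h6 := norm_add_le (Lm idn f • (sg idn 0 - sg idn 1)) ((f - Lm idn f • sg idn 0).comp sh)
  linarith

lemma norm_le_WL (f : D ℕ) : ‖f‖ ≤ 2 * ‖WL f‖ := by
  have hs : StrictMono (fun n : ℕ => n + 1) := fun a b h => by
    change a + 1 < b + 1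
    omega
  have h1 : f = (WL f).comp (push _ hs) + Lm idn f • sg idn 0 := by
    apply D_ext
    intro i
    rw [_root_.add_apply, ContinuousLinearMap.comp_apply, push_ev, WL_ev_succ, _root_.smul_apply,
      sg_idn]
    simp
  have h2 : ‖(WL f).comp (push _ hs)‖ ≤ ‖WL f‖ := norm_comp_push_le _ _ _
  have h3 : |Lm idn f| ≤ ‖WL f‖ := by
    rw [← WL_ev_zero]
    exact abs_apply_ev_le _ _
  have h4 : ‖Lm idn f • sg idn 0‖ ≤ ‖WL f‖ := by
    rw [norm_smul, Real.norm_eq_abs]
    have h5 : ‖sg idn 0‖ ≤ 1 := norm_sg_le _ _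
    have h9 := abs_nonneg (Lm idn f)
    nlinarith [norm_nonneg (sg idn 0)]
  have h5 := norm_add_le ((WL f).comp (push _ hs)) (Lm idn f • sg idn 0)
  rw [← h1] at h5
  linarith

lemma cut_lv_tendsto {f : D ℕ} (h : Lm idn f = 0) :
    Tendsto (fun k => ‖cut f (lv ℕ k)‖) atTop (𝓝 0) := by
  apply squeeze_zero (fun _ => norm_nonneg _) _ (step1 h)
  intro k
  apply norm_cut_mono
  intro i hi
  exact hi

end shift

/-- building the embedding of `J*` from the two estimates -/
theorem embed (d : ℕ → D Tree) {C c : ℝ} (hc : 0 < c)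
    (hU : ∀ (φ : D ℕ) (n : ℕ), (∀ j, n ≤ j → φ (ev j) = 0) →
      ‖∑ j ∈ Finset.range n, φ (ev j) • d j‖ ≤ C * ‖φ‖)
    (hLw : ∀ (φ : D ℕ) (n : ℕ), (∀ j, n ≤ j → φ (ev j) = 0) →
      c * ‖φ‖ ≤ ‖∑ j ∈ Finset.range n, φ (ev j) • d j‖)
    (R : Set (D Tree)) (hR : IsClosed R)
    (hdR : ∀ (a : ℕ → ℝ) (n : ℕ), ∑ j ∈ Finset.range n, a j • d j ∈ R) :
    ∃ T : D ℕ →L[ℝ] D Tree, (∀ f, T f ∈ R) ∧ ∃ c' > 0, ∀ f, c' * ‖f‖ ≤ ‖T f‖ := by
  classical
  let G : D ℕ → ℕ → D Tree := fun h n => ∑ j ∈ Finset.range n, h (ev j) • d j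
  have hcut : ∀ (h : D ℕ) (m n : ℕ), m ≤ n → G h n - G h m = G (cut h (bl ℕ m n)) n := by
    intro h m n hmn
    simp only [G]
    rw [← Finset.sum_range_add_sum_Ico _ hmn, ← Finset.sum_range_add_sum_Ico _ hmn,
      add_sub_cancel_left]
    have h1 : ∑ j ∈ Finset.range m, (cut h (bl ℕ m n)) (ev j) • d j = 0 := by
      apply Finset.sum_eq_zero
      intro j hj
      rw [cut_ev_not h (fun hj' => by
        have h1 := hj'.1
        rw [lev_nat] at h1
        have := Finset.mem_range.1 hj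
        omega), zero_smul]
    rw [h1, zero_add]
    apply Finset.sum_congr rfl
    intro j hj
    rw [Finset.mem_Ico] at hj
    rw [cut_ev h (A := bl ℕ m n) hj]
  have hlo : ∀ (h : D ℕ) (n : ℕ), G h n = G (cut h (lo ℕ n)) n := by
    intro h n
    simp only [G]
    apply Finset.sum_congr rfl
    intro j hj
    rw [cut_ev h (A := lo ℕ n) (Finset.mem_range.1 hj)]
  have hGU : ∀ (h : D ℕ) (n : ℕ), ‖G h n‖ ≤ |C| * ‖h‖ := by
    intro h n
    rw [hlo]
    refine (hU _ n (fun j hj => cut_ev_not h (A := lo ℕ n) (fun hj' : j < n => by omega))).trans ?_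
    exact mul_le_mul (le_abs_self _) (norm_cut_le _ _) (norm_nonneg _) (abs_nonneg _)
  have hCau : ∀ h : D ℕ, Lm idn h = 0 → CauchySeq (G h) := by
    intro h hh
    apply cauchySeq_of_le_tendsto_0 (fun m => |C| * ‖cut h (lv ℕ m)‖ + |C| * ‖cut h (lv ℕ m)‖)
    · have key : ∀ N n, N ≤ n → ‖G h n - G h N‖ ≤ |C| * ‖cut h (lv ℕ N)‖ := by
        intro N n hNn
        rw [hcut h N n hNn]
        refine (hU _ n (fun j hj => cut_ev_not h (fun hj' => by
          have h1 := hj'.2
          rw [lev_nat] at h1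
          omega))).trans ?_
        refine mul_le_mul (le_abs_self _) (norm_cut_mono h ?_) (norm_nonneg _) (abs_nonneg _)
        intro i hi
        exact hi.1
      intro m n N hm hn
      rw [dist_eq_norm]
      have h1 := key N m hm
      have h2 := key N n hn
      have h3 : G h m - G h n = (G h m - G h N) - (G h n - G h N) := by abel
      rw [h3]
      exact (norm_sub_le _ _).trans (add_le_add h1 h2)
    · have h1 := (cut_lv_tendsto hh).const_mul |C|
      have h2 := h1.add h1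
      simpa using h2
  have hlim : ∀ h : D ℕ, Lm idn h = 0 → Tendsto (G h) atTop (𝓝 (limUnder atTop (G h))) :=
    fun h hh => tendsto_nhds_limUnder (cauchySeq_tendsto_of_complete (hCau h hh))
  have hGadd : ∀ h h' n, G (h + h') n = G h n + G h' n := by
    intro h h' n
    simp only [G]
    rw [← Finset.sum_add_distrib]
    exact Finset.sum_congr rfl fun j _ => by rw [_root_.add_apply, add_smul]
  have hGsmul : ∀ (a : ℝ) h n, G (a • h) n = a • G h n := by
    intro a h n
    simp only [G]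
    rw [Finset.smul_sum]
    exact Finset.sum_congr rfl fun j _ => by rw [_root_.smul_apply, smul_smul, smul_eq_mul]
  let TL : D ℕ →ₗ[ℝ] D Tree :=
    { toFun := fun f => limUnder atTop (G (WL f))
      map_add' := by
        intro f g
        have h1 := hlim _ (Lm_WL (f + g))
        have h2 := (hlim _ (Lm_WL f)).add (hlim _ (Lm_WL g))
        refine tendsto_nhds_unique h1 (h2.congr fun n => ?_)
        rw [WL_add, hGadd]
      map_smul' := by
        intro a f
        have h1 := hlim _ (Lm_WL (a • f))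
        have h2 := (hlim _ (Lm_WL f)).const_smul a
        refine tendsto_nhds_unique h1 (h2.congr fun n => ?_)
        rw [WL_smul, hGsmul] }
  have hTL : ∀ f, Tendsto (G (WL f)) atTop (𝓝 (TL f)) := fun f => hlim _ (Lm_WL f)
  let T : D ℕ →L[ℝ] D Tree := TL.mkContinuous (|C| * 4) (by
    intro f
    apply le_of_tendsto (hTL f).norm
    filter_upwards with n
    refine (hGU _ n).trans ?_
    rw [mul_assoc]
    exact mul_le_mul_of_nonneg_left (norm_WL_le f) (abs_nonneg _))
  have hT : ∀ f, Tendsto (G (WL f)) atTop (𝓝 (T f)) := hTL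
  refine ⟨T, fun f => ?_, c / 2, by positivity, fun f => ?_⟩
  · exact hR.mem_of_tendsto (hT f) (Eventually.of_forall fun n => hdR _ n)
  · have h1 : c * ‖WL f‖ ≤ ‖T f‖ := by
      have h2 : Tendsto (fun n => c * (‖WL f‖ - ‖cut (WL f) (lv ℕ n)‖)) atTop
          (𝓝 (c * (‖WL f‖ - 0))) :=
        ((cut_lv_tendsto (Lm_WL f)).const_sub _).const_mul _
      rw [sub_zero] at h2
      refine le_of_tendsto_of_tendsto h2 (hT f).norm (Eventually.of_forall fun n => ?_)
      have h3 := hLw (cut (WL f) (lo ℕ n)) n (fun j hj => cut_ev_not _ (A := lo ℕ n) (fun hj' : j < n => by omega))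
      have h4 : ‖WL f‖ ≤ ‖cut (WL f) (lo ℕ n)‖ + ‖cut (WL f) (lv ℕ n)‖ := by
        have := norm_add_le (cut (WL f) (lo ℕ n)) (cut (WL f) (lv ℕ n))
        rwa [cut_lo_add] at this
      calc c * (‖WL f‖ - ‖cut (WL f) (lv ℕ n)‖) ≤ c * ‖cut (WL f) (lo ℕ n)‖ :=
            mul_le_mul_of_nonneg_left (by linarith) hc.le
        _ ≤ ‖G (cut (WL f) (lo ℕ n)) n‖ := h3
        _ = ‖G (WL f) n‖ := by rw [← hlo]
    have h2 := norm_le_WL f
    nlinarith

/-- Main theorem, for spaces isometrically embedded into the dual of the normed space of finitely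
supported functions on the tree. -/
theorem main {Y : Type*} [NormedAddCommGroup Y] [NormedSpace ℝ Y] [CompleteSpace Y]
    (ι : Y →ₗᵢ[ℝ] D Tree)
    (hY : ¬ Function.Surjective (NormedSpace.inclusionInDoubleDual ℝ Y)) :
    ∃ T : D ℕ →L[ℝ] D Tree, (∀ f, T f ∈ Set.range ι) ∧ ∃ c > 0, ∀ f, c * ‖f‖ ≤ ‖T f‖ := by
  classical
  obtain ⟨x, f, hx1, hf1, hxf1, hxf2⟩ := Pool.Agent.H825R3.james_seq hY (θ := 1 / 2) (δ := 1 / 8)
    (by norm_num) (by norm_num) (by norm_num)
  obtain ⟨ψ, w, v, hψ, hw, hz, hv⟩ := subseq (y := fun n => ι (x n))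
    (fun n => by rw [ι.norm_map]; exact hx1 n)
  have hzn : ∀ n, ‖ι (x (ψ n)) - w‖ ≤ 2 := by
    intro n
    have h1 := norm_sub_le (ι (x (ψ n))) w
    have h2 := hx1 (ψ n)
    rw [ι.norm_map] at h1
    linarith
  by_cases hv0 : ∀ c, v c = 0
  · exfalso
    obtain ⟨φ, κ, F, hφ, hext⟩ := extract hz hv (fun _ => false) (ε := fun j => (1 / 2) ^ j)
      (fun j => by positivity)
    have hVp : ∀ j, Vp v κ F j = 0 := by
      intro j
      unfold Vp
      apply Finset.sum_eq_zero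
      intro c _
      rw [hv0, zero_smul]
    have hgeo : ∀ s : Finset ℕ, ∑ j ∈ s, ((1:ℝ) / 2) ^ j ≤ 2 := by
      intro s
      have h1 := (summable_geometric_of_lt_one (r := (1/2:ℝ)) (by norm_num) (by norm_num))
      have h2 := h1.sum_le_tsum s (fun _ _ => by positivity)
      rw [tsum_geometric_of_lt_one (by norm_num) (by norm_num)] at h2
      norm_num at h2 ⊢
      exact h2
    obtain ⟨m, hm⟩ : ∃ m : ℕ, m = 10000 := ⟨_, rfl⟩
    have hmr : (m : ℝ) = 10000 := by rw [hm]; norm_num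
    have hbd : ∀ s : Finset ℕ, s.card = m →
        ‖∑ j ∈ s, (ι (x (ψ (φ j))) - w)‖ ≤ 406 := by
      intro s hs
      have h1 := ext_sum_le hext (fun j => hzn (φ j)) s (fun _ => 1)
      simp only [hVp, sub_zero, one_smul, abs_one, one_mul] at h1
      rw [← Finset.mul_sum, Finset.sum_const, hs, nsmul_eq_mul, hmr] at h1
      have h2 := hgeo s
      have h3 : √((10000 : ℝ) * 2 ^ 2) ≤ 200 := by
        rw [Real.sqrt_le_iff]; norm_num
      linarith
    set s1 := Finset.range m with hs1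
    set s2 := Finset.Ico m (m + m) with hs2
    have hc1 : s1.card = m := by rw [hs1, Finset.card_range]
    have hc2 : s2.card = m := by rw [hs2, Nat.card_Ico]; omega
    have hb1 := hbd s1 hc1
    have hb2 := hbd s2 hc2
    set X := ∑ j ∈ s2, x (ψ (φ j)) - ∑ j ∈ s1, x (ψ (φ j)) with hX
    have hXn : ‖X‖ ≤ 812 := by
      rw [← ι.norm_map, hX, map_sub, map_sum, map_sum]
      have h1 : ∑ j ∈ s2, ι (x (ψ (φ j))) - ∑ j ∈ s1, ι (x (ψ (φ j))) =
          ∑ j ∈ s2, (ι (x (ψ (φ j))) - w) - ∑ j ∈ s1, (ι (x (ψ (φ j))) - w) := by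
        rw [Finset.sum_sub_distrib, Finset.sum_sub_distrib]
        have h2 : ∑ j ∈ s2, w = ∑ j ∈ s1, w := by
          rw [Finset.sum_const, Finset.sum_const, hc1, hc2]
        rw [h2]
        abel
      rw [h1]
      exact (norm_sub_le _ _).trans (by linarith)
    obtain ⟨N, hN⟩ : ∃ N, N = ψ (φ m) := ⟨_, rfl⟩
    have h1 : f N X = ∑ j ∈ s2, f N (x (ψ (φ j))) - ∑ j ∈ s1, f N (x (ψ (φ j))) := by
      rw [hX, map_sub, map_sum, map_sum]
    have h2 : ∑ j ∈ s1, f N (x (ψ (φ j))) = 0 := by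
      apply Finset.sum_eq_zero
      intro j hj
      apply hxf1
      rw [hN]
      exact hψ (hφ (Finset.mem_range.1 hj))
    have h3 : ∑ j ∈ s2, (3 / 8 : ℝ) ≤ ∑ j ∈ s2, f N (x (ψ (φ j))) := by
      apply Finset.sum_le_sum
      intro j hj
      have h4 := hxf2 N (ψ (φ j)) (by
        rw [hN]; exact hψ.monotone (hφ.monotone (Finset.mem_Ico.1 hj).1))
      have h5 := (abs_le.1 h4).1
      linarith
    rw [Finset.sum_const, nsmul_eq_mul, hc2, hmr] at h3
    have h5 := (f N).le_opNorm X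
    rw [Real.norm_eq_abs] at h5
    have h6 := le_abs_self (f N X)
    have h8 : ‖f N‖ * ‖X‖ ≤ 1 * 812 := mul_le_mul (hf1 N) hXn (norm_nonneg _) zero_le_one
    rw [h1, h2, sub_zero] at h6
    rw [h1, h2, sub_zero] at h5
    linarith
  · push Not at hv0
    obtain ⟨c0, hc0⟩ := hv0
    have hpos : 0 < |v c0| := abs_pos.2 hc0
    obtain ⟨φ, κ, F, hφ, hext⟩ := extract hz hv c0 (ε := fun j => |v c0| / 24 * (1 / 2) ^ j)
      (fun j => by positivity)
    have hA : ∀ n, ∑ j ∈ Finset.range n, |v c0| / 24 * (1 / 2) ^ j ≤ |v c0| / 12 := by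
      intro n
      rw [← Finset.mul_sum]
      have h1 := (summable_geometric_of_lt_one (r := (1/2:ℝ)) (by norm_num) (by norm_num))
      have h2 := h1.sum_le_tsum (Finset.range n) (fun _ _ => by positivity)
      rw [tsum_geometric_of_lt_one (by norm_num) (by norm_num)] at h2
      have h3 : ((1:ℝ) - 1 / 2)⁻¹ = 2 := by norm_num
      rw [h3] at h2
      nlinarith
    have hε : ∀ j : ℕ, 0 ≤ |v c0| / 24 * (1 / 2) ^ j := fun j => by positivity
    have hsq : ∀ G : Finset (ℕ → Bool), ∑ c ∈ G, v c ^ 2 ≤ 2 ^ 2 := sum_limit_sq hzn hv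
    apply embed (fun j => (ι (x (ψ (φ j))) - w) - (ι (x (ψ (φ (j + 1)))) - w))
      (C := 6 * (|v c0| / 12) + 8 * 2) (c := |v c0| / 2) (by positivity)
    · intro φ' n hn
      have h1 := upper hext (fun j => hzn (φ j)) hsq hε hA φ' (n := n) (hn n le_rfl)
      rw [Finset.sum_range_succ, hn n le_rfl, zero_smul, add_zero] at h1
      exact h1
    · intro φ' n hn
      have h1 := lower hext hε hA φ' hn
      have h2 : |v c0| - 6 * (|v c0| / 12) = |v c0| / 2 := by ring
      rwa [h2] at h1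
    · exact ι.isometry.isClosedEmbedding.isClosed_range
    · intro a n
      refine ⟨∑ j ∈ Finset.range n, a j • (x (ψ (φ j)) - x (ψ (φ (j + 1)))), ?_⟩
      rw [map_sum]
      apply Finset.sum_congr rfl
      intro j _
      rw [map_smul, map_sub]
      congr 1
      abel

end Pool.Agent.R277.JT
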