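import Pool.Agent.R277.JT.Tree

/-!
# The structure of functionals on the James tree space (helper file for MP_245e03_an)
-/

set_option autoImplicit false
set_option linter.unusedSectionVars false

open Set Filter Topology

namespace Pool.Agent.R277.JT

/-- the branches in `F` pass through different nodes of level `k` -/
def Sep (F : Finset (ℕ → Bool)) (k : ℕ) : Prop := ∀ c ∈ F, ∀ d ∈ F, c ≠ d → br c k ≠ br d k

lemma Sep.mono {F : Finset (ℕ → Bool)} {k l : ℕ} (h : Sep F k) (hkl : k ≤ l) : Sep F l :=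
  fun c hc d hd hcd => br_ne_of (h c hc d hd hcd) hkl

lemma Sep.subset {F G : Finset (ℕ → Bool)} {k : ℕ} (h : Sep F k) (hGF : G ⊆ F) : Sep G k :=
  fun c hc d hd hcd => h c (hGF hc) d (hGF hd) hcd

lemma exists_sep (F : Finset (ℕ → Bool)) : ∃ k, Sep F k := by
  classical
  have h : ∀ p : (ℕ → Bool) × (ℕ → Bool), ∃ k, p.1 ≠ p.2 → br p.1 k ≠ br p.2 k := by
    rintro ⟨c, d⟩
    by_cases hcd : c = d
    · exact ⟨0, fun h => absurd hcd h⟩
    · obtain ⟨i, hi⟩ := Function.ne_iff.1 hcd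
      exact ⟨i + 1, fun _ => br_ne hi (Nat.lt_succ_self i)⟩
  choose k hk using h
  refine ⟨(F ×ˢ F).sup k, fun c hc d hd hcd => ?_⟩
  exact br_ne_of (hk (c, d) hcd) (Finset.le_sup (f := k) (Finset.mk_mem_product hc hd))

lemma ev_ne_eventually {c d : ℕ → Bool} (h : c ≠ d) : ∀ᶠ n in atTop, br c n ≠ br d n := by
  obtain ⟨i, hi⟩ := Function.ne_iff.1 h
  filter_upwards [eventually_gt_atTop i] with n hn
  exact br_ne hi hn

open Classical in
lemma Lm_sg (c d : ℕ → Bool) (k : ℕ) : Lm (br d) (sg (br c) k) = if c = d then 1 else 0 := by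
  split_ifs with h
  · subst h; exact Lm_sg_self _ _
  · exact Lm_sg_ne (ev_ne_eventually h) k

/-- vectors supported on one level -/
lemma norm_level {F : Finset (ℕ → Bool)} {k : ℕ} (h : Sep F k) (a : (ℕ → Bool) → ℝ) :
    ‖∑ c ∈ F, a c • ev (br c k)‖ ^ 2 ≤ ∑ c ∈ F, a c ^ 2 := by
  classical
  have h1 := K_blocks 1 F (fun c => a c • ev (br c k)) (by
    intro S hS
    rw [Finset.card_le_one]
    intro c hc d hd
    rw [Finset.mem_filter, ss_smul, ss_ev] at hc hd
    by_contra hcd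
    have hc' : br c k ∈ S := by
      by_contra hcon
      rw [if_neg hcon] at hc
      simp at hc
    have hd' : br d k ∈ S := by
      by_contra hcon
      rw [if_neg hcon] at hd
      simp at hd
    obtain ⟨a, b, hab, hm⟩ := hS
    apply h c hc.1 d hd.1 hcd
    rcases Forest.comp _ _ b ((hm _).1 hc').2 ((hm _).1 hd').2 with h3 | h3
    · exact eq_of_lev h3 (by rw [IsBr.lev_eq, IsBr.lev_eq])
    · exact (eq_of_lev h3 (by rw [IsBr.lev_eq, IsBr.lev_eq])).symm)
  refine h1.trans ?_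
  rw [Nat.cast_one, one_mul]
  apply Finset.sum_le_sum
  intro c _
  rw [norm_smul, mul_pow, Real.norm_eq_abs, sq_abs]
  have h2 := norm_ev (br c k)
  have h3 := norm_nonneg (ev (br c k))
  have h4 : ‖ev (br c k)‖ ^ 2 ≤ 1 := by nlinarith
  exact mul_le_of_le_one_right (sq_nonneg _) h4

lemma sum_Lm_sq (f : D Tree) (F : Finset (ℕ → Bool)) : ∑ c ∈ F, (Lm (br c) f) ^ 2 ≤ ‖f‖ ^ 2 := by
  obtain ⟨k, hk⟩ := exists_sep F
  set A := ∑ c ∈ F, (Lm (br c) f) ^ 2 with hA
  have hA0 : 0 ≤ A := Finset.sum_nonneg fun _ _ => sq_nonneg _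
  have h1 : Tendsto (fun n => f (∑ c ∈ F, Lm (br c) f • ev (br c n))) atTop (𝓝 A) := by
    have h2 : ∀ n, f (∑ c ∈ F, Lm (br c) f • ev (br c n)) = ∑ c ∈ F, Lm (br c) f * f (ev (br c n)) := by
      intro n
      rw [map_sum]
      exact Finset.sum_congr rfl fun c _ => by rw [map_smul, smul_eq_mul]
    simp_rw [h2]
    have h3 : A = ∑ c ∈ F, Lm (br c) f * Lm (br c) f := Finset.sum_congr rfl fun c _ => by ring
    rw [h3]
    exact tendsto_finsetSum _ fun c _ => (tendsto_Lm (br c) f).const_mul _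
  have h2 : A ≤ ‖f‖ * √A := by
    apply le_of_tendsto h1
    filter_upwards [eventually_ge_atTop k] with n hn
    have h3 := norm_level (hk.mono hn) (fun c => Lm (br c) f)
    have h4 : ‖∑ c ∈ F, Lm (br c) f • ev (br c n)‖ ≤ √A := Real.le_sqrt_of_sq_le h3
    exact (le_abs_self _).trans ((f.le_opNorm _).trans (mul_le_mul_of_nonneg_left h4 (norm_nonneg _)))
  have h3 : √A ^ 2 = A := Real.sq_sqrt hA0
  have h4 : 0 ≤ √A := Real.sqrt_nonneg _
  have h5 : √A ≤ ‖f‖ := by
    rcases h4.eq_or_lt with h | h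
    · rw [← h]; exact norm_nonneg _
    · have h6 : √A * √A ≤ ‖f‖ * √A := by
        rw [← pow_two, h3]; exact h2
      exact le_of_mul_le_mul_right h6 h
  calc A = √A ^ 2 := h3.symm
    _ ≤ ‖f‖ ^ 2 := pow_le_pow_left₀ h4 h5 2

lemma summable_Lm_sq (f : D Tree) : Summable (fun c => (Lm (br c) f) ^ 2) :=
  summable_of_sum_le (fun _ => sq_nonneg _) (fun F => sum_Lm_sq f F)

lemma norm_sum_sg_le {F : Finset (ℕ → Bool)} {k : ℕ} (h : Sep F k) (a : (ℕ → Bool) → ℝ) :
    ‖∑ c ∈ F, a c • sg (br c) k‖ ≤ √(∑ c ∈ F, a c ^ 2) :=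
  norm_sum_tails_le F br (fun _ => k)
    (fun c hc d hd hcd _ hn _ => (h.mono hn) c hc d hd hcd) a

/-- the branch limit as a continuous functional -/
noncomputable def LmC (c : ℕ → Bool) : D Tree →L[ℝ] ℝ :=
  LinearMap.mkContinuous ⟨⟨fun f => Lm (br c) f, Lm_add _⟩, fun a f => Lm_smul (br c) a f⟩ 1
    (fun f => by rw [one_mul]; exact abs_Lm_le _ f)

lemma LmC_apply (c : ℕ → Bool) (f : D Tree) : LmC c f = Lm (br c) f := rfl

lemma cut_sum_sg (F : Finset (ℕ → Bool)) (a : (ℕ → Bool) → ℝ) {k l : ℕ} (h : k ≤ l) :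
    cut (∑ c ∈ F, a c • sg (br c) k) (lv Tree l) = ∑ c ∈ F, a c • sg (br c) l := by
  rw [cut_sum]
  exact Finset.sum_congr rfl fun c _ => by rw [cut_smul, cut_sg h]

/-- the structure of functionals on `JT` -/
theorem structA (f : D Tree) {ε : ℝ} (hε : 0 < ε) :
    ∃ F0 : Finset (ℕ → Bool), ∀ F, F0 ⊆ F → ∃ k0, ∀ k, k0 ≤ k →
      ‖cut f (lv Tree k) - ∑ c ∈ F, Lm (br c) f • sg (br c) k‖ ≤ ε := by
  classical
  set u : (ℕ → Bool) → ℝ := fun c => Lm (br c) f with hu
  have hsum := summable_Lm_sq f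
  have hη : ∀ m : ℕ, 0 < (ε / 8 * (1 / 2) ^ m) ^ 2 := fun m => by positivity
  have hG : ∀ m : ℕ, ∃ G : Finset (ℕ → Bool), ∀ t : Finset (ℕ → Bool), Disjoint t G →
      ∑ c ∈ t, u c ^ 2 ≤ (ε / 8 * (1 / 2) ^ m) ^ 2 := by
    intro m
    obtain ⟨G, hG⟩ := summable_iff_vanishing_norm.1 hsum _ (hη m)
    exact ⟨G, fun t ht => (le_abs_self _).trans (hG t ht).le⟩
  choose G hG using hG
  let F : ℕ → Finset (ℕ → Bool) := fun m => (Finset.range (m + 1)).biUnion G
  have hFm : Monotone F := fun m n hmn =>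
    Finset.biUnion_subset_biUnion_of_subset_left _ (Finset.range_subset_range.2 (by omega))
  have hF : ∀ m, ∀ t : Finset (ℕ → Bool), Disjoint t (F m) →
      ∑ c ∈ t, u c ^ 2 ≤ (ε / 8 * (1 / 2) ^ m) ^ 2 := by
    intro m t ht
    apply hG m t
    exact ht.mono_right (Finset.subset_biUnion_of_mem G (Finset.self_mem_range_succ m))
  choose κ hκ using fun m => exists_sep (F (m + 1))
  let W : ℕ → D Tree := fun m => ∑ c ∈ F (m + 1) \ F m, u c • sg (br c) (κ m)
  have hW : ∀ m, ‖W m‖ ≤ ε / 8 * (1 / 2) ^ m := by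
    intro m
    refine (norm_sum_sg_le ((hκ m).subset Finset.sdiff_subset) u).trans ?_
    rw [Real.sqrt_le_iff]
    exact ⟨by positivity, hF m _ Finset.sdiff_disjoint⟩
  have hgeo : Summable (fun m : ℕ => ε / 8 * (1 / 2 : ℝ) ^ m) :=
    (summable_geometric_of_lt_one (by norm_num) (by norm_num)).mul_left _
  have hWs : Summable W := Summable.of_norm_bounded hgeo hW
  set g := ∑' m, W m with hg
  have hgn : ‖g‖ ≤ ε / 4 := by
    have h1 := tsum_of_norm_bounded (hgeo.hasSum) hW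
    rw [tsum_mul_left, tsum_geometric_of_lt_one (by norm_num) (by norm_num)] at h1
    linarith
  have hgl := hWs.hasSum.tendsto_sum_nat
  rw [← hg] at hgl
  -- the branch limits of the remainder vanish
  have hzero : ∀ d, Lm (br d) (f - ∑ c ∈ F 0, u c • sg (br c) 0 - g) = 0 := by
    intro d
    have h1 : Tendsto (fun M => LmC d (f - ∑ c ∈ F 0, u c • sg (br c) 0 - ∑ m ∈ Finset.range M, W m))
        atTop (𝓝 (LmC d (f - ∑ c ∈ F 0, u c • sg (br c) 0 - g))) :=
      ((LmC d).continuous.tendsto _).comp (tendsto_const_nhds.sub hgl)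
    have hI : ∀ (T : Finset (ℕ → Bool)) (k : ℕ), LmC d (∑ c ∈ T, u c • sg (br c) k) =
        if d ∈ T then u d else 0 := by
      intro T k
      rw [map_sum]
      simp_rw [map_smul, LmC_apply, Lm_sg, smul_eq_mul, mul_ite, mul_one, mul_zero]
      rw [Finset.sum_ite_eq']
    have h2 : ∀ M, LmC d (f - ∑ c ∈ F 0, u c • sg (br c) 0 - ∑ m ∈ Finset.range M, W m) =
        u d - if d ∈ F M then u d else 0 := by
      intro M
      induction M with
      | zero =>
        rw [Finset.range_zero, Finset.sum_empty, sub_zero, map_sub, hI]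
        rfl
      | succ M ih =>
        rw [Finset.sum_range_succ, ← sub_sub, map_sub, ih, hI]
        by_cases h3 : d ∈ F M
        · have h4 : d ∈ F (M + 1) := hFm (Nat.le_succ M) h3
          have h5 : d ∉ F (M + 1) \ F M := fun h => (Finset.mem_sdiff.1 h).2 h3
          rw [if_pos h3, if_pos h4, if_neg h5, sub_zero]
        · by_cases h4 : d ∈ F (M + 1)
          · rw [if_neg h3, if_pos h4, if_pos (Finset.mem_sdiff.2 ⟨h4, h3⟩)]; ring
          · have h5 : d ∉ F (M + 1) \ F M := fun h => h4 (Finset.mem_sdiff.1 h).1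
            rw [if_neg h3, if_neg h4, if_neg h5]; ring
    have h3 : ∀ M, ‖LmC d (f - ∑ c ∈ F 0, u c • sg (br c) 0 - ∑ m ∈ Finset.range M, W m)‖ ≤
        ε / 8 * (1 / 2) ^ M := by
      intro M
      rw [h2]
      by_cases h3 : d ∈ F M
      · rw [if_pos h3, sub_self, norm_zero]; positivity
      · rw [if_neg h3, sub_zero]
        have h4 := hF M {d} (Finset.disjoint_singleton_left.2 h3)
        rw [Finset.sum_singleton] at h4
        exact abs_le_of_sq_le_sq h4 (by positivity)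
    have h4 : Tendsto (fun M => LmC d (f - ∑ c ∈ F 0, u c • sg (br c) 0 - ∑ m ∈ Finset.range M, W m))
        atTop (𝓝 0) := by
      apply squeeze_zero_norm h3
      have := (tendsto_pow_atTop_nhds_zero_of_lt_one (r := (1/2:ℝ)) (by norm_num) (by norm_num)).const_mul (ε / 8)
      simpa using this
    exact tendsto_nhds_unique h1 h4
  have hfin := step2 hzero
  refine ⟨F 0, fun T hT => ?_⟩
  obtain ⟨k1, hk1⟩ := (hfin.eventually_lt_const (show 0 < ε / 4 by linarith)).exists_forall_of_atTop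
  obtain ⟨k2, hk2⟩ := exists_sep T
  refine ⟨max k1 k2, fun k hk => ?_⟩
  have e1 : cut f (lv Tree k) - ∑ c ∈ T, u c • sg (br c) k =
      cut (f - ∑ c ∈ F 0, u c • sg (br c) 0 - g) (lv Tree k) + cut g (lv Tree k) -
        ∑ c ∈ T \ F 0, u c • sg (br c) k := by
    rw [cut_sub, cut_sub, cut_sum_sg _ _ (Nat.zero_le k), ← Finset.sum_sdiff hT]
    abel
  change ‖cut f (lv Tree k) - ∑ c ∈ T, u c • sg (br c) k‖ ≤ ε
  rw [e1]
  have n1 := (hk1 k ((le_max_left _ _).trans hk)).le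
  have n2 := (norm_cut_le g (lv Tree k)).trans hgn
  have n3 : ‖∑ c ∈ T \ F 0, u c • sg (br c) k‖ ≤ ε / 8 := by
    refine (norm_sum_sg_le ((hk2.mono ((le_max_right _ _).trans hk)).subset Finset.sdiff_subset) u).trans ?_
    rw [Real.sqrt_le_iff]
    refine ⟨by positivity, ?_⟩
    have := hF 0 _ (Finset.sdiff_disjoint (s := F 0) (t := T))
    simpa using this
  have n4 := norm_sub_le (cut (f - ∑ c ∈ F 0, u c • sg (br c) 0 - g) (lv Tree k) + cut g (lv Tree k))
    (∑ c ∈ T \ F 0, u c • sg (br c) k)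
  have n5 := norm_add_le (cut (f - ∑ c ∈ F 0, u c • sg (br c) 0 - g) (lv Tree k)) (cut g (lv Tree k))
  linarith

end Pool.Agent.R277.JT
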