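import Pool.Agent.R277.JT.Branch

/-!
# The dyadic tree and functionals without branch limits (helper file for MP_245e03_an)
-/

set_option autoImplicit false
set_option linter.unusedSectionVars false

open Set Filter Topology

namespace Pool.Agent.R277.JT

lemma tree_le {a b : Tree} : a ≤ b ↔ (show List Bool from a) <+: (show List Bool from b) := Iff.rfl

instance : Forest Tree where
  comp _ _ _ h1 h2 := List.prefix_or_prefix_of_prefix h1 h2

instance : Lev Tree where
  lev a := List.length (show List Bool from a)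
  strict a b h := by
    have h1 := List.IsPrefix.length_le (tree_le.1 h.le)
    rcases h1.eq_or_lt with h2 | h2
    · exact absurd (List.IsPrefix.eq_of_length (tree_le.1 h.le) h2) h.ne
    · exact h2
  fin k := List.finite_length_lt Bool k

lemma lev_tree (a : Tree) : lev a = List.length (show List Bool from a) := rfl

/-- the branches of the dyadic tree -/
def br (c : ℕ → Bool) (n : ℕ) : Tree := (show Tree from (List.range n).map c)

instance (c : ℕ → Bool) : IsBr (br c) where
  mono := by
    intro m n h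
    change (List.range m).map c <+: (List.range n).map c
    rw [List.prefix_iff_eq_take, List.length_map, List.length_range, ← List.map_take,
      List.take_range, min_eq_left h]
  lev_eq n := by
    change ((List.range n).map c).length = n
    simp

lemma br_ne {c d : ℕ → Bool} {i n : ℕ} (h : c i ≠ d i) (hn : i < n) : br c n ≠ br d n := by
  intro heq
  apply h
  have h1 : (List.range n).map c = (List.range n).map d := heq
  rw [List.map_inj_left] at h1
  exact h1 i (List.mem_range.2 hn)

lemma br_ne_of {c d : ℕ → Bool} {m n : ℕ} (h : br c m ≠ br d m) (hn : m ≤ n) : br c n ≠ br d n := by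
  intro heq
  apply h
  have h1 : br c m ≤ br c n := IsBr.mono hn
  have h2 : br d m ≤ br c n := by rw [heq]; exact IsBr.mono hn
  rcases Forest.comp _ _ _ h1 h2 with h3 | h3
  · exact eq_of_lev h3 (by rw [IsBr.lev_eq, IsBr.lev_eq])
  · exact (eq_of_lev h3 (by rw [IsBr.lev_eq, IsBr.lev_eq])).symm

/-- every node has a predecessor on each smaller level -/
lemma exists_pred (a : Tree) {k : ℕ} (h : k ≤ lev a) : ∃ b : Tree, b ≤ a ∧ lev b = k := by
  refine ⟨(show Tree from List.take k (show List Bool from a)), List.take_prefix _ _, ?_⟩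
  rw [lev_tree]
  change (List.take k _).length = k
  rw [List.length_take]
  exact min_eq_left h

/-- König's lemma -/
lemma konig {Q : Tree → Prop} (down : ∀ a b, a ≤ b → Q b → Q a) (hinf : ∀ k, ∃ b, k ≤ lev b ∧ Q b) :
    ∃ c : ℕ → Bool, ∀ n, Q (br c n) := by
  classical
  let P : Tree → Prop := fun a => ∀ k, ∃ b, a ≤ b ∧ k ≤ lev b ∧ Q b
  have hstep : ∀ a : {a // P a}, ∃ e : Bool,
      P (show Tree from (show List Bool from a.1) ++ [e]) := by
    intro a
    by_contra hc
    push Not at hc
    have h1 := hc true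
    have h2 := hc false
    have h3 : ¬ ∀ k, ∃ b, (show Tree from (show List Bool from a.1) ++ [true]) ≤ b ∧ k ≤ lev b ∧ Q b := h1
    have h4 : ¬ ∀ k, ∃ b, (show Tree from (show List Bool from a.1) ++ [false]) ≤ b ∧ k ≤ lev b ∧ Q b := h2
    rw [not_forall] at h3 h4
    obtain ⟨k1, h3⟩ := h3
    obtain ⟨k2, h4⟩ := h4
    obtain ⟨b, hb1, hb2, hb3⟩ := a.2 (max (max k1 k2) (lev a.1 + 1))
    obtain ⟨t, ht⟩ := tree_le.1 hb1
    have hlen : lev b = lev a.1 + t.length := by
      rw [lev_tree, lev_tree, ← ht, List.length_append]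
    have ht0 : t ≠ [] := by
      rintro rfl
      have := (le_max_right _ _).trans hb2
      rw [hlen] at this
      simp at this
    obtain ⟨e, t', rfl⟩ := List.exists_cons_of_ne_nil ht0
    have hle : (show Tree from (show List Bool from a.1) ++ [e]) ≤ b := by
      rw [tree_le, ← ht]
      exact ⟨t', List.append_assoc _ _ _⟩
    cases e
    · exact h4 ⟨b, hle, ((le_max_right _ _).trans (le_max_left _ _)).trans hb2, hb3⟩
    · exact h3 ⟨b, hle, ((le_max_left _ _).trans (le_max_left _ _)).trans hb2, hb3⟩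
  choose e he using hstep
  have hroot : P (show Tree from ([] : List Bool)) := fun k => by
    obtain ⟨b, hb1, hb2⟩ := hinf k
    exact ⟨b, List.nil_prefix, hb1, hb2⟩
  let s : ℕ → {a // P a} := fun n => Nat.rec ⟨_, hroot⟩ (fun _ a => ⟨_, he a⟩) n
  have hs : ∀ n, (s (n + 1)).1 = (show Tree from (show List Bool from (s n).1) ++ [e (s n)]) :=
    fun n => rfl
  refine ⟨fun n => e (s n), fun n => ?_⟩
  have heq : ∀ n, (s n).1 = br (fun n => e (s n)) n := by
    intro n
    induction n with
    | zero => rfl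
    | succ n ih =>
      rw [hs, ih]
      change (List.range n).map _ ++ [_] = (List.range (n + 1)).map _
      rw [List.range_succ, List.map_append]
      simp
  rw [← heq]
  obtain ⟨b, hb1, _, hb3⟩ := (s n).2 0
  exact down _ _ hb1 hb3

lemma small_cones {f : D Tree} (hL : ∀ c, Lm (br c) f = 0) {δ : ℝ} (hδ : 0 < δ) :
    ∃ k, ∀ a : Tree, k ≤ lev a → ‖cut f (Ici a)‖ ≤ δ := by
  by_contra hc
  push Not at hc
  obtain ⟨c, hc'⟩ := konig (Q := fun a => δ < ‖cut f (Ici a)‖)
    (fun a b hab hb => hb.trans_le (norm_cut_mono f (Ici_subset_Ici.2 hab))) hc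
  have h1 := (step1 (hL c)).eventually_lt_const hδ
  obtain ⟨n, hn⟩ := h1.exists
  exact lt_asymm hn (hc' n)

instance lower_ord (T : Set Tree) : ({b : Tree | ∀ a ∈ T, ¬ a ≤ b}).OrdConnected :=
  ⟨fun _ _ _ hb _ hx a ha hax => hb a ha (hax.trans hx.2)⟩

lemma val_sub {I : Type*} [PartialOrder I] (x y : Pre I) (i : I) :
    (x - y).val i = x.val i - y.val i := by
  have := ss_sub {i} x y
  simpa [ss] using this

lemma val_sum {I ι : Type*} [PartialOrder I] (s : Finset ι) (x : ι → Pre I) (i : I) :
    (∑ j ∈ s, x j).val i = ∑ j ∈ s, (x j).val i := by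
  have := ss_sum {i} s x
  simpa [ss] using this

lemma discard {f : D Tree} (hL : ∀ c, Lm (br c) f = 0) {κ δ : ℝ} (hκ : 0 < κ) (hδ : 0 < δ) :
    ∃ k0, ∀ k, k0 ≤ k → ∀ z : Pre Tree, ‖z‖ ≤ 1 → (∀ i, lev i < k → z.val i = 0) →
      ∃ y : Pre Tree, ‖y‖ ≤ 1 ∧ (∀ i, lev i < k → y.val i = 0) ∧
        (∀ S, IsSeg S → |ss S y| ≤ κ) ∧ f z - δ ≤ f y := by
  classical
  obtain ⟨k0, hk0⟩ := small_cones hL (show 0 < δ * κ ^ 2 by positivity)
  refine ⟨k0, fun k hk z hz hzk => ?_⟩
  have hfin : {a : Tree | lev a < k + 1}.Finite := Lev.fin (k + 1)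
  let bad : Finset Tree := hfin.toFinset.filter (fun a => lev a = k ∧ κ < ‖res (Ici a) z‖)
  have hbad : ∀ a, a ∈ bad ↔ lev a = k ∧ κ < ‖res (Ici a) z‖ := by
    intro a
    rw [Finset.mem_filter, Set.Finite.mem_toFinset]
    exact ⟨fun h => h.2, fun h => ⟨by rw [Set.mem_ofPred_eq, h.1]; omega, h⟩⟩
  have hcard : (bad.card : ℝ) * κ ^ 2 ≤ 1 := by
    have h1 : ∑ a ∈ bad, ‖res (Ici a) z‖ ^ 2 ≤ ‖z‖ ^ 2 := by
      apply sum_sq_res bad (fun a => Ici a) (fun a _ => inferInstance)
      intro a ha b hb hab
      rw [Set.disjoint_left]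
      intro x hx1 hx2
      rw [hbad] at ha hb
      apply hab
      rcases Forest.comp a b x hx1 hx2 with h | h
      · exact eq_of_lev h (by rw [ha.1, hb.1])
      · exact (eq_of_lev h (by rw [ha.1, hb.1])).symm
    have h2 : ∑ a ∈ bad, κ ^ 2 ≤ ∑ a ∈ bad, ‖res (Ici a) z‖ ^ 2 :=
      Finset.sum_le_sum fun a ha => pow_le_pow_left₀ hκ.le ((hbad a).1 ha).2.le 2
    rw [Finset.sum_const, nsmul_eq_mul] at h2
    have h3 : ‖z‖ ^ 2 ≤ 1 := by nlinarith [norm_nonneg z]
    linarith
  let A : Set Tree := {b : Tree | ∀ a ∈ (bad : Set Tree), ¬ a ≤ b}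
  refine ⟨res A z, (norm_res_le _ _).trans hz, ?_, ?_, ?_⟩
  · intro i hi
    rw [val_res, hzk i hi]
    simp
  · intro S hS
    have h1 : ss S (res A z) = ss (S.filter (fun i => i ∈ lv Tree k)) (res A z) := by
      rw [← ss_resL, ← res_apply]
      congr 1
      symm
      apply res_of_supp
      intro i hi
      rw [val_res, hzk i (not_le.1 hi)]
      simp
    rw [h1]
    by_cases hne : (S.filter (fun i => i ∈ lv Tree k)).Nonempty
    · obtain ⟨m, M, hmM, hmem⟩ := seg_inter hS (inferInstance : (lv Tree k).OrdConnected) hne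
      have hmk : k ≤ lev m := by
        have := (hmem m).2 ⟨le_rfl, hmM⟩
        exact (Finset.mem_filter.1 this).2
      obtain ⟨a, ham, hak⟩ := exists_pred m hmk
      by_cases hb : a ∈ bad
      · have : ss (S.filter (fun i => i ∈ lv Tree k)) (res A z) = 0 := by
          apply Finset.sum_eq_zero
          intro i hi
          rw [val_res, if_neg]
          intro hiA
          exact hiA a (Finset.mem_coe.2 hb) (ham.trans ((hmem i).1 hi).1)
        rw [this, abs_zero]
        exact hκ.le
      · have h2 : ss (S.filter (fun i => i ∈ lv Tree k)) (res A z) =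
            ss (S.filter (fun i => i ∈ lv Tree k)) (res A (res (Ici a) z)) := by
          apply Finset.sum_congr rfl
          intro i hi
          rw [val_res, val_res, val_res,
            if_pos (show i ∈ Ici a from ham.trans ((hmem i).1 hi).1)]
        rw [h2]
        have h3 := seg_le (res A (res (Ici a) z)) (seg_inter hS (inferInstance : (lv Tree k).OrdConnected) hne)
        refine h3.trans ((norm_res_le _ _).trans ?_)
        by_contra hcon
        exact hb ((hbad a).2 ⟨hak, not_le.1 hcon⟩)
    · rw [Finset.not_nonempty_iff_eq_empty] at hne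
      rw [hne]
      simp [ss, hκ.le]
  · have h1 : z - res A z = ∑ a ∈ bad, res (Ici a) z := by
      apply ext_val
      intro i
      rw [val_sub, val_sum, val_res]
      by_cases hi : i ∈ A
      · rw [if_pos hi, sub_self]
        symm
        apply Finset.sum_eq_zero
        intro a ha
        rw [val_res, if_neg]
        exact fun h => hi a (Finset.mem_coe.2 ha) h
      · rw [if_neg hi, sub_zero]
        have : ∃ a ∈ bad, a ≤ i := by
          by_contra hc
          push Not at hc
          exact hi fun a ha => hc a (Finset.mem_coe.1 ha)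
        obtain ⟨a, ha, hai⟩ := this
        rw [Finset.sum_eq_single_of_mem a ha]
        · rw [val_res, if_pos (show i ∈ Ici a from hai)]
        · intro b hb hba
          rw [val_res, if_neg]
          intro hbi
          apply hba
          rw [hbad] at ha hb
          rcases Forest.comp a b i hai hbi with h | h
          · exact (eq_of_lev h (by rw [ha.1, hb.1])).symm
          · exact eq_of_lev h (by rw [ha.1, hb.1])
    have h2 : f z - f (res A z) = ∑ a ∈ bad, cut f (Ici a) z := by
      rw [← map_sub, h1, map_sum]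
      rfl
    have h3 : ∑ a ∈ bad, cut f (Ici a) z ≤ ∑ a ∈ bad, δ * κ ^ 2 := by
      apply Finset.sum_le_sum
      intro a ha
      have h4 := (cut f (Ici a)).le_opNorm z
      have h5 := hk0 a (by rw [((hbad a).1 ha).1]; exact hk)
      rw [Real.norm_eq_abs] at h4
      have h6 := norm_nonneg (cut f (Ici a))
      have h7 := norm_nonneg z
      have h8 := le_abs_self (cut f (Ici a) z)
      nlinarith
    rw [Finset.sum_const, nsmul_eq_mul] at h3
    have h4 : (bad.card : ℝ) * (δ * κ ^ 2) ≤ δ := by nlinarith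
    linarith

/-- Step 2: a functional with vanishing branch limits is small on the high levels. -/
theorem step2 {f : D Tree} (hL : ∀ c, Lm (br c) f = 0) :
    Tendsto (fun k => ‖cut f (lv Tree k)‖) atTop (𝓝 0) := by
  classical
  have hanti : Antitone (fun k => ‖cut f (lv Tree k)‖) := fun m n hmn =>
    norm_cut_mono f (fun i (hi : n ≤ lev i) => (hmn.trans hi : m ≤ lev i))
  have hbdd : BddBelow (range (fun k => ‖cut f (lv Tree k)‖)) :=
    ⟨0, by rintro _ ⟨k, rfl⟩; exact norm_nonneg _⟩
  have hlim := tendsto_atTop_ciInf hanti hbdd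
  set θ := ⨅ k, ‖cut f (lv Tree k)‖ with hθ
  have hle : ∀ k, θ ≤ ‖cut f (lv Tree k)‖ := fun k => ciInf_le hbdd k
  have h0 : 0 ≤ θ := le_ciInf fun _ => norm_nonneg _
  rcases h0.eq_or_lt with h | hpos
  · rw [← h] at hlim; exact hlim
  exfalso
  obtain ⟨k1, hk1⟩ := (hlim.eventually_lt_const (show θ < 1.1 * θ by linarith)).exists
  obtain ⟨x1, hx1, hx1'⟩ := exists_near (cut f (lv Tree k1)) (r := 0.9 * θ) (by linarith [hle k1])
  set y1 := res (lv Tree k1) x1 with hy1
  have hy1n : ‖y1‖ ≤ 1 := (norm_res_le _ _).trans hx1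
  obtain ⟨N, hN⟩ := exists_lev y1
  have hmass := mass_nonneg y1
  obtain ⟨k0, hk0⟩ := discard hL (κ := 0.01 / (mass y1 + 1)) (δ := 0.05 * θ) (by positivity) (by positivity)
  set k := max k0 (max N k1) with hk
  obtain ⟨x2, hx2, hx2'⟩ := exists_near (cut f (lv Tree k)) (r := 0.95 * θ) (by linarith [hle k])
  obtain ⟨y2, hy2a, hy2b, hy2c, hy2d⟩ := hk0 k (le_max_left _ _) (res (lv Tree k) x2)
    ((norm_res_le _ _).trans hx2) (fun i hi => by
      rw [val_res, if_neg (show i ∉ lv Tree k from not_le.2 hi)])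
  rw [cut_apply] at hx1' hx2'
  have hsum : ‖y1 + y2‖ ≤ √2.02 := by
    apply norm_le_of (Real.sqrt_nonneg _)
    intro P hP
    rw [Real.sq_sqrt (by norm_num)]
    have h1 := fam_le y1 hP
    have h2 := fam_le y2 hP
    have h3 : ∑ S ∈ P, ss S y1 * ss S y2 ≤ 0.01 := by
      calc ∑ S ∈ P, ss S y1 * ss S y2 ≤ ∑ S ∈ P, |ss S y1| * (0.01 / (mass y1 + 1)) := by
            apply Finset.sum_le_sum
            intro S hS
            have h4 := hy2c S (hP.1 S hS)
            calc ss S y1 * ss S y2 ≤ |ss S y1 * ss S y2| := le_abs_self _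
              _ = |ss S y1| * |ss S y2| := abs_mul _ _
              _ ≤ _ := mul_le_mul_of_nonneg_left h4 (abs_nonneg _)
        _ = (∑ S ∈ P, |ss S y1|) * (0.01 / (mass y1 + 1)) := by rw [Finset.sum_mul]
        _ ≤ mass y1 * (0.01 / (mass y1 + 1)) :=
          mul_le_mul_of_nonneg_right (fam_mass_abs y1 hP) (by positivity)
        _ ≤ 0.01 := by
          rw [mul_div_assoc', div_le_iff₀ (by positivity)]
          nlinarith
    calc ∑ S ∈ P, (ss S (y1 + y2)) ^ 2
        = ∑ S ∈ P, (ss S y1) ^ 2 + 2 * ∑ S ∈ P, ss S y1 * ss S y2 + ∑ S ∈ P, (ss S y2) ^ 2 := by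
          rw [Finset.mul_sum, ← Finset.sum_add_distrib, ← Finset.sum_add_distrib]
          exact Finset.sum_congr rfl fun S _ => by rw [ss_add]; ring
      _ ≤ 2.02 := by nlinarith [norm_nonneg y1, norm_nonneg y2]
  have hres : res (lv Tree k1) (y1 + y2) = y1 + y2 := by
    apply res_of_supp
    intro i hi
    rw [val_add, hy1, val_res, if_neg hi, hy2b i, add_zero]
    have h1 : lev i < k1 := not_le.1 hi
    have h2 : k1 ≤ k := (le_max_right _ _).trans (le_max_right _ _)
    omega
  have hup : f (y1 + y2) ≤ 1.1 * θ * √2.02 := by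
    have h1 := (cut f (lv Tree k1)).le_opNorm (y1 + y2)
    rw [cut_apply, hres, Real.norm_eq_abs] at h1
    refine (le_abs_self _).trans (h1.trans ?_)
    exact mul_le_mul hk1.le hsum (norm_nonneg _) (by positivity)
  rw [map_add] at hup
  have h5 : 1.8 * θ ≤ 1.1 * θ * √2.02 := by linarith
  have h6 : √2.02 ≤ 1.43 := by
    rw [Real.sqrt_le_iff]; norm_num
  nlinarith

end Pool.Agent.R277.JT
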