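import Pool.Agent.R277.JT.Extract

/-!
# The upper estimate (helper file for MP_245e03_an)
-/

set_option autoImplicit false
set_option linter.unusedSectionVars false

open Set Filter Topology

namespace Pool.Agent.R277.JT

instance : Forest ℕ where
  comp a b _ _ _ := le_total a b

instance : Lev ℕ where
  lev n := n
  strict _ _ h := h
  fin k := Set.finite_lt_nat k

lemma lev_nat (n : ℕ) : lev n = n := rfl

/-- the identity branch -/
def idn (n : ℕ) : ℕ := n

instance : IsBr idn where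
  mono _ _ h := h
  lev_eq _ := rfl

/-- difference vectors -/
noncomputable def xd : ℕ → Pre ℕ
  | 0 => ev 0
  | (j + 1) => ev (j + 1) - ev j

lemma norm_xd (j : ℕ) : ‖xd j‖ ≤ 2 := by
  cases j with
  | zero =>
    have := norm_ev (0 : ℕ)
    change ‖ev (0 : ℕ)‖ ≤ 2
    linarith
  | succ j =>
    have h1 := norm_ev (j + 1)
    have h2 := norm_ev j
    have h3 := norm_sub_le (ev (j + 1)) (ev j)
    change ‖ev (j + 1) - ev j‖ ≤ 2
    linarith

lemma norm_sum_xd (n : ℕ) (b : ℕ → ℝ) :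
    ‖∑ j ∈ Finset.range n, b j • xd j‖ ^ 2 ≤ 8 * ∑ j ∈ Finset.range n, b j ^ 2 := by
  classical
  have h1 := K_blocks 2 (Finset.range n) (fun j => b j • xd j) (by
    intro S hS
    obtain ⟨p, q, hpq, hm⟩ := hS
    have hsub : (Finset.range n).filter (fun j => ss S (b j • xd j) ≠ 0) ⊆ {p, q + 1} := by
      intro j hj
      rw [Finset.mem_filter, ss_smul] at hj
      have hj2 : ss S (xd j) ≠ 0 := fun h => hj.2 (by rw [h, mul_zero])
      rw [Finset.mem_insert, Finset.mem_singleton]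
      by_contra hcon
      push Not at hcon
      apply hj2
      cases j with
      | zero =>
        change ss S (ev 0) = 0
        rw [ss_ev, if_neg]
        rw [hm]
        omega
      | succ j =>
        change ss S (ev (j + 1) - ev j) = 0
        rw [ss_sub, ss_ev, ss_ev]
        have : (j + 1 ∈ S) ↔ (j ∈ S) := by
          rw [hm, hm]; omega
        by_cases hS : j ∈ S
        · rw [if_pos hS, if_pos (this.2 hS), sub_self]
        · rw [if_neg hS, if_neg (fun h => hS (this.1 h)), sub_self]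
    exact (Finset.card_le_card hsub).trans Finset.card_le_two)
  refine h1.trans ?_
  have h2 : ∑ j ∈ Finset.range n, ‖b j • xd j‖ ^ 2 ≤ ∑ j ∈ Finset.range n, 4 * b j ^ 2 := by
    apply Finset.sum_le_sum
    intro j _
    rw [norm_smul, mul_pow, Real.norm_eq_abs, sq_abs]
    have h3 := norm_xd j
    have h4 := norm_nonneg (xd j)
    have h5 : ‖xd j‖ ^ 2 ≤ 4 := by nlinarith
    nlinarith [sq_nonneg (b j)]
  rw [← Finset.mul_sum] at h2
  push_cast
  linarith

lemma sum_diff_sq_le (φ : D ℕ) (n : ℕ) : ∑ j ∈ Finset.range n, (φ (xd j)) ^ 2 ≤ 8 * ‖φ‖ ^ 2 := by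
  set A := ∑ j ∈ Finset.range n, (φ (xd j)) ^ 2 with hA
  have hA0 : 0 ≤ A := Finset.sum_nonneg fun _ _ => sq_nonneg _
  have h1 := norm_sum_xd n (fun j => φ (xd j))
  have h2 : φ (∑ j ∈ Finset.range n, φ (xd j) • xd j) = A := by
    rw [map_sum]
    exact Finset.sum_congr rfl fun j _ => by rw [map_smul, smul_eq_mul]; ring
  have h3 := φ.le_opNorm (∑ j ∈ Finset.range n, φ (xd j) • xd j)
  rw [h2, Real.norm_eq_abs, abs_of_nonneg hA0] at h3
  have h4 : A ^ 2 ≤ ‖φ‖ ^ 2 * (8 * A) := by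
    calc A ^ 2 ≤ (‖φ‖ * ‖∑ j ∈ Finset.range n, φ (xd j) • xd j‖) ^ 2 := pow_le_pow_left₀ hA0 h3 2
      _ = ‖φ‖ ^ 2 * ‖∑ j ∈ Finset.range n, φ (xd j) • xd j‖ ^ 2 := by ring
      _ ≤ _ := mul_le_mul_of_nonneg_left h1 (sq_nonneg _)
  rcases hA0.eq_or_lt with h | h
  · rw [← h]; positivity
  · have h5 : A * A ≤ 8 * ‖φ‖ ^ 2 * A := by nlinarith
    exact le_of_mul_le_mul_right h5 h

lemma abel_sum {E : Type*} [AddCommGroup E] [Module ℝ E] (φ : D ℕ) (z : ℕ → E) (n : ℕ) :
    ∑ j ∈ Finset.range (n + 1), φ (ev j) • (z j - z (j + 1)) =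
      ∑ j ∈ Finset.range (n + 1), φ (xd j) • z j - φ (ev n) • z (n + 1) := by
  induction n with
  | zero =>
    simp only [zero_add, Finset.range_one, Finset.sum_singleton]
    change φ (ev 0) • (z 0 - z 1) = φ (ev 0) • z 0 - φ (ev 0) • z 1
    rw [smul_sub]
  | succ n ih =>
    rw [Finset.sum_range_succ, ih, Finset.sum_range_succ _ (n + 1)]
    change _ = ∑ j ∈ Finset.range (n + 1), φ (xd j) • z j + φ (ev (n + 1) - ev n) • z (n + 1) -
      φ (ev (n + 1)) • z (n + 1 + 1)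
    rw [map_sub, sub_smul, smul_sub]
    abel

section ext

variable {z : ℕ → D Tree} {v : (ℕ → Bool) → ℝ} {c0 : ℕ → Bool} {ε : ℕ → ℝ}
  {κ : ℕ → ℕ} {F : ℕ → Finset (ℕ → Bool)}

open Classical in
lemma biUnion_pc (c : ℕ → Bool) (hκ : StrictMono κ) {p q : ℕ} (hpq : p ≤ q) :
    (Finset.Icc p q).biUnion (fun j => pc (br c) (κ (j + 1)) (κ (j + 2))) =
      pc (br c) (κ (p + 1)) (κ (q + 2)) := by
  induction q, hpq using Nat.le_induction with
  | base => simp
  | succ q hpq ih =>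
    rw [← Finset.insert_Icc_right_eq_Icc_add_one (by omega), Finset.biUnion_insert, ih]
    ext i
    rw [Finset.mem_union, mem_pc, mem_pc, mem_pc]
    have h1 : κ (p + 1) ≤ κ (q + 1 + 1) := hκ.monotone (by omega)
    have h2 : κ (q + 2) < κ (q + 1 + 2) := hκ (by omega)
    constructor
    · rintro (h | h)
      · exact ⟨h1.trans h.1, h.2⟩
      · exact ⟨h.1, h.2.1.trans h2, h.2.2⟩
    · intro h
      by_cases h3 : κ (q + 1 + 1) ≤ lev i
      · exact Or.inl ⟨h3, h.2⟩
      · exact Or.inr ⟨h.1, not_le.1 h3, h.2.2⟩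

/-- the blocks on which the branch `c` is active -/
def Act (F : ℕ → Finset (ℕ → Bool)) (m : ℕ) (c : ℕ → Bool) : Set ℕ := {j | j < m ∧ c ∈ F j}

/-- block averages of a vector along a branch -/
noncomputable def Qv (κ : ℕ → ℕ) (F : ℕ → Finset (ℕ → Bool)) (m : ℕ) (c : ℕ → Bool) (x : Pre Tree) :
    Pre ℕ := by
  classical
  exact ∑ j ∈ Finset.range m, (if c ∈ F j then ss (pc (br c) (κ (j + 1)) (κ (j + 2))) x else 0) • ev j

open Classical in
lemma val_Qv (m : ℕ) (c : ℕ → Bool) (x : Pre Tree) (i : ℕ) :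
    (Qv κ F m c x).val i =
      if i < m ∧ c ∈ F i then ss (pc (br c) (κ (i + 1)) (κ (i + 2))) x else 0 := by
  unfold Qv
  rw [val_sum]
  simp_rw [val_smul, val_ev, mul_ite, mul_one, mul_zero]
  rw [Finset.sum_ite_eq']
  by_cases h1 : i < m
  · by_cases h2 : c ∈ F i
    · rw [if_pos (Finset.mem_range.2 h1), if_pos h2, if_pos ⟨h1, h2⟩]
    · rw [if_pos (Finset.mem_range.2 h1), if_neg h2, if_neg (fun h => h2 h.2)]
  · rw [if_neg (fun h => h1 (Finset.mem_range.1 h)), if_neg (fun h => h1 h.1)]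

lemma sum_Qv_le (hκ : StrictMono κ) (hF : Monotone F) (hsep : ∀ j, Sep (F j) (κ j)) (m : ℕ)
    (x : Pre Tree) : ∑ c ∈ F m, ‖Qv κ F m c x‖ ^ 2 ≤ ‖x‖ ^ 2 := by
  classical
  have hkm := hκ.monotone
  let T : (ℕ → Bool) → Finset ℕ → Finset Tree := fun c S =>
    (S.filter (fun j => j ∈ Act F m c)).biUnion
      (fun j => pc (br c) (κ (j + 1)) (κ (j + 2)))
  have hTm : ∀ c S i, i ∈ T c S ↔ ∃ j ∈ S, j < m ∧ c ∈ F j ∧ κ (j + 1) ≤ lev i ∧ lev i < κ (j + 2) ∧
      br c (lev i) = i := by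
    intro c S i
    simp only [T, Finset.mem_biUnion]
    constructor
    · rintro ⟨j, h1, h2⟩
      rw [Finset.mem_filter] at h1
      rw [mem_pc] at h2
      exact ⟨j, h1.1, h1.2.1, h1.2.2, h2⟩
    · rintro ⟨j, h1, h2, h3, h4⟩
      exact ⟨j, Finset.mem_filter.2 ⟨h1, h2, h3⟩, mem_pc.2 h4⟩
  have hlev : ∀ j j' i, κ (j + 1) ≤ i → i < κ (j + 2) → κ (j' + 1) ≤ i → i < κ (j' + 2) → j = j' := by
    intro j j' i h1 h2 h3 h4
    rcases lt_trichotomy j j' with h | h | h
    · have := hkm (show j + 2 ≤ j' + 1 by omega); omega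
    · exact h
    · have := hkm (show j' + 2 ≤ j + 1 by omega); omega
  apply sum_sq_abs (F m) (fun c => Qv κ F m c x) x T
  · intro c _ S hS hne
    have hord : (Act F m c).OrdConnected :=
      ⟨fun a ha b hb i hi => ⟨lt_of_le_of_lt hi.2 hb.1, hF hi.1 ha.2⟩⟩
    have hne' : (S.filter (fun j => j ∈ Act F m c)).Nonempty := by
      by_contra hcon
      rw [Finset.not_nonempty_iff_eq_empty] at hcon
      simp only [T, hcon, Finset.biUnion_empty] at hne
      exact Finset.not_nonempty_empty hne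
    obtain ⟨p, q, hpq, hmem⟩ := seg_inter hS hord hne'
    have h1 : S.filter (fun j => j ∈ Act F m c) = Finset.Icc p q := by
      ext i; rw [hmem, Finset.mem_Icc]
    have h2 : T c S = pc (br c) (κ (p + 1)) (κ (q + 2)) := by
      simp only [T]
      rw [h1, biUnion_pc c hκ hpq]
    rw [h2]
    exact isSeg_pc (hκ (by omega))
  · intro c _ S _
    have h1 : ss S (Qv κ F m c x) = ∑ i ∈ S.filter (fun j => j ∈ Act F m c),
        ss (pc (br c) (κ (i + 1)) (κ (i + 2))) x := by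
      unfold ss
      rw [Finset.sum_filter]
      apply Finset.sum_congr rfl
      intro i _
      rw [val_Qv]
      congr 1
    rw [h1]
    simp only [T]
    unfold ss
    rw [Finset.sum_biUnion]
    intro j _ j' _ hjj'
    change Disjoint (pc (br c) (κ (j + 1)) (κ (j + 2))) (pc (br c) (κ (j' + 1)) (κ (j' + 2)))
    apply disj_pc
    intro n h1 h2 h3 h4
    exact absurd (hlev j j' n h1 h3 h2 h4) hjj'
  · intro c _ S S' _ _ hdis
    rw [Finset.disjoint_left]
    intro i h1 h2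
    rw [hTm] at h1 h2
    obtain ⟨j, hj1, _, _, hj2, hj3, _⟩ := h1
    obtain ⟨j', hj1', _, _, hj2', hj3', _⟩ := h2
    have := hlev j j' _ hj2 hj3 hj2' hj3'
    subst this
    exact (Finset.disjoint_left.1 hdis) hj1 hj1'
  · intro c _ d _ hcd S S' _ _
    rw [Finset.disjoint_left]
    intro i h1 h2
    rw [hTm] at h1 h2
    obtain ⟨j, hj1, _, hj4, hj2, hj3, hj5⟩ := h1
    obtain ⟨j', hj1', _, hj4', hj2', hj3', hj5'⟩ := h2
    have := hlev j j' _ hj2 hj3 hj2' hj3'
    subst this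
    exact ((hsep j).mono ((hkm (Nat.le_succ j)).trans hj2)) c hj4 d hj4' hcd (hj5.trans hj5'.symm)

lemma V_upper (h : Ext z v c0 ε κ F) {M : ℝ} (hM : 0 ≤ M)
    (hv : ∀ G : Finset (ℕ → Bool), ∑ c ∈ G, v c ^ 2 ≤ M ^ 2) (φ : D ℕ) (m : ℕ) :
    ‖∑ j ∈ Finset.range m, φ (ev j) • (Vp v κ F j - Vp v κ F (j + 1))‖ ≤ 2 * M * ‖φ‖ := by
  classical
  have hkm := h.κm.monotone
  have e1 : ∑ j ∈ Finset.range m, φ (ev j) • (Vp v κ F j - Vp v κ F (j + 1)) =
      ∑ j ∈ Finset.range m, φ (ev j) • ∑ c ∈ F j, v c • sp (br c) (κ (j + 1)) (κ (j + 2)) -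
      ∑ j ∈ Finset.range m, ∑ c ∈ F (j + 1) \ F j, (φ (ev j) * v c) • sg (br c) (κ (j + 2)) := by
    rw [← Finset.sum_sub_distrib]
    apply Finset.sum_congr rfl
    intro j _
    have h1 : Vp v κ F j - Vp v κ F (j + 1) =
        ∑ c ∈ F j, v c • sp (br c) (κ (j + 1)) (κ (j + 2)) -
        ∑ c ∈ F (j + 1) \ F j, v c • sg (br c) (κ (j + 2)) := by
      unfold Vp
      rw [← Finset.sum_sdiff (h.Fm (Nat.le_succ j))]
      have h2 : ∑ c ∈ F j, v c • sp (br c) (κ (j + 1)) (κ (j + 2)) =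
          ∑ c ∈ F j, v c • sg (br c) (κ (j + 1)) - ∑ c ∈ F j, v c • sg (br c) (κ (j + 2)) := by
        rw [← Finset.sum_sub_distrib]
        apply Finset.sum_congr rfl
        intro c _
        rw [← sg_sub (hkm (Nat.le_succ (j + 1))), smul_sub]
      rw [h2]
      abel
    rw [h1, smul_sub]
    congr 1
    rw [Finset.smul_sum]
    exact Finset.sum_congr rfl fun c _ => by rw [smul_smul]
  rw [e1]
  have n1 : ‖∑ j ∈ Finset.range m, φ (ev j) • ∑ c ∈ F j, v c • sp (br c) (κ (j + 1)) (κ (j + 2))‖ ≤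
      M * ‖φ‖ := by
    have h1 := norm_le_of_sq (F m) (∑ j ∈ Finset.range m, φ (ev j) •
      ∑ c ∈ F j, v c • sp (br c) (κ (j + 1)) (κ (j + 2))) (fun c => v c * ‖φ‖)
      (fun c x => ‖Qv κ F m c x‖) (by
        intro x
        have h2 : (∑ j ∈ Finset.range m, φ (ev j) •
            ∑ c ∈ F j, v c • sp (br c) (κ (j + 1)) (κ (j + 2))) x =
            ∑ c ∈ F m, v c * φ (Qv κ F m c x) := by
          have h3 : ∀ c ∈ F m, v c * φ (Qv κ F m c x) = ∑ j ∈ Finset.range m,
              (if c ∈ F j then φ (ev j) * (v c * ss (pc (br c) (κ (j + 1)) (κ (j + 2))) x) else 0) := by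
            intro c _
            unfold Qv
            rw [map_sum, Finset.mul_sum]
            apply Finset.sum_congr rfl
            intro j _
            rw [map_smul, smul_eq_mul]
            split_ifs
            · ring
            · ring
          rw [Finset.sum_congr rfl h3, Finset.sum_comm, _root_.sum_apply]
          apply Finset.sum_congr rfl
          intro j hj
          rw [_root_.smul_apply, _root_.sum_apply, smul_eq_mul, Finset.mul_sum,
            ← Finset.sum_filter]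
          have h4 : (F m).filter (fun c => c ∈ F j) = F j := by
            ext c
            rw [Finset.mem_filter]
            exact ⟨fun h => h.2, fun h' => ⟨h.Fm (Finset.mem_range.1 hj).le h', h'⟩⟩
          rw [h4]
          apply Finset.sum_congr rfl
          intro c _
          rw [_root_.smul_apply, smul_eq_mul, sp_apply]
        rw [h2]
        refine (Finset.abs_sum_le_sum_abs _ _).trans (Finset.sum_le_sum fun c _ => ?_)
        rw [abs_mul, abs_mul, abs_norm, abs_norm, mul_assoc]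
        apply mul_le_mul_of_nonneg_left _ (abs_nonneg _)
        exact φ.le_opNorm _) (fun x => sum_Qv_le h.κm h.Fm h.sep m x)
    refine h1.trans ?_
    rw [Real.sqrt_le_iff]
    refine ⟨by positivity, ?_⟩
    simp_rw [mul_pow]
    rw [← Finset.sum_mul]
    exact mul_le_mul_of_nonneg_right (hv _) (sq_nonneg _)
  have n2 : ‖∑ j ∈ Finset.range m, ∑ c ∈ F (j + 1) \ F j, (φ (ev j) * v c) • sg (br c) (κ (j + 2))‖ ≤
      M * ‖φ‖ := by
    refine (norm_new_le h (Finset.range m) (fun j c => φ (ev j) * v c) (fun j => κ (j + 2))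
      (fun j => hkm (by omega))).trans ?_
    rw [Real.sqrt_le_iff]
    refine ⟨by positivity, ?_⟩
    calc ∑ j ∈ Finset.range m, ∑ c ∈ F (j + 1) \ F j, (φ (ev j) * v c) ^ 2
        ≤ ∑ j ∈ Finset.range m, ‖φ‖ ^ 2 * ∑ c ∈ F (j + 1) \ F j, v c ^ 2 := by
          apply Finset.sum_le_sum
          intro j _
          simp_rw [mul_pow]
          rw [← Finset.mul_sum]
          apply mul_le_mul_of_nonneg_right _ (Finset.sum_nonneg fun _ _ => sq_nonneg _)
          rw [← sq_abs]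
          exact pow_le_pow_left₀ (abs_nonneg _) (abs_apply_ev_le φ j) 2
      _ = ‖φ‖ ^ 2 * (∑ c ∈ F m, v c ^ 2 - ∑ c ∈ F 0, v c ^ 2) := by
          rw [← Finset.mul_sum]
          congr 1
          rw [← Finset.sum_range_sub (fun j => ∑ c ∈ F j, v c ^ 2)]
          apply Finset.sum_congr rfl
          intro j _
          rw [← Finset.sum_sdiff (h.Fm (Nat.le_succ j))]
          ring
      _ ≤ ‖φ‖ ^ 2 * M ^ 2 := by
          apply mul_le_mul_of_nonneg_left _ (sq_nonneg _)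
          have h1 := hv (F m)
          have h2 : 0 ≤ ∑ c ∈ F 0, v c ^ 2 := Finset.sum_nonneg fun _ _ => sq_nonneg _
          linarith
      _ = (M * ‖φ‖) ^ 2 := by ring
  have n3 := norm_sub_le (∑ j ∈ Finset.range m, φ (ev j) •
    ∑ c ∈ F j, v c • sp (br c) (κ (j + 1)) (κ (j + 2)))
    (∑ j ∈ Finset.range m, ∑ c ∈ F (j + 1) \ F j, (φ (ev j) * v c) • sg (br c) (κ (j + 2)))
  linarith

/-- the upper estimate -/
theorem upper (h : Ext z v c0 ε κ F) {M A : ℝ} (hM : ∀ j, ‖z j‖ ≤ M)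
    (hv : ∀ G : Finset (ℕ → Bool), ∑ c ∈ G, v c ^ 2 ≤ M ^ 2) (hε : ∀ j, 0 ≤ ε j)
    (hA : ∀ n, ∑ j ∈ Finset.range n, ε j ≤ A) (φ : D ℕ) {n : ℕ} (hn : φ (ev n) = 0) :
    ‖∑ j ∈ Finset.range (n + 1), φ (ev j) • (z j - z (j + 1))‖ ≤ (6 * A + 8 * M) * ‖φ‖ := by
  have hM0 : 0 ≤ M := (norm_nonneg _).trans (hM 0)
  have e1 : ∑ j ∈ Finset.range (n + 1), φ (ev j) • (z j - z (j + 1)) =
      ∑ j ∈ Finset.range (n + 1), φ (xd j) • (z j - Vp v κ F j) +
      ∑ j ∈ Finset.range (n + 1), φ (ev j) • (Vp v κ F j - Vp v κ F (j + 1)) := by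
    have h1 := abel_sum φ (fun j => z j - Vp v κ F j) n
    rw [hn, zero_smul, sub_zero] at h1
    rw [← h1, ← Finset.sum_add_distrib]
    apply Finset.sum_congr rfl
    intro j _
    rw [← smul_add]
    congr 1
    abel
  rw [e1]
  have n1 := ext_sum_le h hM (Finset.range (n + 1)) (fun j => φ (xd j))
  have n2 := V_upper h hM0 hv φ (n + 1)
  have n3 : ∑ j ∈ Finset.range (n + 1), |φ (xd j)| * (3 * ε j) ≤ 6 * A * ‖φ‖ := by
    calc ∑ j ∈ Finset.range (n + 1), |φ (xd j)| * (3 * ε j)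
        ≤ ∑ j ∈ Finset.range (n + 1), (6 * ‖φ‖) * ε j := by
          apply Finset.sum_le_sum
          intro j _
          have h1 := φ.le_opNorm (xd j)
          rw [Real.norm_eq_abs] at h1
          have h2 := norm_xd j
          have h3 := norm_nonneg φ
          have h4 : |φ (xd j)| ≤ 2 * ‖φ‖ := by nlinarith
          nlinarith [hε j]
      _ = 6 * ‖φ‖ * ∑ j ∈ Finset.range (n + 1), ε j := by rw [Finset.mul_sum]
      _ ≤ 6 * ‖φ‖ * A := mul_le_mul_of_nonneg_left (hA _) (by positivity)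
      _ = _ := by ring
  have n4 : √(∑ j ∈ Finset.range (n + 1), (φ (xd j) * M) ^ 2) ≤ 3 * (M * ‖φ‖) := by
    rw [Real.sqrt_le_iff]
    refine ⟨by positivity, ?_⟩
    simp_rw [mul_pow]
    rw [← Finset.sum_mul]
    have h1 := sum_diff_sq_le φ (n + 1)
    nlinarith [sq_nonneg M, sq_nonneg ‖φ‖, mul_nonneg (sq_nonneg M) (sq_nonneg ‖φ‖)]
  have n5 := norm_add_le (∑ j ∈ Finset.range (n + 1), φ (xd j) • (z j - Vp v κ F j))
    (∑ j ∈ Finset.range (n + 1), φ (ev j) • (Vp v κ F j - Vp v κ F (j + 1)))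
  calc _ ≤ _ := n5
    _ ≤ (6 * A * ‖φ‖ + 2 * (3 * (M * ‖φ‖))) + 2 * M * ‖φ‖ := by linarith
    _ = _ := by ring

end ext

end Pool.Agent.R277.JT
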